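import Pool.Agent.W_8c5d11_v22.Scale
import Pool.Agent.W_8c5d11_h73.HsDef

/-!
MP_8c5d11_gt: the bound for all radii from the normalised systems of certificates.
-/

open Set Metric MeasureTheory Filter Topology
open scoped Real ENNReal NNReal

namespace Pool.Agent.W_8c5d11_v22

open Pool.Agent.W_8c5d11_h73

theorem continuous_hlen (R : ℝ) : Continuous (hlen R) := by
  unfold hlen
  have h1 : Continuous fun r : ℝ => Real.arccos ((R - r) / R) :=
    Real.continuous_arccos.comp ((continuous_const.sub continuous_id).div_const R)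
  have h2 : Continuous fun r : ℝ => Real.sqrt (R ^ 2 - (R - r) ^ 2) :=
    Real.continuous_sqrt.comp (by fun_prop)
  exact (continuous_const.mul (h2.sub continuous_id)).add
    ((continuous_const.mul (continuous_const.sub continuous_id)).mul (continuous_const.sub h1))

/-- the value of the normalised system, scaled -/
theorem hlen_scale {R D b : ℝ} (hD : 0 < D) (hDR : D ≤ R) (hb : b = Real.arcsin (D / R)) :
    D * (π + 2 * (b + 1 - Real.tan (b / 2))) = hlen R (R - D) := by
  have hR : 0 < R := lt_of_lt_of_le hD hDR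
  have hx0 : 0 < D / R := div_pos hD hR
  have hx1 : D / R ≤ 1 := (div_le_one hR).2 hDR
  have hs : Real.sin b = D / R := by rw [hb]; exact Real.sin_arcsin (by linarith) hx1
  have hc : Real.cos b = Real.sqrt (1 - (D / R) ^ 2) := by rw [hb]; exact Real.cos_arcsin _
  have hb0 : 0 < b := by rw [hb]; exact Real.arcsin_pos.2 hx0
  have hb1 : b ≤ π / 2 := by rw [hb]; exact Real.arcsin_le_pi_div_two _
  have hcos : 0 < Real.cos (b / 2) := Real.cos_pos_of_mem_Ioo ⟨by linarith [Real.pi_pos], by linarith [Real.pi_pos]⟩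
  have ht : Real.tan (b / 2) * Real.sin b = 1 - Real.cos b := by
    have e1 : Real.sin b = 2 * Real.sin (b / 2) * Real.cos (b / 2) := by
      rw [← Real.sin_two_mul]; congr 1; ring
    have e2 : Real.cos b = 1 - 2 * Real.sin (b / 2) ^ 2 := by
      have e3 := Real.cos_two_mul (b / 2)
      have e4 := Real.sin_sq_add_cos_sq (b / 2)
      rw [mul_div_cancel₀ b (two_ne_zero' ℝ)] at e3
      linarith
    rw [e1, e2, Real.tan_eq_sin_div_cos]
    field_simp
    ring
  have hsq : R * Real.cos b = Real.sqrt (R ^ 2 - D ^ 2) := by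
    have e1 : R ^ 2 - D ^ 2 = R ^ 2 * (1 - (D / R) ^ 2) := by field_simp
    rw [hc, e1, Real.sqrt_mul (by positivity), Real.sqrt_sq hR.le]
  have hDt : D * Real.tan (b / 2) = R - R * Real.cos b := by
    have e1 : D = R * Real.sin b := by rw [hs]; field_simp
    rw [e1]
    linear_combination R * ht
  unfold hlen
  have e2 : R - (R - D) = D := by ring
  rw [e2, ← hsq]
  have e3 : Real.arccos (D / R) = π / 2 - b := by rw [hb, Real.arccos]
  rw [e3]
  linear_combination (-2 : ℝ) * hDt

/-- **The lower bound for all `R ≤ 2r` from the normalised systems of certificates.** -/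
theorem bound_of_certs
    (h : ∀ b : ℝ, 0 < b → b ≤ π / 6 → ∃ B C, CertSys (1 / Real.sin b) (1 / Real.sin b - 1)
      (π + 2 * (b + 1 - Real.tan (b / 2))) B C)
    {R r : ℝ} (hr : 0 < r) (hR : r < R) (h2 : R ≤ 2 * r) {S : Set ℂ} (hc : IsCompact S)
    (hS : IsConnected S) (hcov : sphere 0 R ⊆ cthickening r S) :
    ENNReal.ofReal (hlen R r) ≤ μH[1] S := by
  have hR0 : 0 < R := hr.trans hR
  refine verif_limit (H := hlen R) hR0 hr.le (continuous_hlen R).continuousWithinAt ?_ hc hS hcov
  have h3 : ∀ᶠ r' in 𝓝[>] r, r' < R := by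
    filter_upwards [Ioo_mem_nhdsGT hR] with r' hr' using hr'.2
  filter_upwards [h3, self_mem_nhdsWithin] with r' h4 h5
  have h5' : r < r' := h5
  set D := R - r' with hD
  have hD0 : 0 < D := by linarith
  set b := Real.arcsin (D / R) with hb
  have hx0 : 0 < D / R := div_pos hD0 hR0
  have hx2 : D / R ≤ 1 / 2 := by
    rw [div_le_div_iff₀ hR0 two_pos]; linarith
  have hb0 : 0 < b := Real.arcsin_pos.2 hx0
  have hb1 : b ≤ π / 6 := by
    have e1 : Real.arcsin (1 / 2) = π / 6 := by
      rw [← Real.sin_pi_div_six]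
      exact Real.arcsin_sin (by linarith [Real.pi_pos]) (by linarith [Real.pi_pos])
    rw [← e1]
    exact Real.arcsin_le_arcsin hx2
  have hs : Real.sin b = D / R := Real.sin_arcsin (by linarith) (by linarith)
  obtain ⟨B, C, hC⟩ := h b hb0 hb1
  have e1 := hC.scale hD0
  have e2 : D * (1 / Real.sin b) = R := by rw [hs]; field_simp
  have e3 : D * (1 / Real.sin b - 1) = r' := by
    have : D * (1 / Real.sin b - 1) = D * (1 / Real.sin b) - D := by ring
    rw [this, e2]; simp only [hD]; ring
  have e4 : D * (π + 2 * (b + 1 - Real.tan (b / 2))) = hlen R r' := by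
    rw [hlen_scale hD0 (by linarith) hb]
    congr 1; simp only [hD]; ring
  rw [e2, e3, e4] at e1
  exact ⟨_, verif_of_cert e1⟩

end Pool.Agent.W_8c5d11_v22
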