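import Pool.Agent.W_8c5d11_v22.Cert

/-!
MP_8c5d11_gt: three parts with gaps smaller than `π`.
-/

open Set Metric
open scoped Real

namespace Pool.Agent.W_8c5d11_v22

/-- The certificates needed for the centre. -/
structure Feats (c : ℝ) (C : ℝ → ℝ → ℂ → ℝ → Prop) : Prop where
  F : ∀ g d s, 0 ≤ s → s ≤ π / 6 → π / 2 - s ≤ d - g → d - g ≤ π - 2 * s → d < g + π →
    C g d (pt 1 (g + π / 2 - s)) (Real.sin s + (d - g - π / 2 + c) * Real.cos s)
  F' : ∀ g d s, 0 ≤ s → s ≤ π / 6 → π / 2 - s ≤ d - g → d - g ≤ π - 2 * s → d < g + π →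
    C g d (pt 1 (d - π / 2 + s)) (Real.sin s + (d - g - π / 2 + c) * Real.cos s)
  T : ∀ g d A B : ℝ, g < d → d < g + π → 0 ≤ A → A ≤ 1 → 0 ≤ B → B ≤ 1 →
    ‖(A : ℂ) * pt 1 g + (B : ℂ) * pt 1 d‖ ≤ 1 →
    C g d ((A : ℂ) * pt 1 g + (B : ℂ) * pt 1 d) (A + B)

/-- three parts can be certified -/
def TopP (C : ℝ → ℝ → ℂ → ℝ → Prop) (H a b e : ℝ) : Prop :=
  ∃ w₁ v₁ w₂ v₂ w₃ v₃, C a b w₁ v₁ ∧ C b e w₂ v₂ ∧ C e (a + 2 * π) w₃ v₃ ∧
    w₁ + w₂ + w₃ = 0 ∧ H ≤ v₁ + v₂ + v₃

/-- the function of the three gap inequality -/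
noncomputable def fT (c x y : ℝ) : ℝ :=
  Real.cos ((x - y) / 2) / Real.cos (π / 6 + (x + y) / 2) - π / 3 -
    (π / 3 + c) * (2 - Real.cos x - Real.cos y) + (Real.sin x - x * Real.cos x) +
    (Real.sin y - y * Real.cos y)

variable {c : ℝ} {C : ℝ → ℝ → ℂ → ℝ → Prop}

theorem pt_comb (g p q : ℝ) : ((Real.sin q : ℝ) : ℂ) * pt 1 g + ((Real.sin p : ℝ) : ℂ) *
    pt 1 (g + (p + q)) = ((Real.sin (p + q) : ℝ) : ℂ) * pt 1 (g + p) := by
  apply Complex.ext
  · simp only [Complex.add_re, Complex.re_ofReal_mul, pt_re, one_mul]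
    rw [Real.cos_add, Real.cos_add, Real.cos_add, Real.sin_add]
    linear_combination (-(Real.cos g * Real.sin q)) * (Real.sin_sq_add_cos_sq p)
  · simp only [Complex.add_im, Complex.im_ofReal_mul, pt_im, one_mul]
    rw [Real.sin_add g, Real.sin_add g, Real.cos_add, Real.sin_add]
    linear_combination (-(Real.sin g * Real.sin q)) * (Real.sin_sq_add_cos_sq p)

/-- two terminals, in terms of angles -/
theorem Feats.two (h : Feats c C) {g d p q : ℝ} {w : ℂ} (hd : d = g + (p + q)) (hp : 0 ≤ p)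
    (hq : 0 ≤ q) (hm : 0 < p + q) (hpi : p + q < π) (hA : Real.sin q ≤ Real.sin (p + q))
    (hB : Real.sin p ≤ Real.sin (p + q)) (hw : w = pt 1 (g + p)) :
    C g d w (Real.cos ((p - q) / 2) / Real.cos ((p + q) / 2)) := by
  have hs : 0 < Real.sin (p + q) := Real.sin_pos_of_pos_of_lt_pi hm hpi
  have hc : 0 < Real.cos ((p + q) / 2) :=
    Real.cos_pos_of_mem_Ioo ⟨by linarith [Real.pi_pos], by linarith⟩
  have hs2 : 0 < Real.sin ((p + q) / 2) :=
    Real.sin_pos_of_pos_of_lt_pi (by linarith) (by linarith)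
  have sq0 : 0 ≤ Real.sin q := Real.sin_nonneg_of_nonneg_of_le_pi hq (by linarith)
  have sp0 : 0 ≤ Real.sin p := Real.sin_nonneg_of_nonneg_of_le_pi hp (by linarith)
  have e1 : ((Real.sin q / Real.sin (p + q) : ℝ) : ℂ) * pt 1 g +
      ((Real.sin p / Real.sin (p + q) : ℝ) : ℂ) * pt 1 d = w := by
    have e2 := pt_comb g p q
    have e3 : ((Real.sin (p + q) : ℝ) : ℂ) ≠ 0 := Complex.ofReal_ne_zero.2 hs.ne'
    rw [hw, hd, Complex.ofReal_div, Complex.ofReal_div]
    field_simp
    linear_combination e2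
  have e2 : Real.cos ((p - q) / 2) / Real.cos ((p + q) / 2) =
      Real.sin q / Real.sin (p + q) + Real.sin p / Real.sin (p + q) := by
    have e3 : Real.sin (p + q) = 2 * Real.sin ((p + q) / 2) * Real.cos ((p + q) / 2) := by
      rw [← Real.sin_two_mul]; congr 1; ring
    have e4 : Real.sin q + Real.sin p = 2 * Real.sin ((p + q) / 2) * Real.cos ((p - q) / 2) := by
      have e5 : q = (p + q) / 2 - (p - q) / 2 := by ring
      have e6 : p = (p + q) / 2 + (p - q) / 2 := by ring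
      have e7 := Real.sin_sub ((p + q) / 2) ((p - q) / 2)
      have e8 := Real.sin_add ((p + q) / 2) ((p - q) / 2)
      rw [← e5] at e7
      rw [← e6] at e8
      rw [e7, e8]; ring
    rw [← add_div, e3, e4]
    field_simp
  have e3 := h.T g d (Real.sin q / Real.sin (p + q)) (Real.sin p / Real.sin (p + q))
    (by linarith) (by linarith) (div_nonneg sq0 hs.le) ((div_le_one hs).2 hA)
    (div_nonneg sp0 hs.le) ((div_le_one hs).2 hB)
    (by rw [e1, hw, norm_pt zero_le_one])
  rw [e1, ← e2] at e3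
  exact e3

theorem pt_three (θ : ℝ) : pt 1 θ + pt 1 (θ + 2 * π / 3) + pt 1 (θ + 4 * π / 3) = 0 := by
  have e1 : θ + 2 * π / 3 = (θ + π) - π / 3 := by ring
  have e2 : θ + 4 * π / 3 = (θ + π) + π / 3 := by ring
  rw [e1, e2]
  apply Complex.ext
  · simp only [Complex.add_re, pt_re, one_mul, Real.cos_add, Real.cos_sub, Real.cos_pi_div_three,
      Real.cos_pi, Real.sin_pi, Complex.zero_re]
    ring
  · simp only [Complex.add_im, pt_im, one_mul, Real.sin_add, Real.sin_sub, Real.cos_pi_div_three,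
      Real.cos_pi, Real.sin_pi, Complex.zero_im]
    ring

/-- sines of the angles of a two terminal certificate with angle at most `2π/3` -/
theorem sin_le_sin_add {p q : ℝ} (hp : 0 ≤ p) (hq : 0 ≤ q) (hq3 : q ≤ π / 3)
    (hm : p + q ≤ 2 * π / 3) : Real.sin q ≤ Real.sin (p + q) := by
  rcases le_total (p + q) (π / 2) with h | h
  · exact Real.sin_le_sin_of_le_of_le_pi_div_two (by linarith [Real.pi_pos]) h (by linarith)
  · have e1 : Real.sin (π / 3) ≤ Real.sin (p + q) := by
      rw [← Real.sin_pi_sub (p + q)]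
      exact Real.sin_le_sin_of_le_of_le_pi_div_two (by linarith [Real.pi_pos]) (by linarith)
        (by linarith)
    have e2 : Real.sin q ≤ Real.sin (π / 3) :=
      Real.sin_le_sin_of_le_of_le_pi_div_two (by linarith [Real.pi_pos])
        (by linarith [Real.pi_pos]) hq3
    exact e2.trans e1

/-- the small gap -/
theorem Feats.small (h : Feats c C) {a b e : ℝ} (h1 : b - a < π) (h2 : e - b < π)
    (h3 : e < a + 2 * π) (h4 : a + 2 * π - e ≤ π / 3) : TopP C (π + 2 * c) a b e := by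
  have hpi := Real.pi_pos
  set k := (a + 2 * π - e) / 2 with hk
  have hk0 : 0 < k := by linarith
  have hk1 : k ≤ π / 6 := by linarith
  have hck : 0 < Real.cos k := Real.cos_pos_of_mem_Ioo ⟨by linarith, by linarith⟩
  have htan : k ≤ Real.tan k := Real.le_tan hk0.le (by linarith)
  have hsin : Real.sin k ≤ 1 / 2 := by
    rw [← Real.sin_pi_div_six]
    exact Real.sin_le_sin_of_le_of_le_pi_div_two (by linarith) (by linarith) hk1
  have hsin0 : 0 < Real.sin k := Real.sin_pos_of_pos_of_lt_pi hk0 (by linarith)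
  have htan1 : Real.tan k ≤ 1 := by
    rw [Real.tan_eq_sin_div_cos, div_le_one hck]
    have := Real.sin_sq_add_cos_sq k
    nlinarith
  have hw : pt 1 (a + π / 2 - 0) + pt 1 (e - π / 2 + 0) +
      ((Real.tan k : ℂ) * pt 1 e + (Real.tan k : ℂ) * pt 1 (a + 2 * π)) = 0 := by
    have e1 : e = (e + k) - k := by ring
    have e2 : a + 2 * π = (e + k) + k := by rw [hk]; ring
    have e3 : a + π / 2 - 0 = ((e + k) + k + π / 2) - 2 * π := by rw [hk]; ring
    have ht : Real.tan k * Real.cos k = Real.sin k := Real.tan_mul_cos hck.ne'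
    apply Complex.ext
    · simp only [Complex.add_re, Complex.re_ofReal_mul, pt_re, one_mul, Complex.zero_re]
      rw [e3, e2, Real.cos_sub_two_pi, Real.cos_add_pi_div_two, add_zero, Real.cos_sub_pi_div_two]
      conv_lhs => rw [show Real.sin e = Real.sin (e + k - k) by ring_nf,
        show Real.cos e = Real.cos (e + k - k) by ring_nf]
      rw [Real.sin_add (e + k) k, Real.sin_sub (e + k) k, Real.cos_sub (e + k) k,
        Real.cos_add (e + k) k]
      linear_combination (2 * Real.cos (e + k)) * ht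
    · simp only [Complex.add_im, Complex.im_ofReal_mul, pt_im, one_mul, Complex.zero_im]
      rw [e3, e2, Real.sin_sub_two_pi, Real.sin_add_pi_div_two, add_zero, Real.sin_sub_pi_div_two]
      conv_lhs => rw [show Real.sin e = Real.sin (e + k - k) by ring_nf,
        show Real.cos e = Real.cos (e + k - k) by ring_nf]
      rw [Real.sin_add (e + k) k, Real.sin_sub (e + k) k, Real.cos_sub (e + k) k,
        Real.cos_add (e + k) k]
      linear_combination (2 * Real.sin (e + k)) * ht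
  have hn : ‖(Real.tan k : ℂ) * pt 1 e + (Real.tan k : ℂ) * pt 1 (a + 2 * π)‖ ≤ 1 := by
    have e1 : (Real.tan k : ℂ) * pt 1 e + (Real.tan k : ℂ) * pt 1 (a + 2 * π) =
        ((2 * Real.sin k : ℝ) : ℂ) * pt 1 (e + k) := by
      have e2 := pt_comb e k k
      have e3 : e + (k + k) = a + 2 * π := by rw [hk]; ring
      rw [e3] at e2
      have e4 : Real.sin (k + k) = 2 * Real.sin k * Real.cos k := by rw [← two_mul, Real.sin_two_mul]
      rw [e4] at e2
      have hc' : (Real.cos k : ℂ) ≠ 0 := Complex.ofReal_ne_zero.2 hck.ne'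
      rw [Real.tan_eq_sin_div_cos]
      push_cast at e2 ⊢
      have hc'' : Complex.cos (k : ℂ) ≠ 0 := by
        rw [← Complex.ofReal_cos]; exact hc'
      field_simp
      linear_combination e2
    rw [e1, norm_mul, norm_pt zero_le_one, mul_one, Complex.norm_of_nonneg (by linarith)]
    linarith
  refine ⟨_, _, _, _, _, _, h.F a b 0 le_rfl (by linarith) (by linarith) (by linarith)
    (by linarith), h.F' b e 0 le_rfl (by linarith) (by linarith) (by linarith) (by linarith),
    h.T e (a + 2 * π) (Real.tan k) (Real.tan k) h3 (by linarith) (by linarith) htan1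
    (by linarith) htan1 hn, hw, ?_⟩
  rw [Real.sin_zero, Real.cos_zero]
  linarith

/-- three unit certificates at angles of `2π/3` -/
theorem Feats.unit (h : Feats c C) {a b e x y p q : ℝ} (hx0 : 0 ≤ x) (hx : x ≤ π / 6) (hy0 : 0 ≤ y)
    (hy : y ≤ π / 6) (h1 : π / 2 - x ≤ b - a) (h2 : b - a ≤ π - 2 * x) (h3 : b - a < π)
    (h4 : π / 2 - y ≤ e - b) (h5 : e - b ≤ π - 2 * y) (h6 : e - b < π)
    (hp : e + p = a + π / 2 - x + 4 * π / 3) (hq : a + 2 * π = e + (p + q))
    (hw2 : e - π / 2 + y = a + π / 2 - x + 2 * π / 3) (hp0 : 0 < p) (hp1 : p ≤ π / 3)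
    (hq0 : 0 < q) (hq1 : q ≤ π / 3)
    (hv : π + 2 * c ≤ Real.sin x + (b - a - π / 2 + c) * Real.cos x +
      (Real.sin y + (e - b - π / 2 + c) * Real.cos y) +
      Real.cos ((p - q) / 2) / Real.cos ((p + q) / 2)) : TopP C (π + 2 * c) a b e := by
  have hpi := Real.pi_pos
  refine ⟨_, _, _, _, _, _, h.F a b x hx0 hx h1 h2 (by linarith),
    h.F' b e y hy0 hy h4 h5 (by linarith), h.two hq hp0.le hq0.le (by linarith) (by linarith)
    (sin_le_sin_add hp0.le hq0.le hq1 (by linarith))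
    (by rw [add_comm p q]; exact sin_le_sin_add hq0.le hp0.le hp1 (by linarith)) rfl, ?_, hv⟩
  rw [hp, hw2]
  exact pt_three _

/-- **Three gaps, the first largest, the last smallest.** -/
theorem Feats.sorted (h : Feats c C)
    (hT : ∀ x y, 0 ≤ x → x ≤ π / 6 → 0 ≤ y → y ≤ π / 6 → 0 ≤ fT c x y) {a b e : ℝ}
    (h1 : b - a < π) (h3 : e < a + 2 * π) (h12 : e - b ≤ b - a)
    (h23 : a + 2 * π - e ≤ e - b) : TopP C (π + 2 * c) a b e := by
  have hpi := Real.pi_pos
  rcases le_total (a + 2 * π - e) (π / 3) with hs | hs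
  · exact h.small h1 (by linarith) h3 hs
  rcases le_total (e - b) (2 * π / 3) with hm | hm
  · -- M
    set μ := π / 2 - (b - a) / 2 with hμ
    set ν := 7 * π / 6 - (b - a) / 2 - (e - b) with hν
    have a1 : 0 ≤ μ := by linarith
    have a2 : μ ≤ π / 6 := by linarith
    have a3 : μ ≤ ν := by linarith
    have a4 : ν ≤ π / 6 := by linarith
    refine h.unit (x := μ) (y := ν) (p := π / 6 + ν) (q := π / 6 + μ) a1 a2 (by linarith) a4
      (by linarith) (by linarith) h1 (by linarith) (by linarith) (by linarith) (by linarith)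
      (by linarith) (by linarith) (by linarith) (by linarith) (by linarith) (by linarith) ?_
    have e1 := hT μ ν a1 a2 (by linarith) a4
    have e2 : Real.cos ν ≤ Real.cos μ :=
      Real.cos_le_cos_of_nonneg_of_le_pi a1 (by linarith) a3
    have e3 : 0 ≤ (π / 6 - μ) * (Real.cos μ - Real.cos ν) :=
      mul_nonneg (by linarith) (by linarith)
    have e4 : (π / 6 + ν - (π / 6 + μ)) / 2 = -((μ - ν) / 2) := by ring
    have e5 : (π / 6 + ν + (π / 6 + μ)) / 2 = π / 6 + (μ + ν) / 2 := by ring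
    have e6 : b - a = π - 2 * μ := by rw [hμ]; ring
    have e7 : e - b = 2 * π / 3 + μ - ν := by rw [hν, hμ]; ring
    rw [e4, e5, Real.cos_neg, e6, e7]
    unfold fT at e1
    linarith
  rcases le_total (b - a) (5 * π / 6) with hb | hb
  · -- T
    set x := 5 * π / 6 - (b - a) with hx
    set y := 5 * π / 6 - (e - b) with hy
    have a1 : 0 ≤ x := by linarith
    have a2 : x ≤ π / 6 := by linarith
    have a3 : 0 ≤ y := by linarith
    have a4 : y ≤ π / 6 := by linarith
    refine h.unit (x := x) (y := y) (p := π / 6 + y) (q := π / 6 + x) a1 a2 a3 a4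
      (by linarith) (by linarith) h1 (by linarith) (by linarith) (by linarith) (by linarith)
      (by linarith) (by linarith) (by linarith) (by linarith) (by linarith) (by linarith) ?_
    have e1 := hT x y a1 a2 a3 a4
    have e4 : (π / 6 + y - (π / 6 + x)) / 2 = -((x - y) / 2) := by ring
    have e5 : (π / 6 + y + (π / 6 + x)) / 2 = π / 6 + (x + y) / 2 := by ring
    have e6 : b - a = 5 * π / 6 - x := by rw [hx]; ring
    have e7 : e - b = 5 * π / 6 - y := by rw [hy]; ring
    rw [e4, e5, Real.cos_neg, e6, e7]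
    unfold fT at e1
    linarith
  · -- S
    set φ := a + 2 * π - e - π / 3 with hφ
    have a1 : 0 ≤ φ := by linarith
    have a2 : φ ≤ π / 6 := by linarith
    refine h.unit (x := 0) (y := φ) (p := π / 6 + φ) (q := π / 6) le_rfl (by linarith) a1 a2
      (by linarith) (by linarith) h1 (by linarith) (by linarith) (by linarith) (by linarith)
      (by linarith) (by linarith) (by linarith) (by linarith) (by linarith) (by linarith) ?_
    have e1 := hT 0 φ le_rfl (by linarith) a1 a2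
    have e2 : Real.cos φ ≤ 1 := Real.cos_le_one φ
    have e4 : (π / 6 + φ - π / 6) / 2 = -((0 - φ) / 2) := by ring
    have e5 : (π / 6 + φ + π / 6) / 2 = π / 6 + (0 + φ) / 2 := by ring
    have e3 : 0 ≤ (b - a - 5 * π / 6) * (1 - Real.cos φ) :=
      mul_nonneg (by linarith) (by linarith)
    have e7 : e - b = 5 * π / 3 - φ - (b - a) := by rw [hφ]; ring
    rw [e4, e5, Real.cos_neg, e7, Real.sin_zero, Real.cos_zero]
    unfold fT at e1
    rw [Real.sin_zero, Real.cos_zero] at e1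
    linarith

/-- mirror image of certificates -/
def mir (C : ℝ → ℝ → ℂ → ℝ → Prop) (a b : ℝ) (w : ℂ) (v : ℝ) : Prop :=
  C (-b) (-a) (starRingEnd ℂ w) v

theorem conj_pt (t : ℝ) : starRingEnd ℂ (pt 1 t) = pt 1 (-t) := by
  apply Complex.ext
  · rw [Complex.conj_re, pt_re, pt_re, Real.cos_neg]
  · rw [Complex.conj_im, pt_im, pt_im, Real.sin_neg]; ring

theorem Feats.mir (h : Feats c C) : Feats c (mir C) where
  F g d s h0 h1 h2 h3 h4 := by
    have e1 := h.F' (-d) (-g) s h0 h1 (by linarith) (by linarith) (by linarith)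
    have e2 : starRingEnd ℂ (pt 1 (g + π / 2 - s)) = pt 1 (-g - π / 2 + s) := by
      rw [conj_pt]; congr 1; ring
    have e3 : d - g = -g - -d := by ring
    unfold W_8c5d11_v22.mir
    rw [e2, e3]
    exact e1
  F' g d s h0 h1 h2 h3 h4 := by
    have e1 := h.F (-d) (-g) s h0 h1 (by linarith) (by linarith) (by linarith)
    have e2 : starRingEnd ℂ (pt 1 (d - π / 2 + s)) = pt 1 (-d + π / 2 - s) := by
      rw [conj_pt]; congr 1; ring
    have e3 : d - g = -g - -d := by ring
    unfold W_8c5d11_v22.mir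
    rw [e2, e3]
    exact e1
  T g d A B h0 h1 h2 h3 h4 h5 h6 := by
    have e2 : starRingEnd ℂ ((A : ℂ) * pt 1 g + (B : ℂ) * pt 1 d) =
        (B : ℂ) * pt 1 (-d) + (A : ℂ) * pt 1 (-g) := by
      rw [map_add, map_mul, map_mul, conj_pt, conj_pt, Complex.conj_ofReal, Complex.conj_ofReal,
        add_comm]
    have e3 : ‖(B : ℂ) * pt 1 (-d) + (A : ℂ) * pt 1 (-g)‖ ≤ 1 := by
      rw [← e2, Complex.norm_conj]; exact h6
    unfold W_8c5d11_v22.mir
    rw [e2, add_comm A B]
    exact h.T (-d) (-g) B A (by linarith) (by linarith) h4 h5 h2 h3 e3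

theorem TopP.mir {H a b e : ℝ} (h : TopP (mir C) H (-(a + 2 * π)) (-e) (-b)) :
    TopP C H a b e := by
  obtain ⟨w₁, v₁, w₂, v₂, w₃, v₃, c1, c2, c3, hw, hv⟩ := h
  unfold W_8c5d11_v22.mir at c1 c2 c3
  rw [neg_neg] at c1 c2 c3
  rw [neg_neg] at c1 c2
  have e1 : -(-(a + 2 * π) + 2 * π) = a := by ring
  rw [e1] at c3
  refine ⟨_, _, _, _, _, _, c3, c2, c1, ?_, by linarith⟩
  rw [← map_add, ← map_add]
  rw [show w₃ + w₂ + w₁ = w₁ + w₂ + w₃ by ring, hw, map_zero]

theorem TopP.rot {H a b e : ℝ} (hper : ∀ a b w v, C (a + 2 * π) (b + 2 * π) w v ↔ C a b w v)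
    (h : TopP C H b e (a + 2 * π)) : TopP C H a b e := by
  obtain ⟨w₁, v₁, w₂, v₂, w₃, v₃, c1, c2, c3, hw, hv⟩ := h
  exact ⟨_, _, _, _, _, _, (hper _ _ _ _).1 c3, c1, c2, by rw [← hw]; ring, by linarith⟩

/-- **Three gaps smaller than `π`.** -/
theorem Feats.top (h : Feats c C)
    (hper : ∀ a b w v, C (a + 2 * π) (b + 2 * π) w v ↔ C a b w v)
    (hT : ∀ x y, 0 ≤ x → x ≤ π / 6 → 0 ≤ y → y ≤ π / 6 → 0 ≤ fT c x y) :
    ∀ a b e, a < b → b < e → e < a + 2 * π → b < a + π → e < b + π → a + π < e →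
      TopP C (π + 2 * c) a b e := by
  have key : ∀ a b e, a < b → b < e → e < a + 2 * π → b < a + π → e < b + π → a + π < e →
      e - b ≤ b - a → a + 2 * π - e ≤ b - a → TopP C (π + 2 * c) a b e := by
    intro a b e h1 h2 h3 h4 h5 h6 h7 h8
    rcases le_total (a + 2 * π - e) (e - b) with h9 | h9
    · exact h.sorted hT (by linarith) h3 h7 h9
    · refine TopP.rot hper (TopP.mir (h.mir.sorted hT ?_ ?_ ?_ ?_)) <;> linarith
  intro a b e h1 h2 h3 h4 h5 h6
  by_cases c1 : e - b ≤ b - a ∧ a + 2 * π - e ≤ b - a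
  · exact key a b e h1 h2 h3 h4 h5 h6 c1.1 c1.2
  by_cases c2 : a + 2 * π - e ≤ e - b ∧ b - a ≤ e - b
  · refine TopP.rot hper (key b e (a + 2 * π) ?_ ?_ ?_ ?_ ?_ ?_ ?_ ?_) <;>
      linarith [c2.1, c2.2]
  · have c3 : b - a ≤ a + 2 * π - e ∧ e - b ≤ a + 2 * π - e := by
      rcases le_total (e - b) (b - a) with h7 | h7
      · have : ¬ a + 2 * π - e ≤ b - a := fun h8 => c1 ⟨h7, h8⟩
        constructor <;> linarith
      · have : ¬ a + 2 * π - e ≤ e - b := fun h8 => c2 ⟨h8, h7⟩
        constructor <;> linarith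
    refine TopP.rot hper (TopP.rot hper (key e (a + 2 * π) (b + 2 * π) ?_ ?_ ?_ ?_ ?_ ?_ ?_ ?_)) <;>
      linarith [c3.1, c3.2]

end Pool.Agent.W_8c5d11_v22
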