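import Pool.Agent.W_8c5d11_v22.BoundU
import Pool.Agent.W_8c5d11_v22.Lim
import Pool.Agent.W_8c5d11_h65.UDef

/-!
MP_8c5d11_gt: strict inequality for continua which meet the open disc of radius `R - r`.
-/

open Set Metric MeasureTheory Filter Topology
open scoped Real ENNReal NNReal

namespace Pool.Agent.W_8c5d11_v22

open Pool.Agent.W_8c5d11_h73 (hlen)
open Pool.Agent.W_8c5d11_h65 (GG kap)

theorem hlen_nonneg {R r : ℝ} (hr : 0 < r) (hR : r < R) : 0 ≤ hlen R r := by
  unfold hlen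
  have h1 : r ≤ Real.sqrt (R ^ 2 - (R - r) ^ 2) := by
    apply Real.le_sqrt_of_sq_le
    nlinarith
  have h2 := Real.arccos_le_pi ((R - r) / R)
  have h3 : 0 ≤ 2 * (R - r) * (π - Real.arccos ((R - r) / R)) :=
    mul_nonneg (by linarith) (by linarith)
  linarith

/-- the scaled potential -/
noncomputable def pot (R z r : ℝ) : ℝ :=
  (R - r) * (((R - r) / R) ^ 3 / 1000 / 48 * max 0 (1 - (z / (R - r)) ^ 2) ^ 3)

theorem pot_eq {R r b : ℝ} (hD : 0 < R - r) (hs : Real.sin b = (R - r) / R) (z : ℂ) :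
    (R - r) * GG b ((((R - r : ℝ) : ℂ))⁻¹ * z) = pot R ‖z‖ r := by
  unfold GG kap pot
  rw [hs, norm_mul, norm_inv, Complex.norm_of_nonneg hD.le, inv_mul_eq_div]

theorem pot_continuousAt {R r : ℝ} (z : ℝ) (hD : 0 < R - r) :
    ContinuousAt (fun r => pot R z r) r := by
  unfold pot
  have h1 : ContinuousAt (fun r : ℝ => R - r) r := by fun_prop
  have h2 : ContinuousAt (fun r : ℝ => z / (R - r)) r := continuousAt_const.div h1 hD.ne'
  have h3 : ContinuousAt (fun r : ℝ => max 0 (1 - (z / (R - r)) ^ 2)) r :=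
    continuousAt_const.max (continuousAt_const.sub (h2.pow 2))
  exact h1.mul ((((h1.div_const R).pow 3).div_const 1000).div_const 48 |>.mul (h3.pow 3))

/-- **Strict inequality for continua which meet the open disc.** -/
theorem strict_of_fsys
    (h : ∀ b : ℝ, 0 < b → b ≤ π / 6 → ∃ B C, FSys (1 / Real.sin b) (1 / Real.sin b - 1)
      (π + 2 * (b + 1 - Real.tan (b / 2))) B (GG b) C)
    {R r : ℝ} (hr : 0 < r) (hR : r < R) (h2 : R ≤ 2 * r) {S : Set ℂ} (hc : IsCompact S)
    (hS : IsConnected S) (hcov : sphere 0 R ⊆ cthickening r S) {z₀ : ℂ} (hz₀ : z₀ ∈ S)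
    (hz : ‖z₀‖ < R - r) : ENNReal.ofReal (hlen R r) < μH[1] S := by
  have hR0 : 0 < R := hr.trans hR
  have hD0 : 0 < R - r := by linarith
  have hcov' : ∀ t : ℝ, ∃ s ∈ S, dist (pt R t) s ≤ r := by
    intro t
    have h1 : pt R t ∈ sphere (0 : ℂ) R := by
      rw [mem_sphere_zero_iff_norm, norm_pt hR0.le]
    have h2 := hcov h1
    rw [hc.cthickening_eq_biUnion_closedBall hr.le] at h2
    obtain ⟨s, hs, hds⟩ := mem_iUnion₂.1 h2
    exact ⟨s, hs, hds⟩
  have h1 : ∀ᶠ r' in 𝓝[>] r, ENNReal.ofReal (hlen R r' + pot R ‖z₀‖ r') ≤ μH[1] S := by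
    filter_upwards [Ioo_mem_nhdsGT hR] with r' hr'
    set D := R - r' with hD
    have hD' : 0 < D := by linarith [hr'.2]
    set b := Real.arcsin (D / R) with hb
    have hx0 : 0 < D / R := div_pos hD' hR0
    have hx2 : D / R ≤ 1 / 2 := by
      rw [div_le_div_iff₀ hR0 two_pos]; linarith [hr'.1]
    have hb0 : 0 < b := Real.arcsin_pos.2 hx0
    have hb1 : b ≤ π / 6 := by
      have e1 : Real.arcsin (1 / 2) = π / 6 := by
        rw [← Real.sin_pi_div_six]
        exact Real.arcsin_sin (by linarith [Real.pi_pos]) (by linarith [Real.pi_pos])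
      rw [← e1]
      exact Real.arcsin_le_arcsin hx2
    have hs : Real.sin b = D / R := Real.sin_arcsin (by linarith) (by linarith)
    obtain ⟨B, C, hC⟩ := h b hb0 hb1
    have e1 := hC.scale hD'
    have e2 : D * (1 / Real.sin b) = R := by rw [hs]; field_simp
    have e3 : D * (1 / Real.sin b - 1) = r' := by
      have : D * (1 / Real.sin b - 1) = D * (1 / Real.sin b) - D := by ring
      rw [this, e2]; simp only [hD]; ring
    have e4 : D * (π + 2 * (b + 1 - Real.tan (b / 2))) = hlen R r' := by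
      rw [hlen_scale hD' (by linarith [hr'.1]) hb]
      congr 1; simp only [hD]; ring
    rw [e2, e3, e4] at e1
    have e5 := verif_boundU (verif_of_fsys e1) hR0 (by
      intro z hz'
      have e6 : 1 ≤ ‖(D : ℂ)⁻¹ * z‖ := by
        rw [norm_mul, norm_inv, Complex.norm_of_nonneg hD'.le, inv_mul_eq_div, le_div_iff₀ hD']
        linarith
      have e7 : max 0 (1 - ‖(D : ℂ)⁻¹ * z‖ ^ 2) = 0 := max_eq_left (by nlinarith)
      simp only [GG, e7]
      norm_num) hc hS hr'.1 hcov' hz₀ (by linarith)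
    rw [← pot_eq (b := b) hD' hs z₀]
    exact e5
  have h3 : ContinuousAt (fun r' => hlen R r' + pot R ‖z₀‖ r') r :=
    (continuous_hlen R).continuousAt.add (pot_continuousAt _ hD0)
  have h4 : Tendsto (fun r' => ENNReal.ofReal (hlen R r' + pot R ‖z₀‖ r')) (𝓝[>] r)
      (𝓝 (ENNReal.ofReal (hlen R r + pot R ‖z₀‖ r))) :=
    (ENNReal.continuous_ofReal.tendsto _).comp (h3.tendsto.mono_left nhdsWithin_le_nhds)
  have h5 := le_of_tendsto h4 h1
  have h6 : 0 < pot R ‖z₀‖ r := by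
    unfold pot
    have h7 : ‖z₀‖ / (R - r) < 1 := by rwa [div_lt_one hD0]
    have h8 : 0 ≤ ‖z₀‖ / (R - r) := by positivity
    have h9 : 0 < 1 - (‖z₀‖ / (R - r)) ^ 2 := by nlinarith
    have h10 : 0 < max 0 (1 - (‖z₀‖ / (R - r)) ^ 2) := lt_max_of_lt_right h9
    positivity
  refine lt_of_lt_of_le ?_ h5
  rw [ENNReal.ofReal_lt_ofReal_iff (by linarith [hlen_nonneg hr hR])]
  linarith

end Pool.Agent.W_8c5d11_v22
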