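import Pool.Agent.W_8c5d11_v22.Net

/-!
MP_8c5d11_gt: the lower bound given by a verification function, for all continua in the plane.
-/

open Set Metric MeasureTheory Filter Topology
open scoped Real ENNReal NNReal

namespace Pool.Agent.W_8c5d11_v22

/-- the nearest point of the closed disc of radius `R` -/
noncomputable def ret (R : ℝ) (z : ℂ) : ℂ := if ‖z‖ ≤ R then z else ((R / ‖z‖ : ℝ) : ℂ) * z

theorem ret_of_le {R : ℝ} {z : ℂ} (h : ‖z‖ ≤ R) : ret R z = z := if_pos h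

theorem norm_ret_le {R : ℝ} (hR : 0 ≤ R) (z : ℂ) : ‖ret R z‖ ≤ R := by
  unfold ret
  split_ifs with h
  · exact h
  · have hz : 0 < ‖z‖ := lt_of_le_of_lt hR (not_le.1 h)
    rw [norm_mul, Complex.norm_of_nonneg (by positivity), div_mul_cancel₀ _ hz.ne']

theorem ret_var {R : ℝ} (hR : 0 ≤ R) (z w : ℂ) (hw : ‖w‖ ≤ R) :
    dt (z - ret R z) (w - ret R z) ≤ 0 := by
  by_cases h : ‖z‖ ≤ R
  · rw [ret_of_le h]; simp [dt]
  · have hz : 0 < ‖z‖ := lt_of_le_of_lt hR (not_le.1 h)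
    set k : ℝ := R / ‖z‖ with hk
    have hk0 : 0 ≤ k := by positivity
    have hk1 : k ≤ 1 := by rw [hk, div_le_one hz]; exact (not_le.1 h).le
    have hkz : k * ‖z‖ = R := div_mul_cancel₀ _ hz.ne'
    have hr : ret R z = (k : ℂ) * z := if_neg h
    have e1 : dt (z - ret R z) (w - ret R z) = (1 - k) * (dt z w - k * dt z z) := by
      rw [hr]
      simp only [dt, Complex.sub_re, Complex.sub_im, Complex.re_ofReal_mul, Complex.im_ofReal_mul]
      ring
    have e2 : dt z w ≤ ‖z‖ * R := by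
      have h1 : dt z w ^ 2 ≤ (‖z‖ * ‖w‖) ^ 2 := by
        rw [mul_pow, ← dt_self, ← dt_self]
        unfold dt
        nlinarith [sq_nonneg (z.re * w.im - z.im * w.re)]
      have h2 : dt z w ≤ ‖z‖ * ‖w‖ := (abs_le_of_sq_le_sq' h1 (by positivity)).2
      exact h2.trans (mul_le_mul_of_nonneg_left hw hz.le)
    rw [e1, dt_self]
    have e3 : k * ‖z‖ ^ 2 = R * ‖z‖ := by rw [← hkz]; ring
    rw [e3]
    exact mul_nonpos_of_nonneg_of_nonpos (by linarith) (by linarith)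

theorem dist_ret_le {R : ℝ} (hR : 0 ≤ R) (x y : ℂ) : dist (ret R x) (ret R y) ≤ dist x y := by
  have h1 := ret_var hR x (ret R y) (norm_ret_le hR y)
  have h2 := ret_var hR y (ret R x) (norm_ret_le hR x)
  set u := ret R x
  set v := ret R y
  have h3 : dt (u - v) (u - v) ≤ dt (x - y) (u - v) := by
    simp only [dt, Complex.sub_re, Complex.sub_im] at *
    nlinarith
  have h4 : dt (x - y) (u - v) ^ 2 ≤ dt (x - y) (x - y) * dt (u - v) (u - v) := by
    unfold dt
    nlinarith [sq_nonneg ((x - y).re * (u - v).im - (x - y).im * (u - v).re)]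
  rw [dist_eq_norm, dist_eq_norm]
  rw [dt_self] at h3
  rw [dt_self, dt_self] at h4
  by_contra hcon
  push Not at hcon
  have h5 : 0 < ‖u - v‖ := lt_of_le_of_lt (norm_nonneg _) hcon
  have h6 : (‖u - v‖ ^ 2) ^ 2 ≤ ‖x - y‖ ^ 2 * ‖u - v‖ ^ 2 :=
    (pow_le_pow_left₀ (by positivity) h3 2).trans h4
  have h7 : ‖x - y‖ ^ 2 < ‖u - v‖ ^ 2 := pow_lt_pow_left₀ hcon (norm_nonneg _) two_ne_zero
  have h8 : 0 < ‖u - v‖ ^ 2 := by positivity
  nlinarith

/-- **The bound of a verification function.** -/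
theorem verif_bound {R r H : ℝ} {d : ℝ → ℝ → ℂ → ℝ} (h : Verif R r H d) (hR : 0 < R) {S : Set ℂ}
    (hc : IsCompact S) (hS : IsConnected S) {r₀ : ℝ} (hr : r₀ < r)
    (hcov : ∀ t : ℝ, ∃ s ∈ S, dist (pt R t) s ≤ r₀) : ENNReal.ofReal H ≤ μH[1] S := by
  by_cases hfin : μH[1] S = ⊤
  · rw [hfin]; exact le_top
  have hlip : LipschitzWith 1 (ret R) := LipschitzWith.of_dist_le_mul fun x y => by
    rw [NNReal.coe_one, one_mul]; exact dist_ret_le hR.le x y
  have hle : μH[1] (ret R '' S) ≤ μH[1] S := by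
    have := hlip.hausdorffMeasure_image_le (zero_le_one (α := ℝ)) S
    simpa using this
  have hfin' : μH[1] (ret R '' S) ≠ ⊤ := ne_top_of_le_ne_top hfin hle
  have hcov' : ∀ t : ℝ, ∃ s ∈ ret R '' S, dist (pt R t) s ≤ r₀ := by
    intro t
    obtain ⟨s, hs, hds⟩ := hcov t
    refine ⟨ret R s, mem_image_of_mem _ hs, ?_⟩
    have h1 := dist_ret_le hR.le (pt R t) s
    rw [ret_of_le (norm_pt hR.le t).le] at h1
    exact h1.trans hds
  refine le_trans ?_ hle
  refine ENNReal.le_of_forall_pos_le_add fun ε hε _ => ?_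
  set η : ℝ := min ε ((r - r₀) / 4) with hη
  have hη0 : 0 < η := lt_min hε (by linarith)
  have h1 := net_bound h hR (hc.image hlip.continuous) (hS.image _ hlip.continuous.continuousOn)
    hfin' (by
      rintro _ ⟨s, _, rfl⟩
      exact mem_closedBall_zero_iff.2 (norm_ret_le hR.le s)) hr hcov' hη0
    (by linarith [min_le_right (ε : ℝ) ((r - r₀) / 4)])
  refine h1.trans (add_le_add le_rfl ?_)
  rw [← ENNReal.ofReal_coe_nnreal]
  exact ENNReal.ofReal_le_ofReal (min_le_left _ _)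

/-- The same with neighbourhoods, and a limit for the radius. -/
theorem verif_limit {R r : ℝ} {H : ℝ → ℝ} (hR : 0 < R) (hr0 : 0 ≤ r)
    (hH : ContinuousWithinAt H (Ioi r) r) (hver : ∀ᶠ r' in 𝓝[>] r, ∃ d, Verif R r' (H r') d)
    {S : Set ℂ} (hc : IsCompact S) (hS : IsConnected S) (hcov : sphere 0 R ⊆ cthickening r S) :
    ENNReal.ofReal (H r) ≤ μH[1] S := by
  have hcov' : ∀ t : ℝ, ∃ s ∈ S, dist (pt R t) s ≤ r := by
    intro t
    have h1 : pt R t ∈ sphere (0 : ℂ) R := by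
      rw [mem_sphere_zero_iff_norm, norm_pt hR.le]
    have h2 := hcov h1
    rw [hc.cthickening_eq_biUnion_closedBall hr0] at h2
    obtain ⟨s, hs, hds⟩ := mem_iUnion₂.1 h2
    exact ⟨s, hs, hds⟩
  have h1 : ∀ᶠ r' in 𝓝[>] r, ENNReal.ofReal (H r') ≤ μH[1] S := by
    filter_upwards [hver, self_mem_nhdsWithin] with r' ⟨d, hd⟩ hr'
    exact verif_bound hd hR hc hS hr' hcov'
  have h2 : Tendsto (fun r' => ENNReal.ofReal (H r')) (𝓝[>] r) (𝓝 (ENNReal.ofReal (H r))) :=
    (ENNReal.continuous_ofReal.tendsto _).comp hH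
  exact le_of_tendsto h2 h1

end Pool.Agent.W_8c5d11_v22
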