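import Pool.Agent.W_8c5d11_v22.Ind

/-!
MP_8c5d11_gt: the induction over a tree with marks, with a general length of the edges, and the
oscillation of a function along a path of the tree.
-/

open Set Relation

namespace Pool.Agent.W_8c5d11_v22

variable {V : Type*} [Fintype V] [DecidableEq V] {p : V → ℂ} {ρ : V} {par : V → V} {dep : V → ℕ}

theorem claimU (ds : ℂ → ℂ → ℝ) (hd : IsDepth ρ par dep) (mk : ℕ → V) {N : ℕ}
    (hint : ∀ z, z ≠ ρ → ∀ i j k, i < j → j < k → k < N → Desc ρ par (mk i) z →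
      Desc ρ par (mk k) z → Desc ρ par (mk j) z)
    (D : ℕ → ℕ → ℂ → ℝ) (Y : Set ℂ) (hY : ∀ v, p v ∈ Y)
    (lip : ∀ i j, ∀ y ∈ Y, ∀ y' ∈ Y, i < j → j ≤ N → D i j y ≤ D i j y' + ds y y')
    (dsc : ∀ y ∈ Y, ∀ y' ∈ Y, ds y y' = ds y' y) (ds0 : ∀ y ∈ Y, ∀ y' ∈ Y, 0 ≤ ds y y')
    (split : ∀ i j k, ∀ y ∈ Y, i < j → j < k → k ≤ N → D i k y ≤ D i j y + D j k y)
    (leaf : ∀ k < N, D k (k + 1) (p (mk k)) ≤ 0) (M : ℕ) (hM : ∀ v, dep v ≤ M) :
    ∀ m c, M - dep c = m → ∀ n i j, j - i = n → i < j → j ≤ N →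
      (∀ k, i ≤ k → k < j → Desc ρ par (mk k) c) →
      D i j (p c) ≤ ∑ w ∈ Wset ρ par mk c i j, ds (p w) (p (par w)) := by
  intro m
  induction m using Nat.strong_induction_on with
  | _ m ihm =>
  intro c hcm n
  induction n using Nat.strong_induction_on with
  | _ n ihn =>
  intro i j hn hij hjN hdesc
  by_cases hic : mk i = c
  · have hl : D i (i + 1) (p c) ≤ 0 := by
      rw [← hic]; exact leaf i (by omega)
    rcases Nat.eq_or_lt_of_le (Nat.succ_le_of_lt hij) with h1 | h1
    · have h1' : i + 1 = j := h1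
      rw [← h1']
      exact hl.trans (Finset.sum_nonneg fun w _ => ds0 _ (hY w) _ (hY (par w)))
    · have h1' : i + 1 < j := h1
      have h2 := split i (i + 1) j (p c) (hY c) (by omega) h1' hjN
      have h3 := ihn (j - (i + 1)) (by omega) (i + 1) j rfl h1' hjN
        fun k hk1 hk2 => hdesc k (by omega) hk2
      have h4 : Wset ρ par mk c (i + 1) j ⊆ Wset ρ par mk c i j := by
        intro w hw
        obtain ⟨a1, a2, a3, k, a4, a5, a6⟩ := mem_Wset.1 hw
        exact mem_Wset.2 ⟨a1, a2, a3, k, by omega, a5, a6⟩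
      have h5 := Finset.sum_le_sum_of_subset_of_nonneg (f := fun w => ds (p w) (p (par w))) h4
        fun w _ _ => ds0 _ (hY w) _ (hY (par w))
      linarith
  · rcases ReflTransGen.cases_tail (hdesc i le_rfl hij) with h | ⟨z, h1, h2, h3⟩
    · exact absurd h.symm hic
    have hdz := hd z h2
    rw [h3] at hdz
    have hMz := hM z
    have hzc : z ≠ c := fun h => by rw [h] at hdz; omega
    have hDz : Desc ρ par z c := ReflTransGen.single ⟨h2, h3⟩
    have step : ∀ k, i < k → k ≤ j → (∀ l, i ≤ l → l < k → Desc ρ par (mk l) z) →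
        D i k (p c) ≤ ∑ w ∈ insert z (Wset ρ par mk z i k), ds (p w) (p (par w)) := by
      intro k hik hkj hl
      have g1 := ihm (M - dep z) (by omega) z rfl (k - i) i k rfl hik (by omega) hl
      have g2 := lip i k (p c) (hY c) (p z) (hY z) hik (by omega)
      have g3 : z ∉ Wset ρ par mk z i k := fun h => (mem_Wset.1 h).2.1 rfl
      rw [Finset.sum_insert g3, h3, dsc (p z) (hY z) (p c) (hY c)]
      linarith
    by_cases hall : ∀ l, i ≤ l → l < j → Desc ρ par (mk l) z
    · refine (step j hij le_rfl hall).trans ?_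
      refine Finset.sum_le_sum_of_subset_of_nonneg (fun w hw => ?_) fun w _ _ => ds0 _ (hY w) _ (hY (par w))
      rcases Finset.mem_insert.1 hw with rfl | hw
      · exact mem_Wset.2 ⟨h2, hzc, hDz, i, le_rfl, hij, hall i le_rfl hij⟩
      · obtain ⟨a1, a2, a3, k, a4, a5, a6⟩ := mem_Wset.1 hw
        refine mem_Wset.2 ⟨a1, ?_, a3.trans hDz, k, a4, a5, a6⟩
        intro h
        rw [h] at a3
        have := hd.dep_le a3
        omega
    · push Not at hall
      classical
      have hex : ∃ l, i ≤ l ∧ l < j ∧ ¬ Desc ρ par (mk l) z := hall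
      set k := Nat.find hex with hk
      obtain ⟨k1, k2, k3⟩ := Nat.find_spec hex
      have hik : i < k := by
        rcases Nat.eq_or_lt_of_le k1 with h | h
        · exact absurd (by rw [← h]; exact h1) k3
        · exact h
      have hlow : ∀ l, i ≤ l → l < k → Desc ρ par (mk l) z := by
        intro l hl1 hl2
        by_contra hcon
        exact Nat.find_min hex hl2 ⟨hl1, by omega, hcon⟩
      have g1 := step k hik k2.le hlow
      have g2 := split i k j (p c) (hY c) hik k2 hjN
      have g3 := ihn (j - k) (by omega) k j rfl k2 hjN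
        fun l hl1 hl2 => hdesc l (by omega) hl2
      -- no mark of `[k, j)` below `z`
      have hno : ∀ l, k ≤ l → l < j → ¬ Desc ρ par (mk l) z := by
        intro l hl1 hl2 hl3
        rcases Nat.eq_or_lt_of_le hl1 with h | h
        · rw [← h] at hl3; exact k3 hl3
        · exact k3 (hint z h2 i k l hik h (by omega) h1 hl3)
      have hdisj : Disjoint (insert z (Wset ρ par mk z i k)) (Wset ρ par mk c k j) := by
        rw [Finset.disjoint_left]
        intro w hw hw'
        obtain ⟨_, _, _, l, a4, a5, a6⟩ := mem_Wset.1 hw'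
        rcases Finset.mem_insert.1 hw with rfl | hw
        · exact hno l a4 a5 a6
        · obtain ⟨_, _, a3, _⟩ := mem_Wset.1 hw
          exact hno l a4 a5 (a6.trans a3)
      have hsub : insert z (Wset ρ par mk z i k) ∪ Wset ρ par mk c k j ⊆ Wset ρ par mk c i j := by
        intro w hw
        rcases Finset.mem_union.1 hw with hw | hw
        · rcases Finset.mem_insert.1 hw with rfl | hw
          · exact mem_Wset.2 ⟨h2, hzc, hDz, i, le_rfl, hij, h1⟩
          · obtain ⟨a1, a2, a3, l, a4, a5, a6⟩ := mem_Wset.1 hw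
            refine mem_Wset.2 ⟨a1, ?_, a3.trans hDz, l, a4, by omega, a6⟩
            intro h
            rw [h] at a3
            have := hd.dep_le a3
            omega
        · obtain ⟨a1, a2, a3, l, a4, a5, a6⟩ := mem_Wset.1 hw
          exact mem_Wset.2 ⟨a1, a2, a3, l, by omega, a5, a6⟩
      have h5 := Finset.sum_le_sum_of_subset_of_nonneg (f := fun w => ds (p w) (p (par w))) hsub
        fun w _ _ => ds0 _ (hY w) _ (hY (par w))
      rw [Finset.sum_union hdisj] at h5
      linarith

/-- **The induction.** -/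
theorem tree_boundU (ds : ℂ → ℂ → ℝ) (hd : IsDepth ρ par dep) (mk : ℕ → V) {N : ℕ} (hN : 0 < N)
    (hint : ∀ z, z ≠ ρ → ∀ i j k, i < j → j < k → k < N → Desc ρ par (mk i) z →
      Desc ρ par (mk k) z → Desc ρ par (mk j) z)
    (D : ℕ → ℕ → ℂ → ℝ) (Y : Set ℂ) (hY : ∀ v, p v ∈ Y)
    (lip : ∀ i j, ∀ y ∈ Y, ∀ y' ∈ Y, i < j → j ≤ N → D i j y ≤ D i j y' + ds y y')
    (dsc : ∀ y ∈ Y, ∀ y' ∈ Y, ds y y' = ds y' y) (ds0 : ∀ y ∈ Y, ∀ y' ∈ Y, 0 ≤ ds y y')
    (split : ∀ i j k, ∀ y ∈ Y, i < j → j < k → k ≤ N → D i k y ≤ D i j y + D j k y)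
    (leaf : ∀ k < N, D k (k + 1) (p (mk k)) ≤ 0) :
    D 0 N (p ρ) ≤ ∑ v ∈ Finset.univ.erase ρ, ds (p v) (p (par v)) := by
  refine (claimU ds hd mk hint D Y hY lip dsc ds0 split leaf (∑ v, dep v)
    (fun v => Finset.single_le_sum (fun _ _ => Nat.zero_le _) (Finset.mem_univ v)) _ ρ rfl _ 0 N
    rfl hN le_rfl fun k _ _ => hd.desc_root _).trans ?_
  refine Finset.sum_le_sum_of_subset_of_nonneg (fun w hw => ?_) fun w _ _ => ds0 _ (hY w) _ (hY (par w))
  exact Finset.mem_erase.2 ⟨(mem_Wset.1 hw).1, Finset.mem_univ _⟩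

/-- the oscillation of a function along the path to the root -/
theorem osc_le (hd : IsDepth ρ par dep) (G : V → ℝ) (v : V) :
    G v - G ρ ≤ ∑ w ∈ Finset.univ.erase ρ, |G w - G (par w)| := by
  classical
  have key : ∀ n v, dep v = n →
      G v - G ρ ≤ ∑ w ∈ (Finset.univ.filter fun w => w ≠ ρ ∧ Desc ρ par v w),
        |G w - G (par w)| := by
    intro n
    induction n using Nat.strong_induction_on with
    | _ n ih =>
    intro v hv
    by_cases h : v = ρ
    · rw [h, sub_self]
      exact Finset.sum_nonneg fun _ _ => abs_nonneg _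
    · have h1 := hd v h
      have h2 := ih (dep (par v)) (by omega) (par v) rfl
      have h3 : v ∉ (Finset.univ.filter fun w => w ≠ ρ ∧ Desc ρ par (par v) w) := by
        intro h4
        have h5 := (Finset.mem_filter.1 h4).2.2
        have := hd.dep_le h5
        omega
      have h4 : insert v (Finset.univ.filter fun w => w ≠ ρ ∧ Desc ρ par (par v) w) ⊆
          (Finset.univ.filter fun w => w ≠ ρ ∧ Desc ρ par v w) := by
        intro w hw
        rcases Finset.mem_insert.1 hw with rfl | hw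
        · exact Finset.mem_filter.2 ⟨Finset.mem_univ _, h, ReflTransGen.refl⟩
        · obtain ⟨_, h5, h6⟩ := Finset.mem_filter.1 hw
          exact Finset.mem_filter.2 ⟨Finset.mem_univ _, h5, ReflTransGen.head ⟨h, rfl⟩ h6⟩
      have h5 := Finset.sum_le_sum_of_subset_of_nonneg (f := fun w => |G w - G (par w)|) h4
        fun _ _ _ => abs_nonneg _
      rw [Finset.sum_insert h3] at h5
      have h6 := le_abs_self (G v - G (par v))
      linarith
  refine (key _ v rfl).trans ?_
  refine Finset.sum_le_sum_of_subset_of_nonneg (fun w hw => ?_) fun _ _ _ => abs_nonneg _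
  exact Finset.mem_erase.2 ⟨(Finset.mem_filter.1 hw).2.1, Finset.mem_univ _⟩

end Pool.Agent.W_8c5d11_v22
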