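import Pool.Agent.W_8c5d11_v22.Ver
import Pool.Agent.W_8c5d11_v22.IndU

/-!
MP_8c5d11_gt: verification functions with a potential.
-/

open Set Metric
open scoped Real

namespace Pool.Agent.W_8c5d11_v22

/-- A verification function with a potential `G`, for the lower bound `H` on the length of
connected sets that come within distance `r` of each point of the circle of radius `R`: `d a b y` is a lower bound for the length of a
tree which contains `y` and covers the directions of `[a, b]`, `b - a < π`. -/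
structure VerifU (R r H : ℝ) (G : ℂ → ℝ) (d : ℝ → ℝ → ℂ → ℝ) : Prop where
  lip : ∀ a b y y', a < b → b < a + π → ‖y‖ ≤ R → ‖y'‖ ≤ R →
    d a b y ≤ d a b y' + (dist y y' - |G y - G y'|)
  pot : ∀ y y', |G y - G y'| ≤ dist y y'
  per : ∀ a b y, d (a + 2 * π) (b + 2 * π) y = d a b y
  leaf : ∀ a b y, a < b → b < a + π → ‖y‖ ≤ R → (∀ t ∈ Icc a b, dist (pt R t) y ≤ r) →
    d a b y ≤ 0
  split : ∀ a c b y, a < c → c < b → b < a + π → ‖y‖ ≤ R → d a b y ≤ d a c y + d c b y
  top : ∀ a b c y, a < b → b < c → c < a + 2 * π → b < a + π → c < b + π → a + π < c → ‖y‖ ≤ R →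
    H ≤ d a b y + d b c y + d c (a + 2 * π) y

theorem VerifU.dd_lip {R r H : ℝ} {G : ℂ → ℝ} {d : ℝ → ℝ → ℂ → ℝ} (h : VerifU R r H G d)
    {a b : ℝ} {y y' : ℂ}
    (hab : a < b) (hne : b ≠ a + π) (hy : ‖y‖ ≤ R) (hy' : ‖y'‖ ≤ R) :
    dd H d a b y ≤ dd H d a b y' + (dist y y' - |G y - G y'|) := by
  unfold dd
  split_ifs with h1 h2
  · exact h.lip a b y y' hab h1 hy hy'
  · have h3 : a + π < b := lt_of_le_of_ne (not_lt.1 h1) hne.symm
    have := h.lip b (a + 2 * π) y' y h2 (by linarith) hy' hy
    rw [dist_comm, abs_sub_comm] at this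
    linarith
  · linarith [h.pot y y']

theorem VerifU.dd_split {R r H : ℝ} {G : ℂ → ℝ} {d : ℝ → ℝ → ℂ → ℝ} (h : VerifU R r H G d)
    {a c b : ℝ} {y : ℂ}
    (hac : a < c) (hcb : c < b) (hb : b ≤ a + 2 * π) (n1 : b ≠ a + π) (n2 : c ≠ a + π)
    (n3 : b ≠ c + π) (hy : ‖y‖ ≤ R) : dd H d a b y ≤ dd H d a c y + dd H d c b y := by
  have hpi := Real.pi_pos
  unfold dd
  by_cases h1 : b < a + π
  · rw [if_pos h1, if_pos (by linarith), if_pos (by linarith)]
    exact h.split a c b y hac hcb h1 hy
  have h1' : a + π < b := lt_of_le_of_ne (not_lt.1 h1) n1.symm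
  rw [if_neg h1]
  by_cases h2 : c < a + π
  · rw [if_pos h2]
    by_cases h3 : b < c + π
    · rw [if_pos h3]
      by_cases h4 : b < a + 2 * π
      · rw [if_pos h4]
        have := h.top a c b y hac hcb h4 h2 h3 h1' hy
        linarith
      · exfalso; linarith
    · have h3' : c + π < b := lt_of_le_of_ne (not_lt.1 h3) n3.symm
      rw [if_neg h3, if_pos (by linarith : b < c + 2 * π)]
      by_cases h4 : b < a + 2 * π
      · rw [if_pos h4]
        have h5 := h.split b (a + 2 * π) (c + 2 * π) y h4 (by linarith) (by linarith) hy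
        rw [h.per] at h5
        linarith
      · have h5 : b = a + 2 * π := le_antisymm hb (not_lt.1 h4)
        rw [if_neg h4, h5, h.per]
        linarith
  · have h2' : a + π < c := lt_of_le_of_ne (not_lt.1 h2) n2.symm
    rw [if_neg h2, if_pos (by linarith : c < a + 2 * π), if_pos (by linarith : b < c + π)]
    by_cases h4 : b < a + 2 * π
    · rw [if_pos h4]
      have h5 := h.split c b (a + 2 * π) y hcb h4 (by linarith) hy
      linarith
    · have h5 : b = a + 2 * π := le_antisymm hb (not_lt.1 h4)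
      rw [if_neg h4, h5]
      linarith


end Pool.Agent.W_8c5d11_v22
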