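import Pool.Agent.W_8c5d11_v22.Bound
import Pool.Agent.W_8c5d11_v22.NetU

/-!
MP_8c5d11_gt: the lower bound with a potential, for all continua in the plane; systems of function
certificates.
-/

open Set Metric MeasureTheory Filter Topology
open scoped Real ENNReal NNReal

namespace Pool.Agent.W_8c5d11_v22

/-- **The bound of a verification function with a potential.** -/
theorem verif_boundU {R r H : ℝ} {G : ℂ → ℝ} {d : ℝ → ℝ → ℂ → ℝ} (h : VerifU R r H G d)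
    (hR : 0 < R) (hG0 : ∀ z, R - r ≤ ‖z‖ → G z = 0) {S : Set ℂ}
    (hc : IsCompact S) (hS : IsConnected S) {r₀ : ℝ} (hr : r₀ < r)
    (hcov : ∀ t : ℝ, ∃ s ∈ S, dist (pt R t) s ≤ r₀) {z₀ : ℂ} (hz₀ : z₀ ∈ S) (hz₀R : ‖z₀‖ ≤ R) :
    ENNReal.ofReal (H + G z₀) ≤ μH[1] S := by
  by_cases hfin : μH[1] S = ⊤
  · rw [hfin]; exact le_top
  have hlip : LipschitzWith 1 (ret R) := LipschitzWith.of_dist_le_mul fun x y => by
    rw [NNReal.coe_one, one_mul]; exact dist_ret_le hR.le x y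
  have hle : μH[1] (ret R '' S) ≤ μH[1] S := by
    have := hlip.hausdorffMeasure_image_le (zero_le_one (α := ℝ)) S
    simpa using this
  have hfin' : μH[1] (ret R '' S) ≠ ⊤ := ne_top_of_le_ne_top hfin hle
  have hcov' : ∀ t : ℝ, ∃ s ∈ ret R '' S, dist (pt R t) s ≤ r₀ := by
    intro t
    obtain ⟨s, hs, hds⟩ := hcov t
    refine ⟨ret R s, mem_image_of_mem _ hs, ?_⟩
    have h1 := dist_ret_le hR.le (pt R t) s
    rw [ret_of_le (norm_pt hR.le t).le] at h1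
    exact h1.trans hds
  have hz' : z₀ ∈ ret R '' S := ⟨z₀, hz₀, ret_of_le hz₀R⟩
  refine le_trans ?_ hle
  refine ENNReal.le_of_forall_pos_le_add fun ε hε _ => ?_
  set η : ℝ := min (ε / 3) ((r - r₀) / 4) with hη
  have hε' : (0 : ℝ) < ε := hε
  have hη0 : 0 < η := lt_min (by positivity) (by linarith)
  have h1 := net_boundU h hR hG0 (hc.image hlip.continuous)
    (hS.image _ hlip.continuous.continuousOn) hfin' (by
      rintro _ ⟨s, _, rfl⟩
      exact mem_closedBall_zero_iff.2 (norm_ret_le hR.le s)) hr hcov' hη0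
    (by linarith [min_le_right ((ε : ℝ) / 3) ((r - r₀) / 4)]) hz'
  have h2 : ENNReal.ofReal (H + G z₀) ≤
      ENNReal.ofReal (H + G z₀ - 2 * η) + ENNReal.ofReal (2 * η) := by
    refine le_trans (ENNReal.ofReal_le_ofReal ?_) ENNReal.ofReal_add_le
    linarith
  refine h2.trans ((add_le_add h1 le_rfl).trans ?_)
  rw [add_assoc, ← ENNReal.ofReal_add hη0.le (by linarith)]
  refine add_le_add le_rfl ?_
  rw [← ENNReal.ofReal_coe_nnreal]
  refine ENNReal.ofReal_le_ofReal ?_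
  linarith [min_le_left ((ε : ℝ) / 3) ((r - r₀) / 4)]

/-- A system of function certificates: `C a b f` certifies that a tree which contains `y` and covers
the directions of `[a, b]` has length at least `f y`. -/
structure FSys (R r H B : ℝ) (G : ℂ → ℝ) (C : ℝ → ℝ → (ℂ → ℝ) → Prop) : Prop where
  zero : ∀ a b, C a b fun _ => 0
  bdd : ∀ a b f, C a b f → ∀ y, ‖y‖ ≤ R → f y ≤ B
  lip : ∀ a b f, C a b f → ∀ y y', ‖y‖ ≤ R → ‖y'‖ ≤ R →
    f y ≤ f y' + (dist y y' - |G y - G y'|)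
  per : ∀ a b f, C (a + 2 * π) (b + 2 * π) f ↔ C a b f
  leaf : ∀ a b f y, a < b → b < a + π → ‖y‖ ≤ R → (∀ t ∈ Icc a b, dist (pt R t) y ≤ r) →
    C a b f → f y ≤ 0
  split : ∀ a c b f y, a < c → c < b → b < a + π → ‖y‖ ≤ R → C a b f →
    ∃ f' f'', C a c f' ∧ C c b f'' ∧ f y ≤ f' y + f'' y
  top : ∀ a b c y, a < b → b < c → c < a + 2 * π → b < a + π → c < b + π → a + π < c → ‖y‖ ≤ R →
    ∃ f₁ f₂ f₃, C a b f₁ ∧ C b c f₂ ∧ C c (a + 2 * π) f₃ ∧ H ≤ f₁ y + f₂ y + f₃ y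
  pot : ∀ y y', |G y - G y'| ≤ dist y y'

/-- the values of the certificates at `y` -/
def fvals (C : ℝ → ℝ → (ℂ → ℝ) → Prop) (a b : ℝ) (y : ℂ) : Set ℝ := {x | ∃ f, C a b f ∧ x = f y}

theorem FSys.nonempty {R r H B : ℝ} {G : ℂ → ℝ} {C : ℝ → ℝ → (ℂ → ℝ) → Prop}
    (h : FSys R r H B G C) (a b : ℝ) (y : ℂ) : (fvals C a b y).Nonempty := ⟨_, _, h.zero a b, rfl⟩

theorem FSys.le_sSup {R r H B : ℝ} {G : ℂ → ℝ} {C : ℝ → ℝ → (ℂ → ℝ) → Prop}
    (h : FSys R r H B G C) {a b : ℝ} {f : ℂ → ℝ} (hC : C a b f) {y : ℂ} (hy : ‖y‖ ≤ R) :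
    f y ≤ sSup (fvals C a b y) := by
  refine le_csSup ⟨B, ?_⟩ ⟨f, hC, rfl⟩
  rintro _ ⟨g, hg, rfl⟩
  exact h.bdd a b g hg y hy

/-- **A system of function certificates gives a verification function with a potential.** -/
theorem verif_of_fsys {R r H B : ℝ} {G : ℂ → ℝ} {C : ℝ → ℝ → (ℂ → ℝ) → Prop}
    (h : FSys R r H B G C) : VerifU R r H G fun a b y => sSup (fvals C a b y) where
  lip a b y y' _ _ hy hy' := by
    refine csSup_le (h.nonempty a b y) ?_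
    rintro _ ⟨f, hC, rfl⟩
    have h1 := h.le_sSup hC hy'
    have h2 := h.lip a b f hC y y' hy hy'
    linarith
  pot := h.pot
  per a b y := by
    have : fvals C (a + 2 * π) (b + 2 * π) y = fvals C a b y := by
      simp only [fvals, h.per]
    simp only [this]
  leaf a b y h1 h2 h3 h4 := by
    refine csSup_le (h.nonempty a b y) ?_
    rintro _ ⟨f, hC, rfl⟩
    exact h.leaf a b f y h1 h2 h3 h4 hC
  split a c b y h1 h2 h3 hy := by
    refine csSup_le (h.nonempty a b y) ?_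
    rintro _ ⟨f, hC, rfl⟩
    obtain ⟨f', f'', c1, c2, hv⟩ := h.split a c b f y h1 h2 h3 hy hC
    exact hv.trans (add_le_add (h.le_sSup c1 hy) (h.le_sSup c2 hy))
  top a b c y h1 h2 h3 h4 h5 h6 hy := by
    obtain ⟨f₁, f₂, f₃, c1, c2, c3, hv⟩ := h.top a b c y h1 h2 h3 h4 h5 h6 hy
    exact hv.trans (add_le_add (add_le_add (h.le_sSup c1 hy) (h.le_sSup c2 hy))
      (h.le_sSup c3 hy))

/-- scaled function certificates -/
def scaleF (D : ℝ) (C : ℝ → ℝ → (ℂ → ℝ) → Prop) (a b : ℝ) (f : ℂ → ℝ) : Prop :=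
  ∃ f', C a b f' ∧ f = fun y => D * f' ((D : ℂ)⁻¹ * y)

theorem FSys.scale {R r H B : ℝ} {G : ℂ → ℝ} {C : ℝ → ℝ → (ℂ → ℝ) → Prop}
    (h : FSys R r H B G C) {D : ℝ} (hD : 0 < D) :
    FSys (D * R) (D * r) (D * H) (D * B) (fun y => D * G ((D : ℂ)⁻¹ * y)) (scaleF D C) := by
  have hD' : (D : ℂ) ≠ 0 := Complex.ofReal_ne_zero.2 hD.ne'
  have hn : ‖(D : ℂ)⁻¹‖ = D⁻¹ := by rw [norm_inv, Complex.norm_of_nonneg hD.le]
  have hno : ∀ y : ℂ, ‖y‖ ≤ D * R → ‖(D : ℂ)⁻¹ * y‖ ≤ R := by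
    intro y hy
    rwa [norm_mul, hn, inv_mul_le_iff₀ hD]
  have hdi : ∀ y y' : ℂ, D * dist ((D : ℂ)⁻¹ * y) ((D : ℂ)⁻¹ * y') = dist y y' := by
    intro y y'
    rw [dist_eq_norm, ← mul_sub, norm_mul, hn, ← dist_eq_norm, mul_inv_cancel_left₀ hD.ne']
  have hab : ∀ u v : ℝ, |D * u - D * v| = D * |u - v| := by
    intro u v
    rw [← mul_sub, abs_mul, abs_of_pos hD]
  refine ⟨?_, ?_, ?_, ?_, ?_, ?_, ?_, ?_⟩
  · intro a b
    exact ⟨_, h.zero a b, by simp⟩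
  · rintro a b _ ⟨f, hC, rfl⟩ y hy
    exact mul_le_mul_of_nonneg_left (h.bdd a b f hC _ (hno y hy)) hD.le
  · rintro a b _ ⟨f, hC, rfl⟩ y y' hy hy'
    have h1 := mul_le_mul_of_nonneg_left (h.lip a b f hC _ _ (hno y hy) (hno y' hy')) hD.le
    rw [mul_add, mul_sub, hdi, ← hab] at h1
    exact h1
  · intro a b f
    unfold scaleF
    simp only [h.per]
  · rintro a b _ y hab' hb hy hcov ⟨f, hC, rfl⟩
    have h1 := h.leaf a b f ((D : ℂ)⁻¹ * y) hab' hb (hno y hy) (fun t ht => ?_) hC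
    · exact mul_nonpos_of_nonneg_of_nonpos hD.le h1
    · have h2 := hcov t ht
      have e : pt R t = (D : ℂ)⁻¹ * pt (D * R) t := by
        simp only [pt]; push_cast; field_simp
      rw [← hdi, ← e] at h2
      exact le_of_mul_le_mul_left h2 hD
  · rintro a c b _ y hac hcb hb hy ⟨f, hC, rfl⟩
    obtain ⟨f', f'', c1, c2, hv⟩ := h.split a c b f _ hac hcb hb (hno y hy) hC
    refine ⟨_, _, ⟨f', c1, rfl⟩, ⟨f'', c2, rfl⟩, ?_⟩
    rw [← mul_add]
    exact mul_le_mul_of_nonneg_left hv hD.le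
  · intro a b c y h1 h2 h3 h4 h5 h6 hy
    obtain ⟨f₁, f₂, f₃, c1, c2, c3, hv⟩ := h.top a b c _ h1 h2 h3 h4 h5 h6 (hno y hy)
    refine ⟨_, _, _, ⟨f₁, c1, rfl⟩, ⟨f₂, c2, rfl⟩, ⟨f₃, c3, rfl⟩, ?_⟩
    rw [← mul_add, ← mul_add]
    exact mul_le_mul_of_nonneg_left hv hD.le
  · intro y y'
    rw [hab, ← hdi]
    exact mul_le_mul_of_nonneg_left (h.pot _ _) hD.le

end Pool.Agent.W_8c5d11_v22
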