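import Pool.Agent.W_8c5d11_v22.Bound

/-!
MP_8c5d11_gt: verification functions from systems of certificates.
-/

open Set Metric
open scoped Real

namespace Pool.Agent.W_8c5d11_v22

/-- A system of certificates: `C a b w v` certifies that a tree which contains `y` and covers the
directions of `[a, b]` has length at least `v - w · y`. -/
structure CertSys (R r H B : ℝ) (C : ℝ → ℝ → ℂ → ℝ → Prop) : Prop where
  zero : ∀ a b, C a b 0 0
  bdd : ∀ a b w v, C a b w v → v ≤ B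
  norm : ∀ a b w v, C a b w v → ‖w‖ ≤ 1
  per : ∀ a b w v, C (a + 2 * π) (b + 2 * π) w v ↔ C a b w v
  leaf : ∀ a b w v y, a < b → b < a + π → ‖y‖ ≤ R → (∀ t ∈ Icc a b, dist (pt R t) y ≤ r) →
    C a b w v → v ≤ dt w y
  split : ∀ a c b w v, a < c → c < b → b < a + π → C a b w v →
    ∃ w' v' w'' v'', C a c w' v' ∧ C c b w'' v'' ∧ w' + w'' = w ∧ v ≤ v' + v''
  top : ∀ a b c, a < b → b < c → c < a + 2 * π → b < a + π → c < b + π → a + π < c →
    ∃ w₁ v₁ w₂ v₂ w₃ v₃, C a b w₁ v₁ ∧ C b c w₂ v₂ ∧ C c (a + 2 * π) w₃ v₃ ∧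
      w₁ + w₂ + w₃ = 0 ∧ H ≤ v₁ + v₂ + v₃

/-- the values of the certificates at `y` -/
def vals (C : ℝ → ℝ → ℂ → ℝ → Prop) (a b : ℝ) (y : ℂ) : Set ℝ :=
  {x | ∃ w v, C a b w v ∧ x = v - dt w y}

theorem abs_dt_le (w y : ℂ) : |dt w y| ≤ ‖w‖ * ‖y‖ := by
  have h1 : dt w y ^ 2 ≤ (‖w‖ * ‖y‖) ^ 2 := by
    rw [mul_pow, ← dt_self, ← dt_self]
    unfold dt
    nlinarith [sq_nonneg (w.re * y.im - w.im * y.re)]
  exact abs_le_of_sq_le_sq h1 (by positivity)

theorem dt_add_left (w w' y : ℂ) : dt (w + w') y = dt w y + dt w' y := by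
  simp only [dt, Complex.add_re, Complex.add_im]; ring

theorem dt_sub_right (w y y' : ℂ) : dt w y - dt w y' = dt w (y - y') := by
  simp only [dt, Complex.sub_re, Complex.sub_im]; ring

variable {R r H B : ℝ} {C : ℝ → ℝ → ℂ → ℝ → Prop}

theorem CertSys.nonempty (h : CertSys R r H B C) (a b : ℝ) (y : ℂ) : (vals C a b y).Nonempty :=
  ⟨_, 0, 0, h.zero a b, rfl⟩

theorem CertSys.bddAbove (h : CertSys R r H B C) (a b : ℝ) (y : ℂ) : BddAbove (vals C a b y) := by
  refine ⟨B + ‖y‖, ?_⟩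
  rintro _ ⟨w, v, hC, rfl⟩
  have h1 := h.bdd a b w v hC
  have h2 := abs_le.1 (abs_dt_le w y)
  have h3 : ‖w‖ * ‖y‖ ≤ 1 * ‖y‖ :=
    mul_le_mul_of_nonneg_right (h.norm a b w v hC) (norm_nonneg _)
  linarith [h2.1]

theorem CertSys.le_sSup (h : CertSys R r H B C) {a b : ℝ} {w : ℂ} {v : ℝ} (hC : C a b w v) (y : ℂ) :
    v - dt w y ≤ sSup (vals C a b y) := le_csSup (h.bddAbove a b y) ⟨w, v, hC, rfl⟩

/-- **A system of certificates gives a verification function.** -/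
theorem verif_of_cert (h : CertSys R r H B C) : Verif R r H fun a b y => sSup (vals C a b y) where
  lip a b y y' _ _ _ _ := by
    refine csSup_le (h.nonempty a b y) ?_
    rintro _ ⟨w, v, hC, rfl⟩
    have h1 := h.le_sSup hC y'
    have h2 := abs_le.1 (abs_dt_le w (y' - y))
    have h3 : ‖w‖ * ‖y' - y‖ ≤ 1 * ‖y' - y‖ :=
      mul_le_mul_of_nonneg_right (h.norm a b w v hC) (norm_nonneg _)
    have h4 := dt_sub_right w y' y
    rw [dist_comm, dist_eq_norm]
    linarith [h2.2]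
  per a b y := by
    have : vals C (a + 2 * π) (b + 2 * π) y = vals C a b y := by
      ext x
      simp only [vals, mem_setOf_eq, h.per]
    simp only [this]
  leaf a b y h1 h2 h3 h4 := by
    refine csSup_le (h.nonempty a b y) ?_
    rintro _ ⟨w, v, hC, rfl⟩
    linarith [h.leaf a b w v y h1 h2 h3 h4 hC]
  split a c b y h1 h2 h3 _ := by
    refine csSup_le (h.nonempty a b y) ?_
    rintro _ ⟨w, v, hC, rfl⟩
    obtain ⟨w', v', w'', v'', c1, c2, hw, hv⟩ := h.split a c b w v h1 h2 h3 hC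
    have e1 := h.le_sSup c1 y
    have e2 := h.le_sSup c2 y
    have e3 := dt_add_left w' w'' y
    rw [hw] at e3
    linarith
  top a b c y h1 h2 h3 h4 h5 h6 _ := by
    obtain ⟨w₁, v₁, w₂, v₂, w₃, v₃, c1, c2, c3, hw, hv⟩ := h.top a b c h1 h2 h3 h4 h5 h6
    have e1 := h.le_sSup c1 y
    have e2 := h.le_sSup c2 y
    have e3 := h.le_sSup c3 y
    have e4 := dt_add_left (w₁ + w₂) w₃ y
    have e5 := dt_add_left w₁ w₂ y
    have e6 : dt (0 : ℂ) y = 0 := by simp [dt]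
    rw [hw, e6] at e4
    linarith

end Pool.Agent.W_8c5d11_v22
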