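import Pool.Agent.W_bb4b37_h53.BrouwerA

/-!
MP_8c5d11_gt: two connected sets in a disc which join interleaved points of the circle meet.
-/

open Set

namespace Pool.Agent.W_8c5d11_v22

/-- cross product of plane vectors -/
def cr (u v : ℂ) : ℝ := u.re * v.im - u.im * v.re

/-- dot product of plane vectors -/
def dt (u v : ℂ) : ℝ := u.re * v.re + u.im * v.im

/-- Consequence of the fixed point theorem of Brouwer: a continuous plane vector field without zeros
on the square is outward radial at some point of the boundary. -/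
theorem radial_boundary (φ₁ φ₂ : ℝ → ℝ → ℝ)
    (h₁ : ContinuousOn (fun x : ℝ × ℝ => φ₁ x.1 x.2) (Icc (-1) 1 ×ˢ Icc (-1) 1))
    (h₂ : ContinuousOn (fun x : ℝ × ℝ => φ₂ x.1 x.2) (Icc (-1) 1 ×ˢ Icc (-1) 1))
    (h0 : ∀ s ∈ Icc (-1 : ℝ) 1, ∀ t ∈ Icc (-1 : ℝ) 1, φ₁ s t ≠ 0 ∨ φ₂ s t ≠ 0) :
    ∃ s ∈ Icc (-1 : ℝ) 1, ∃ t ∈ Icc (-1 : ℝ) 1, ∃ N : ℝ, 0 < N ∧ φ₁ s t = N * s ∧
      φ₂ s t = N * t ∧ (|s| = 1 ∨ |t| = 1) := by
  set N : (Fin 2 → ℝ) → ℝ := fun x => max |φ₁ (x 0) (x 1)| |φ₂ (x 0) (x 1)| with hN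
  have hmaps : MapsTo (fun x : Fin 2 → ℝ => ((x 0, x 1) : ℝ × ℝ))
      {x : Fin 2 → ℝ | ∀ i, x i ∈ Icc (-1 : ℝ) 1} (Icc (-1) 1 ×ˢ Icc (-1) 1) :=
    fun x hx => ⟨hx 0, hx 1⟩
  have hc : ContinuousOn (fun x : Fin 2 → ℝ => ((x 0, x 1) : ℝ × ℝ))
      {x : Fin 2 → ℝ | ∀ i, x i ∈ Icc (-1 : ℝ) 1} := by fun_prop
  have c1 : ContinuousOn (fun x : Fin 2 → ℝ => φ₁ (x 0) (x 1))
      {x : Fin 2 → ℝ | ∀ i, x i ∈ Icc (-1 : ℝ) 1} := h₁.comp hc hmaps
  have c2 : ContinuousOn (fun x : Fin 2 → ℝ => φ₂ (x 0) (x 1))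
      {x : Fin 2 → ℝ | ∀ i, x i ∈ Icc (-1 : ℝ) 1} := h₂.comp hc hmaps
  have cN : ContinuousOn N {x : Fin 2 → ℝ | ∀ i, x i ∈ Icc (-1 : ℝ) 1} := c1.abs.sup c2.abs
  have hpos : ∀ x : Fin 2 → ℝ, (∀ i, x i ∈ Icc (-1 : ℝ) 1) → 0 < N x := by
    intro x hx
    rcases h0 (x 0) (hx 0) (x 1) (hx 1) with h | h
    · exact lt_of_lt_of_le (abs_pos.2 h) (le_max_left _ _)
    · exact lt_of_lt_of_le (abs_pos.2 h) (le_max_right _ _)
  have hdiv : ∀ (x : Fin 2 → ℝ) (u : ℝ), (∀ i, x i ∈ Icc (-1 : ℝ) 1) → |u| ≤ N x →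
      u / N x ∈ Icc (-1 : ℝ) 1 := by
    intro x u hx hu
    have h1 := hpos x hx
    have h2 := abs_le.1 hu
    constructor
    · rw [le_div_iff₀ h1]; linarith
    · rw [div_le_one h1]; exact h2.2
  obtain ⟨x, hx, hfx⟩ := Pool.Agent.KK.brouwer_cube 2
    (fun x => ![φ₁ (x 0) (x 1) / N x, φ₂ (x 0) (x 1) / N x]) (by
      refine continuousOn_pi.2 fun i => ?_
      fin_cases i
      · exact c1.div cN fun x hx => (hpos x hx).ne'
      · exact c2.div cN fun x hx => (hpos x hx).ne') (by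
      intro x hx i
      fin_cases i
      · exact hdiv x _ hx (le_max_left _ _)
      · exact hdiv x _ hx (le_max_right _ _))
  have e0 : φ₁ (x 0) (x 1) / N x = x 0 := congrFun hfx 0
  have e1 : φ₂ (x 0) (x 1) / N x = x 1 := congrFun hfx 1
  have hp := hpos x hx
  have e0' : φ₁ (x 0) (x 1) = N x * x 0 := by
    rw [div_eq_iff hp.ne'] at e0; rw [e0]; ring
  have e1' : φ₂ (x 0) (x 1) = N x * x 1 := by
    rw [div_eq_iff hp.ne'] at e1; rw [e1]; ring
  refine ⟨x 0, hx 0, x 1, hx 1, N x, hp, e0', e1', ?_⟩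
  rcases max_choice |φ₁ (x 0) (x 1)| |φ₂ (x 0) (x 1)| with h | h
  · left
    have h3 : N x = N x * |x 0| := by
      conv_lhs => rw [hN]
      simp only
      rw [h, e0', abs_mul, abs_of_pos hp]
    nlinarith
  · right
    have h3 : N x = N x * |x 1| := by
      conv_lhs => rw [hN]
      simp only
      rw [h, e1', abs_mul, abs_of_pos hp]
    nlinarith

/-- the piecewise linear scaling used in the proof of the crossing lemma -/
theorem pl_neg {G a b N s : ℝ} (ha : 0 < a) (hb : 0 < b) (hN : 0 < N)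
    (h : max G 0 / a + min G 0 / b = N * s) (hs : s ≤ 0) : G = N * s * b := by
  have h1 : G ≤ 0 := by
    by_contra hcon
    push Not at hcon
    rw [max_eq_left hcon.le, min_eq_right hcon.le, zero_div, add_zero] at h
    have : 0 < G / a := div_pos hcon ha
    nlinarith
  rw [max_eq_right h1, min_eq_left h1, zero_div, zero_add, div_eq_iff hb.ne'] at h
  exact h

theorem pl_pos {G a b N s : ℝ} (ha : 0 < a) (hb : 0 < b) (hN : 0 < N)
    (h : max G 0 / a + min G 0 / b = N * s) (hs : 0 ≤ s) : G = N * s * a := by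
  have h1 : 0 ≤ G := by
    by_contra hcon
    push Not at hcon
    rw [max_eq_right hcon.le, min_eq_left hcon.le, zero_div, zero_add] at h
    have : G / b < 0 := div_neg_of_neg_of_pos hcon hb
    nlinarith
  rw [max_eq_left h1, min_eq_right h1, zero_div, add_zero, div_eq_iff ha.ne'] at h
  exact h

/-- convexity step of the crossing lemma -/
theorem side_aux {X Y a b t : ℝ} (ha : 0 < a) (hb : 0 < b) (h1 : 0 < X + a * Y)
    (h2 : 0 < X - b * Y) (ht : t ∈ Icc (-1 : ℝ) 1) :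
    (0 ≤ t → 0 < X - t * b * Y) ∧ (t ≤ 0 → 0 < X - t * a * Y) := by
  have hX : 0 < X := by
    have h3 : 0 < (a + b) * X := by nlinarith [mul_pos hb h1, mul_pos ha h2]
    by_contra hcon
    push Not at hcon
    nlinarith [mul_nonneg (add_pos ha hb).le (neg_nonneg.2 hcon)]
  constructor
  · intro h
    nlinarith [mul_nonneg h h2.le, mul_nonneg (sub_nonneg.2 ht.2) hX.le]
  · intro h
    nlinarith [mul_nonneg (neg_nonneg.2 h) h1.le, mul_nonneg (by linarith [ht.1] : 0 ≤ 1 + t) hX.le]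

/-- **Crossing lemma**, coordinates: `α` runs from `q₁` to `q₃`, `β` from `q₂` to `q₄` in the disc of
radius `R`; the four points lie on the circle and are interleaved. Then the curves meet. -/
theorem cross_aux {R : ℝ} {q₁ q₂ q₃ q₄ : ℂ} (α β : ℝ → ℂ) (hα : ContinuousOn α (Icc (-1) 1))
    (hβ : ContinuousOn β (Icc (-1) 1)) (α0 : α (-1) = q₁) (α1 : α 1 = q₃) (β0 : β (-1) = q₂)
    (β1 : β 1 = q₄) (hαR : ∀ s ∈ Icc (-1 : ℝ) 1, dt (α s) (α s) ≤ R ^ 2)
    (hβR : ∀ s ∈ Icc (-1 : ℝ) 1, dt (β s) (β s) ≤ R ^ 2)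
    (n₁ : dt q₁ q₁ = R ^ 2) (n₂ : dt q₂ q₂ = R ^ 2) (n₃ : dt q₃ q₃ = R ^ 2)
    (n₄ : dt q₄ q₄ = R ^ 2)
    (hx1 : 0 < cr (q₄ - q₂) (q₁ - q₂)) (hx3 : cr (q₄ - q₂) (q₃ - q₂) < 0)
    (hy2 : cr (q₃ - q₁) (q₂ - q₁) < 0) (hy4 : 0 < cr (q₃ - q₁) (q₄ - q₁)) :
    ∃ s ∈ Icc (-1 : ℝ) 1, ∃ t ∈ Icc (-1 : ℝ) 1, α s = β t := by
  by_contra hcon
  push Not at hcon
  set e := q₃ - q₁ with he
  set e' := q₄ - q₂ with he'
  set x1 := cr e' (q₁ - q₂) with hx1d
  set x3 := -cr e' (q₃ - q₂) with hx3d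
  set y2 := -cr e (q₂ - q₁) with hy2d
  set y4 := cr e (q₄ - q₁) with hy4d
  have px3 : 0 < x3 := by linarith
  have py2 : 0 < y2 := by linarith
  have hD : 0 < cr e e' := by
    have : cr e e' = y2 + y4 := by
      simp only [hy2d, hy4d, he, he', cr, Complex.sub_re, Complex.sub_im]; ring
    rw [this]; positivity
  -- coordinates of a vector
  have hcoord : ∀ v q : ℂ, cr e e' * dt v q = -cr e' v * dt e q + cr e v * dt e' q := by
    intro v q
    simp only [cr, dt]; ring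
  have hcont : ContinuousOn (fun x : ℝ × ℝ => α x.1 - β x.2) (Icc (-1) 1 ×ˢ Icc (-1) 1) :=
    (hα.comp continuousOn_fst fun x hx => hx.1).sub (hβ.comp continuousOn_snd fun x hx => hx.2)
  have hcr : ∀ w : ℂ, ContinuousOn (fun x : ℝ × ℝ => cr w (α x.1 - β x.2))
      (Icc (-1) 1 ×ˢ Icc (-1) 1) := by
    intro w
    have h1 : Continuous fun z : ℂ => cr w z := by
      unfold cr; fun_prop
    exact h1.comp_continuousOn hcont
  obtain ⟨s, hs, t, ht, N, hN, e1, e2, hb⟩ := radial_boundary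
    (fun s t => max (cr e' (α s - β t)) 0 / x3 + min (cr e' (α s - β t)) 0 / x1)
    (fun s t => max (cr e (α s - β t)) 0 / y4 + min (cr e (α s - β t)) 0 / y2)
    ((((hcr e').sup continuousOn_const).div_const _).add
      (((hcr e').inf continuousOn_const).div_const _))
    ((((hcr e).sup continuousOn_const).div_const _).add
      (((hcr e).inf continuousOn_const).div_const _)) (by
      intro s hs t ht
      by_contra hz
      push Not at hz
      have z1 : cr e' (α s - β t) = 0 := by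
        have := pl_pos px3 hx1 one_pos (s := 0) (by rw [hz.1]; ring) le_rfl
        simpa using this
      have z2 : cr e (α s - β t) = 0 := by
        have := pl_pos hy4 py2 one_pos (s := 0) (by rw [hz.2]; ring) le_rfl
        simpa using this
      apply hcon s hs t ht
      have h1 := hcoord (α s - β t) (α s - β t)
      rw [z1, z2] at h1
      have h2 : dt (α s - β t) (α s - β t) = 0 := by
        have : cr e e' * dt (α s - β t) (α s - β t) = 0 := by rw [h1]; ring
        exact (mul_eq_zero.1 this).resolve_left hD.ne'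
      unfold dt at h2
      have h3 : (α s - β t).re = 0 := by nlinarith [sq_nonneg (α s - β t).re, sq_nonneg (α s - β t).im]
      have h4 : (α s - β t).im = 0 := by nlinarith [sq_nonneg (α s - β t).re, sq_nonneg (α s - β t).im]
      exact sub_eq_zero.1 (Complex.ext h3 h4))
  -- the sign of the product with the boundary point
  have hpos : ∀ z q : ℂ, dt z z ≤ R ^ 2 → dt q q = R ^ 2 → 0 ≤ dt (q - z) q := by
    intro z q hz hq
    simp only [dt, Complex.sub_re, Complex.sub_im] at *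
    nlinarith [sq_nonneg (z.re - q.re), sq_nonneg (z.im - q.im)]
  have hpos' : ∀ p q : ℂ, dt p p = R ^ 2 → dt q q = R ^ 2 → q - p ≠ 0 → 0 < dt (q - p) q := by
    intro p q hp hq hpq
    have h1 : 0 < (q.re - p.re) ^ 2 + (q.im - p.im) ^ 2 := by
      by_contra h
      push Not at h
      apply hpq
      have a1 : q.re - p.re = 0 := by nlinarith [sq_nonneg (q.re - p.re), sq_nonneg (q.im - p.im)]
      have a2 : q.im - p.im = 0 := by nlinarith [sq_nonneg (q.re - p.re), sq_nonneg (q.im - p.im)]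
      exact Complex.ext (by simpa using a1) (by simpa using a2)
    simp only [dt, Complex.sub_re, Complex.sub_im] at *
    nlinarith
  have cr0 : ∀ w : ℂ, cr w 0 = 0 := fun w => by simp [cr]
  have ne12 : q₁ - q₂ ≠ 0 := fun h => by rw [hx1d, h, cr0] at hx1; exact lt_irrefl _ hx1
  have ne32 : q₃ - q₂ ≠ 0 := fun h => by rw [h, cr0] at hx3; exact lt_irrefl _ hx3
  have ne14 : q₁ - q₄ ≠ 0 := fun h => by
    have h' : q₄ - q₁ = 0 := by rw [← neg_sub, h, neg_zero]
    rw [hy4d, h', cr0] at hy4; exact lt_irrefl _ hy4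
  have ne34 : q₃ - q₄ ≠ 0 := by
    intro h
    have h3 : q₃ = q₄ := sub_eq_zero.1 h
    have : cr e' (q₃ - q₂) = 0 := by rw [he', h3]; simp only [cr]; ring
    linarith
  have ne21 : q₂ - q₁ ≠ 0 := fun h => ne12 (by rw [← neg_sub, h, neg_zero])
  have ne23 : q₂ - q₃ ≠ 0 := fun h => ne32 (by rw [← neg_sub, h, neg_zero])
  have ne41 : q₄ - q₁ ≠ 0 := fun h => ne14 (by rw [← neg_sub, h, neg_zero])
  have ne43 : q₄ - q₃ ≠ 0 := fun h => ne34 (by rw [← neg_sub, h, neg_zero])
  rcases hb with hb | hb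
  · rcases (abs_eq one_pos.le).1 hb with hs1 | hs1
    · -- `s = 1`
      rw [hs1, α1] at e1 e2
      have g1 := pl_pos px3 hx1 hN e1 zero_le_one
      have k1 := hpos' q₂ q₃ n₂ n₃ ne32
      have k2 := hpos' q₄ q₃ n₄ n₃ ne34
      have k3 := hpos (β t) q₃ (hβR t ht) n₃
      have c1 := hcoord (q₃ - q₂) q₃
      have c2 := hcoord (q₃ - q₄) q₃
      have c3 := hcoord (q₃ - β t) q₃
      have r1 : cr e (q₃ - q₂) = y2 := by
        simp only [hy2d, he, cr, Complex.sub_re, Complex.sub_im]; ring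
      have r2 : cr e (q₃ - q₄) = -y4 := by
        simp only [hy4d, he, cr, Complex.sub_re, Complex.sub_im]; ring
      have r3 : cr e' (q₃ - q₄) = -x3 := by
        simp only [hx3d, he', cr, Complex.sub_re, Complex.sub_im]; ring
      have r4 : cr e' (q₃ - q₂) = -x3 := by rw [hx3d]; ring
      rw [r1, r4] at c1
      rw [r2, r3] at c2
      have s1 : 0 < x3 * dt e q₃ + y2 * dt e' q₃ := by nlinarith [mul_pos hD k1]
      have s2 : 0 < x3 * dt e q₃ - y4 * dt e' q₃ := by nlinarith [mul_pos hD k2]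
      have s3 := side_aux py2 hy4 s1 s2 ht
      rcases le_total 0 t with h0 | h0
      · have f1 := pl_pos hy4 py2 hN e2 h0
        rw [f1, g1] at c3
        nlinarith [mul_nonneg hD.le k3, mul_pos hN (s3.1 h0)]
      · have f1 := pl_neg hy4 py2 hN e2 h0
        rw [f1, g1] at c3
        nlinarith [mul_nonneg hD.le k3, mul_pos hN (s3.2 h0)]
    · -- `s = -1`
      rw [hs1, α0] at e1 e2
      have g1 := pl_neg px3 hx1 hN e1 (by norm_num)
      have k1 := hpos' q₂ q₁ n₂ n₁ ne12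
      have k2 := hpos' q₄ q₁ n₄ n₁ ne14
      have k3 := hpos (β t) q₁ (hβR t ht) n₁
      have c1 := hcoord (q₁ - q₂) q₁
      have c2 := hcoord (q₁ - q₄) q₁
      have c3 := hcoord (q₁ - β t) q₁
      have r1 : cr e (q₁ - q₂) = y2 := by
        simp only [hy2d, he, cr, Complex.sub_re, Complex.sub_im]; ring
      have r2 : cr e (q₁ - q₄) = -y4 := by
        simp only [hy4d, he, cr, Complex.sub_re, Complex.sub_im]; ring
      have r3 : cr e' (q₁ - q₄) = x1 := by
        simp only [hx1d, he', cr, Complex.sub_re, Complex.sub_im]; ring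
      rw [r1, ← hx1d] at c1
      rw [r2, r3] at c2
      have s1 : 0 < -(x1 * dt e q₁) + y2 * dt e' q₁ := by nlinarith [mul_pos hD k1]
      have s2 : 0 < -(x1 * dt e q₁) - y4 * dt e' q₁ := by nlinarith [mul_pos hD k2]
      have s3 := side_aux py2 hy4 s1 s2 ht
      rcases le_total 0 t with h0 | h0
      · have f1 := pl_pos hy4 py2 hN e2 h0
        rw [f1, g1] at c3
        nlinarith [mul_nonneg hD.le k3, mul_pos hN (s3.1 h0)]
      · have f1 := pl_neg hy4 py2 hN e2 h0
        rw [f1, g1] at c3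
        nlinarith [mul_nonneg hD.le k3, mul_pos hN (s3.2 h0)]
  · rcases (abs_eq one_pos.le).1 hb with ht1 | ht1
    · -- `t = 1`
      rw [ht1, β1] at e1 e2
      have g1 := pl_pos hy4 py2 hN e2 zero_le_one
      have k1 := hpos' q₁ q₄ n₁ n₄ ne41
      have k2 := hpos' q₃ q₄ n₃ n₄ ne43
      have k3 := hpos (α s) q₄ (hαR s hs) n₄
      have c1 := hcoord (q₄ - q₁) q₄
      have c2 := hcoord (q₄ - q₃) q₄
      have c3 := hcoord (α s - q₄) q₄
      have k3' : dt (α s - q₄) q₄ ≤ 0 := by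
        have : dt (α s - q₄) q₄ = -dt (q₄ - α s) q₄ := by
          simp only [dt, Complex.sub_re, Complex.sub_im]; ring
        linarith
      have r2 : cr e (q₄ - q₃) = y4 := by
        simp only [hy4d, he, cr, Complex.sub_re, Complex.sub_im]; ring
      have r3 : cr e' (q₄ - q₃) = x3 := by
        simp only [hx3d, he', cr, Complex.sub_re, Complex.sub_im]; ring
      have r4 : cr e' (q₄ - q₁) = -x1 := by
        simp only [hx1d, he', cr, Complex.sub_re, Complex.sub_im]; ring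
      rw [← hy4d, r4] at c1
      rw [r2, r3] at c2
      have s1 : 0 < y4 * dt e' q₄ + x1 * dt e q₄ := by nlinarith [mul_pos hD k1]
      have s2 : 0 < y4 * dt e' q₄ - x3 * dt e q₄ := by nlinarith [mul_pos hD k2]
      have s3 := side_aux hx1 px3 s1 s2 hs
      rcases le_total 0 s with h0 | h0
      · have f1 := pl_pos px3 hx1 hN e1 h0
        rw [f1, g1] at c3
        nlinarith [mul_nonneg hD.le (neg_nonneg.2 k3'), mul_pos hN (s3.1 h0)]
      · have f1 := pl_neg px3 hx1 hN e1 h0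
        rw [f1, g1] at c3
        nlinarith [mul_nonneg hD.le (neg_nonneg.2 k3'), mul_pos hN (s3.2 h0)]
    · -- `t = -1`
      rw [ht1, β0] at e1 e2
      have g1 := pl_neg hy4 py2 hN e2 (by norm_num)
      have k1 := hpos' q₁ q₂ n₁ n₂ ne21
      have k2 := hpos' q₃ q₂ n₃ n₂ ne23
      have k3 := hpos (α s) q₂ (hαR s hs) n₂
      have c1 := hcoord (q₂ - q₁) q₂
      have c2 := hcoord (q₂ - q₃) q₂
      have c3 := hcoord (α s - q₂) q₂
      have k3' : dt (α s - q₂) q₂ ≤ 0 := by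
        have : dt (α s - q₂) q₂ = -dt (q₂ - α s) q₂ := by
          simp only [dt, Complex.sub_re, Complex.sub_im]; ring
        linarith
      have r1 : cr e (q₂ - q₁) = -y2 := by rw [hy2d]; ring
      have r2 : cr e (q₂ - q₃) = -y2 := by
        simp only [hy2d, he, cr, Complex.sub_re, Complex.sub_im]; ring
      have r3 : cr e' (q₂ - q₃) = x3 := by
        simp only [hx3d, he', cr, Complex.sub_re, Complex.sub_im]; ring
      have r4 : cr e' (q₂ - q₁) = -x1 := by
        simp only [hx1d, he', cr, Complex.sub_re, Complex.sub_im]; ring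
      rw [r1, r4] at c1
      rw [r2, r3] at c2
      have s1 : 0 < -(y2 * dt e' q₂) + x1 * dt e q₂ := by nlinarith [mul_pos hD k1]
      have s2 : 0 < -(y2 * dt e' q₂) - x3 * dt e q₂ := by nlinarith [mul_pos hD k2]
      have s3 := side_aux hx1 px3 s1 s2 hs
      rcases le_total 0 s with h0 | h0
      · have f1 := pl_pos px3 hx1 hN e1 h0
        rw [f1, g1] at c3
        nlinarith [mul_nonneg hD.le (neg_nonneg.2 k3'), mul_pos hN (s3.1 h0)]
      · have f1 := pl_neg px3 hx1 hN e1 h0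
        rw [f1, g1] at c3
        nlinarith [mul_nonneg hD.le (neg_nonneg.2 k3'), mul_pos hN (s3.2 h0)]

end Pool.Agent.W_8c5d11_v22
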