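import Pool.Agent.W_8c5d11_v22.Cross

/-!
MP_8c5d11_gt: the crossing lemma for joined points of a circle.
-/

open Set Complex Metric
open scoped Real

namespace Pool.Agent.W_8c5d11_v22

/-- the point of the circle of radius `R` with angle `t` -/
noncomputable def pt (R t : ℝ) : ℂ := (R : ℂ) * cexp ((t : ℂ) * I)

theorem pt_re (R t : ℝ) : (pt R t).re = R * Real.cos t := by
  rw [pt, Complex.re_ofReal_mul, Complex.exp_ofReal_mul_I_re]

theorem pt_im (R t : ℝ) : (pt R t).im = R * Real.sin t := by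
  rw [pt, Complex.im_ofReal_mul, Complex.exp_ofReal_mul_I_im]

theorem norm_pt {R : ℝ} (hR : 0 ≤ R) (t : ℝ) : ‖pt R t‖ = R := by
  rw [pt, norm_mul, Complex.norm_exp_ofReal_mul_I, mul_one, Complex.norm_of_nonneg hR]

theorem dt_self (z : ℂ) : dt z z = ‖z‖ ^ 2 := by
  rw [← Complex.normSq_eq_norm_sq, Complex.normSq_apply, dt]

theorem cr_pt (R a b t : ℝ) : cr (pt R b - pt R a) (pt R t - pt R a) =
    4 * R ^ 2 * (Real.sin ((b - a) / 2) * Real.sin ((t - a) / 2) * Real.sin ((t - b) / 2)) := by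
  simp only [cr, Complex.sub_re, Complex.sub_im, pt_re, pt_im]
  have h1 : R * Real.cos b - R * Real.cos a =
      R * (-2 * Real.sin ((b + a) / 2) * Real.sin ((b - a) / 2)) := by
    rw [← mul_sub, Real.cos_sub_cos]
  have h2 : R * Real.sin t - R * Real.sin a =
      R * (2 * Real.sin ((t - a) / 2) * Real.cos ((t + a) / 2)) := by
    rw [← mul_sub, Real.sin_sub_sin]
  have h3 : R * Real.sin b - R * Real.sin a =
      R * (2 * Real.sin ((b - a) / 2) * Real.cos ((b + a) / 2)) := by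
    rw [← mul_sub, Real.sin_sub_sin]
  have h4 : R * Real.cos t - R * Real.cos a =
      R * (-2 * Real.sin ((t + a) / 2) * Real.sin ((t - a) / 2)) := by
    rw [← mul_sub, Real.cos_sub_cos]
  rw [h1, h2, h3, h4]
  have h5 : Real.sin ((t - b) / 2) = Real.sin ((t + a) / 2) * Real.cos ((b + a) / 2) -
      Real.cos ((t + a) / 2) * Real.sin ((b + a) / 2) := by
    rw [← Real.sin_sub]; congr 1; ring
  rw [h5]; ring

/-- **Crossing lemma.** Two subsets of a closed disc, one joining the first and the third, the other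
joining the second and the fourth of four consecutive points of the circle, meet. -/
theorem crossing {R : ℝ} (hR : 0 < R) {t₁ t₂ t₃ t₄ : ℝ} (h12 : t₁ < t₂) (h23 : t₂ < t₃)
    (h34 : t₃ < t₄) (h41 : t₄ < t₁ + 2 * π) {A B : Set ℂ} (hA : A ⊆ closedBall 0 R)
    (hB : B ⊆ closedBall 0 R) (jA : JoinedIn A (pt R t₁) (pt R t₃))
    (jB : JoinedIn B (pt R t₂) (pt R t₄)) : (A ∩ B).Nonempty := by
  have hpi := Real.pi_pos
  obtain ⟨γ, hγ⟩ := jA
  obtain ⟨δ, hδ⟩ := jB
  have sp : ∀ x : ℝ, 0 < x → x < 2 * π → 0 < Real.sin (x / 2) := fun x h1 h2 =>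
    Real.sin_pos_of_pos_of_lt_pi (by linarith) (by linarith)
  have sn : ∀ x : ℝ, x < 0 → -(2 * π) < x → Real.sin (x / 2) < 0 := fun x h1 h2 =>
    Real.sin_neg_of_neg_of_neg_pi_lt (by linarith) (by linarith)
  have hR2 : 0 < 4 * R ^ 2 := by positivity
  have cα : Continuous fun s : ℝ => γ.extend ((s + 1) / 2) := by fun_prop
  have cβ : Continuous fun s : ℝ => δ.extend ((s + 1) / 2) := by fun_prop
  have mα : ∀ s ∈ Icc (-1 : ℝ) 1, γ.extend ((s + 1) / 2) ∈ A := by
    intro s hs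
    have h : (s + 1) / 2 ∈ Icc (0 : ℝ) 1 := ⟨by linarith [hs.1], by linarith [hs.2]⟩
    rw [γ.extend_apply h]; exact hγ _
  have mβ : ∀ s ∈ Icc (-1 : ℝ) 1, δ.extend ((s + 1) / 2) ∈ B := by
    intro s hs
    have h : (s + 1) / 2 ∈ Icc (0 : ℝ) 1 := ⟨by linarith [hs.1], by linarith [hs.2]⟩
    rw [δ.extend_apply h]; exact hδ _
  have nrm : ∀ z ∈ closedBall (0 : ℂ) R, dt z z ≤ R ^ 2 := by
    intro z hz
    rw [dt_self]
    exact pow_le_pow_left₀ (norm_nonneg _) (mem_closedBall_zero_iff.1 hz) 2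
  have npt : ∀ t : ℝ, dt (pt R t) (pt R t) = R ^ 2 := fun t => by rw [dt_self, norm_pt hR.le]
  obtain ⟨s, hs, t, ht, hst⟩ := cross_aux (R := R) (q₁ := pt R t₁) (q₂ := pt R t₂)
    (q₃ := pt R t₃) (q₄ := pt R t₄) (fun s : ℝ => γ.extend ((s + 1) / 2))
    (fun s : ℝ => δ.extend ((s + 1) / 2)) cα.continuousOn cβ.continuousOn
    (by simp) (by simp) (by simp) (by simp) (fun s hs => nrm _ (hA (mα s hs)))
    (fun s hs => nrm _ (hB (mβ s hs))) (npt _) (npt _) (npt _) (npt _)
    (by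
      rw [cr_pt]
      have a1 := sp (t₄ - t₂) (by linarith) (by linarith)
      have a2 := sn (t₁ - t₂) (by linarith) (by linarith)
      have a3 := sn (t₁ - t₄) (by linarith) (by linarith)
      exact mul_pos hR2 (mul_pos_of_neg_of_neg (mul_neg_of_pos_of_neg a1 a2) a3))
    (by
      rw [cr_pt]
      have a1 := sp (t₄ - t₂) (by linarith) (by linarith)
      have a2 := sp (t₃ - t₂) (by linarith) (by linarith)
      have a3 := sn (t₃ - t₄) (by linarith) (by linarith)
      exact mul_neg_of_pos_of_neg hR2 (mul_neg_of_pos_of_neg (mul_pos a1 a2) a3))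
    (by
      rw [cr_pt]
      have a1 := sp (t₃ - t₁) (by linarith) (by linarith)
      have a2 := sp (t₂ - t₁) (by linarith) (by linarith)
      have a3 := sn (t₂ - t₃) (by linarith) (by linarith)
      exact mul_neg_of_pos_of_neg hR2 (mul_neg_of_pos_of_neg (mul_pos a1 a2) a3))
    (by
      rw [cr_pt]
      have a1 := sp (t₃ - t₁) (by linarith) (by linarith)
      have a2 := sp (t₄ - t₁) (by linarith) (by linarith)
      have a3 := sp (t₄ - t₃) (by linarith) (by linarith)
      exact mul_pos hR2 (mul_pos (mul_pos a1 a2) a3))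
  exact ⟨_, mα s hs, by rw [hst]; exact mβ t ht⟩

end Pool.Agent.W_8c5d11_v22
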