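import Pool.Agent.W_8c5d11_v22.SysC
import Pool.Agent.W_8c5d11_v22.Lim
import Pool.Agent.W_8c5d11_h65.Split

/-!
MP_8c5d11_gt: the lower bound for all continua, `R ≤ 2 r`.
-/

open Set Metric MeasureTheory
open scoped Real ENNReal

namespace Pool.Agent.W_8c5d11_v22

open Pool.Agent.W_8c5d11_h65 (Ineqs C_leaf C_split)
open Pool.Agent.W_8c5d11_h73 (hlen)

theorem certSys (I : Ineqs) {b : ℝ} (hb0 : 0 < b) (hb1 : b ≤ π / 6) :
    CertSys (1 / Real.sin b) (1 / Real.sin b - 1) (π + 2 * (b + 1 - Real.tan (b / 2))) 5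
      (W_8c5d11_h65.C b) :=
  certSys_C hb0 hb1 (fun _ _ _ _ _ _ _ _ hcov h => C_leaf hb0 hb1 hcov h)
    (fun _ _ _ _ _ h1 h2 _ h => C_split I hb0 hb1 h1 h2 h)

/-- **The horseshoe bound for all continua, `R ≤ 2 r`.** -/
theorem lower_full (I : Ineqs) {R r : ℝ} (hr : 0 < r) (hR : r < R) (h2 : R ≤ 2 * r) {S : Set ℂ}
    (hc : IsCompact S) (hS : IsConnected S) (hcov : sphere 0 R ⊆ cthickening r S) :
    ENNReal.ofReal (hlen R r) ≤ μH[1] S :=
  bound_of_certs (fun _ h0 h1 => ⟨_, _, certSys I h0 h1⟩) hr hR h2 hc hS hcov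

end Pool.Agent.W_8c5d11_v22
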