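import Pool.Agent.W_8c5d11_v22.Top

/-!
MP_8c5d11_gt: the inequality for three gaps.
-/

open Set Metric
open scoped Real

namespace Pool.Agent.W_8c5d11_v22

theorem sqrt3_bd : 1.7320 < Real.sqrt 3 ∧ Real.sqrt 3 < 1.7321 := by
  constructor
  · rw [Real.lt_sqrt (by norm_num)]; norm_num
  · rw [Real.sqrt_lt' (by norm_num)]; norm_num

theorem cos_sin_twelve : Real.sqrt 2 * Real.cos (π / 12) = (Real.sqrt 3 + 1) / 2 ∧
    Real.sqrt 2 * Real.sin (π / 12) = (Real.sqrt 3 - 1) / 2 := by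
  have h2 : Real.sqrt 2 * Real.sqrt 2 = 2 := Real.mul_self_sqrt (by norm_num)
  have e : π / 12 = π / 4 - π / 6 := by ring
  rw [e, Real.cos_sub, Real.sin_sub, Real.cos_pi_div_four, Real.sin_pi_div_four,
    Real.cos_pi_div_six, Real.sin_pi_div_six]
  constructor
  · linear_combination ((Real.sqrt 3 + 1) / 4 : ℝ) * h2
  · linear_combination ((Real.sqrt 3 - 1) / 4 : ℝ) * h2

/-- the quotient for `s = π/12 - v` -/
theorem quot_left {v : ℝ} (h0 : 0 ≤ v) (h1 : v ≤ π / 12) :
    (Real.sqrt 3 + 1) / 2 - v ≤ Real.cos (π / 12 - v) / Real.cos (π / 4 - v) := by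
  have hpi := Real.pi_pos
  have hpi4 := Real.pi_lt_four
  have h2 : 0 < Real.sqrt 2 := Real.sqrt_pos.2 two_pos
  have h22 : Real.sqrt 2 * Real.sqrt 2 = 2 := Real.mul_self_sqrt (by norm_num)
  have hc : 0 < Real.cos (π / 4 - v) := Real.cos_pos_of_mem_Ioo ⟨by linarith, by linarith⟩
  obtain ⟨e1, e2⟩ := cos_sin_twelve
  have e3 : Real.sqrt 2 * Real.cos (π / 12 - v) =
      (Real.sqrt 3 + 1) / 2 * Real.cos v + (Real.sqrt 3 - 1) / 2 * Real.sin v := by
    rw [Real.cos_sub, mul_add, ← mul_assoc, ← mul_assoc, e1, e2]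
  have e4 : Real.sqrt 2 * Real.cos (π / 4 - v) = Real.cos v + Real.sin v := by
    rw [Real.cos_sub, Real.cos_pi_div_four, Real.sin_pi_div_four]
    linear_combination ((Real.cos v + Real.sin v) / 2) * h22
  have e5 : Real.cos (π / 12 - v) / Real.cos (π / 4 - v) =
      (Real.sqrt 2 * Real.cos (π / 12 - v)) / (Real.sqrt 2 * Real.cos (π / 4 - v)) := by
    field_simp
  have hcs : 0 < Real.cos v + Real.sin v := by rw [← e4]; positivity
  rw [e5, e3, e4, le_div_iff₀ hcs]
  have h3 : Real.sin v ≤ v := Real.sin_le h0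
  have h4 := Real.one_sub_sq_div_two_le_cos (x := v)
  have h5 : 0 ≤ Real.sin v := Real.sin_nonneg_of_nonneg_of_le_pi h0 (by linarith)
  have hv1 : v ≤ 1 := by linarith
  have h6 : (1 - v) * Real.sin v ≤ v * Real.cos v := by
    have a1 : (1 - v) * Real.sin v ≤ (1 - v) * v := mul_le_mul_of_nonneg_left h3 (by linarith)
    have a2 : v * (1 - v) ≤ v * Real.cos v := mul_le_mul_of_nonneg_left (by nlinarith) h0
    linarith
  nlinarith

/-- the quotient for `s = π/12 + v` -/
theorem quot_right {v : ℝ} (h0 : 0 ≤ v) (h1 : v ≤ π / 12) :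
    (Real.sqrt 3 + 1) / 2 + Real.sqrt 3 * v ≤ Real.cos (π / 12 - v) / Real.cos (π / 4 + v) := by
  have hpi := Real.pi_pos
  have hpi4 := Real.pi_lt_four
  have h2 : 0 < Real.sqrt 2 := Real.sqrt_pos.2 two_pos
  have h22 : Real.sqrt 2 * Real.sqrt 2 = 2 := Real.mul_self_sqrt (by norm_num)
  have hc : 0 < Real.cos (π / 4 + v) := Real.cos_pos_of_mem_Ioo ⟨by linarith, by linarith⟩
  obtain ⟨e1, e2⟩ := cos_sin_twelve
  have e3 : Real.sqrt 2 * Real.cos (π / 12 - v) =
      (Real.sqrt 3 + 1) / 2 * Real.cos v + (Real.sqrt 3 - 1) / 2 * Real.sin v := by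
    rw [Real.cos_sub, mul_add, ← mul_assoc, ← mul_assoc, e1, e2]
  have e4 : Real.sqrt 2 * Real.cos (π / 4 + v) = Real.cos v - Real.sin v := by
    rw [Real.cos_add, Real.cos_pi_div_four, Real.sin_pi_div_four]
    linear_combination ((Real.cos v - Real.sin v) / 2) * h22
  have e5 : Real.cos (π / 12 - v) / Real.cos (π / 4 + v) =
      (Real.sqrt 2 * Real.cos (π / 12 - v)) / (Real.sqrt 2 * Real.cos (π / 4 + v)) := by
    field_simp
  have hcs : 0 < Real.cos v - Real.sin v := by rw [← e4]; positivity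
  rw [e5, e3, e4, le_div_iff₀ hcs]
  have h5 : 0 ≤ Real.sin v := Real.sin_nonneg_of_nonneg_of_le_pi h0 (by linarith)
  have hcv : 0 < Real.cos v := Real.cos_pos_of_mem_Ioo ⟨by linarith, by linarith⟩
  have h6 : v * Real.cos v ≤ Real.sin v := by
    have := Real.le_tan h0 (by linarith : v < π / 2)
    rw [Real.tan_eq_sin_div_cos, le_div_iff₀ hcv] at this
    exact this
  have h7 : 0 ≤ Real.sqrt 3 := Real.sqrt_nonneg _
  have h8 := mul_le_mul_of_nonneg_left h6 h7
  have h9 : 0 ≤ Real.sqrt 3 * v * Real.sin v := by positivity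
  nlinarith

/-- the number at the bottom of the inequality -/
theorem num_left {v : ℝ} (h0 : 0 ≤ v) (h1 : v ≤ π / 12) :
    π / 3 + 2 * (π / 2 + Real.sqrt 3 - 1) ≤ (Real.sqrt 3 + 1) / 2 - v +
      (π / 2 + Real.sqrt 3 - 1) * (1 + Real.cos (π / 6 - 2 * v)) := by
  have hpi := Real.pi_gt_d4
  have hpi4 := Real.pi_lt_d4
  obtain ⟨s1, s2⟩ := sqrt3_bd
  set q := Real.sqrt 3 with hq
  have hqq : q * q = 3 := Real.mul_self_sqrt (by norm_num)
  have e1 : Real.cos (π / 6 - 2 * v) = q / 2 * Real.cos (2 * v) + 1 / 2 * Real.sin (2 * v) := by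
    rw [Real.cos_sub, Real.cos_pi_div_six, Real.sin_pi_div_six]
  have e2 : 1 - (2 * v) ^ 2 / 2 ≤ Real.cos (2 * v) := Real.one_sub_sq_div_two_le_cos
  have e3 : 2 * v - (2 * v) ^ 3 / 4 ≤ Real.sin (2 * v) := by
    rcases eq_or_lt_of_le h0 with h | h
    · rw [← h]; simp
    · have a1 := Real.sin_gt_sub_cube (x := 2 * v) (by linarith)
      have a2 : 0 ≤ (2 * v) ^ 3 := by positivity
      linarith
  have e4 : q / 2 * (1 - (2 * v) ^ 2 / 2) ≤ q / 2 * Real.cos (2 * v) :=
    mul_le_mul_of_nonneg_left e2 (by linarith)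
  have e5 : q / 2 - q * v ^ 2 + v - v ^ 3 ≤ Real.cos (π / 6 - 2 * v) := by
    rw [e1]; nlinarith
  have hK : 0 < π / 2 + q - 1 := by linarith
  have e6 := mul_le_mul_of_nonneg_left e5 hK.le
  have hv : v ≤ 0.2618 := by norm_num at hpi4 ⊢; linarith
  have e7 : q * v ^ 2 + v ^ 3 ≤ 0.522 * v := by
    have a1 : q * v ^ 2 ≤ 1.7321 * 0.2618 * v := by
      have : q * v ≤ 1.7321 * 0.2618 := by nlinarith
      nlinarith
    have a2 : v ^ 3 ≤ 0.2618 * 0.2618 * v := by
      have : v * v ≤ 0.2618 * 0.2618 := by nlinarith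
      nlinarith
    nlinarith
  have e8 : (π / 2 + q - 1) * (q * v ^ 2 + v ^ 3) ≤ (π / 2 + q - 1) * (0.522 * v) :=
    mul_le_mul_of_nonneg_left e7 hK.le
  have e9 : 0 ≤ v * (((π / 2 + q - 1) * (1 - 0.522)) - 1) := by
    refine mul_nonneg h0 ?_
    norm_num at hpi ⊢
    nlinarith
  have e10 : π / 3 + 2 * (π / 2 + q - 1) ≤ (q + 1) / 2 + (π / 2 + q - 1) * (1 + q / 2) := by
    norm_num at hpi hpi4 s1 s2
    nlinarith
  nlinarith

theorem num_right {v : ℝ} (h0 : 0 ≤ v) (h1 : v ≤ π / 12) :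
    π / 3 + 2 * (π / 2 + Real.sqrt 3 - 1) ≤ (Real.sqrt 3 + 1) / 2 + Real.sqrt 3 * v +
      (π / 2 + Real.sqrt 3 - 1) * (Real.sqrt 3 / 2 + Real.cos (2 * v)) := by
  have hpi := Real.pi_gt_d4
  have hpi4 := Real.pi_lt_d4
  obtain ⟨s1, s2⟩ := sqrt3_bd
  set q := Real.sqrt 3 with hq
  have hqq : q * q = 3 := Real.mul_self_sqrt (by norm_num)
  have e2 : 1 - (2 * v) ^ 2 / 2 ≤ Real.cos (2 * v) := Real.one_sub_sq_div_two_le_cos
  have hK : 0 < π / 2 + q - 1 := by linarith
  have e6 := mul_le_mul_of_nonneg_left e2 hK.le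
  have hv : v ≤ 0.2618 := by norm_num at hpi4 ⊢; linarith
  have e10 : π / 3 + 2 * (π / 2 + q - 1) ≤ (q + 1) / 2 + (π / 2 + q - 1) * (1 + q / 2) := by
    norm_num at hpi hpi4 s1 s2
    nlinarith
  have hK2 : π / 2 + q - 1 ≤ 2.303 := by norm_num at hpi4 s2 ⊢; linarith
  have e11 : 0 ≤ v * (q - 2 * (π / 2 + q - 1) * v) := by
    refine mul_nonneg h0 ?_
    have : (π / 2 + q - 1) * v ≤ 2.303 * 0.2618 := by nlinarith
    norm_num at s1 ⊢
    linarith
  nlinarith

/-- **The inequality for three gaps.** -/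
theorem fT_nonneg {c : ℝ} (hc : c ≤ π / 6 + Real.sqrt 3 - 1) :
    ∀ x y, 0 ≤ x → x ≤ π / 6 → 0 ≤ y → y ≤ π / 6 → 0 ≤ fT c x y := by
  intro x y hx0 hx hy0 hy
  have hpi := Real.pi_pos
  have hxs : 0 ≤ Real.sin x - x * Real.cos x := by
    have hcx : 0 < Real.cos x := Real.cos_pos_of_mem_Ioo ⟨by linarith, by linarith⟩
    have := Real.le_tan hx0 (by linarith : x < π / 2)
    rw [Real.tan_eq_sin_div_cos, le_div_iff₀ hcx] at this
    linarith
  have hys : 0 ≤ Real.sin y - y * Real.cos y := by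
    have hcx : 0 < Real.cos y := Real.cos_pos_of_mem_Ioo ⟨by linarith, by linarith⟩
    have := Real.le_tan hy0 (by linarith : y < π / 2)
    rw [Real.tan_eq_sin_div_cos, le_div_iff₀ hcx] at this
    linarith
  set s := (x + y) / 2 with hs
  set d := (x - y) / 2 with hd
  set K := π / 2 + Real.sqrt 3 - 1 with hK
  have hKpos : 0 < K := by linarith [sqrt3_bd.1]
  have hcc : Real.cos x + Real.cos y = 2 * Real.cos s * Real.cos d := Real.cos_add_cos x y
  have h2 : 0 ≤ 2 - Real.cos x - Real.cos y := by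
    linarith [Real.cos_le_one x, Real.cos_le_one y]
  have h3 : (π / 3 + c) * (2 - Real.cos x - Real.cos y) ≤ K * (2 - Real.cos x - Real.cos y) :=
    mul_le_mul_of_nonneg_right (by linarith) h2
  have hds : |d| ≤ s := by rw [abs_le]; constructor <;> linarith
  have hds' : |d| ≤ π / 6 - s := by rw [abs_le]; constructor <;> linarith
  have hcs : 0 < Real.cos (π / 6 + s) := Real.cos_pos_of_mem_Ioo ⟨by linarith, by linarith⟩
  have hcs' : 0 < Real.cos s := Real.cos_pos_of_mem_Ioo ⟨by linarith, by linarith⟩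
  suffices h : π / 3 + 2 * K ≤ Real.cos d / Real.cos (π / 6 + s) + K * (2 * Real.cos s * Real.cos d) by
    unfold fT
    rw [← hs, ← hd]
    have h4 : 2 - Real.cos x - Real.cos y = 2 - 2 * Real.cos s * Real.cos d := by linarith
    rw [h4] at h3 ⊢
    nlinarith
  have main : ∀ m : ℝ, m ≤ Real.cos d →
      π / 3 + 2 * K ≤ m / Real.cos (π / 6 + s) + K * (2 * Real.cos s * m) →
      π / 3 + 2 * K ≤ Real.cos d / Real.cos (π / 6 + s) + K * (2 * Real.cos s * Real.cos d) := by
    intro m h5 h6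
    have h7 : m / Real.cos (π / 6 + s) ≤ Real.cos d / Real.cos (π / 6 + s) :=
      div_le_div_of_nonneg_right h5 hcs.le
    have h8 : K * (2 * Real.cos s * m) ≤ K * (2 * Real.cos s * Real.cos d) :=
      mul_le_mul_of_nonneg_left (mul_le_mul_of_nonneg_left h5 (by linarith)) hKpos.le
    linarith
  rcases le_total s (π / 12) with h | h
  · set v := π / 12 - s with hv
    refine main (Real.cos s) ?_ ?_
    · rw [← Real.cos_abs d]
      exact Real.cos_le_cos_of_nonneg_of_le_pi (abs_nonneg _) (by linarith) hds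
    · have e1 : s = π / 12 - v := by rw [hv]; ring
      have e2 : π / 6 + s = π / 4 - v := by rw [hv]; ring
      have e3 : 2 * Real.cos s * Real.cos s = 1 + Real.cos (π / 6 - 2 * v) := by
        have e4 : π / 6 - 2 * v = 2 * s := by rw [hv]; ring
        rw [e4, Real.cos_two_mul]; ring
      have e4 := quot_left (v := v) (by linarith) (by linarith)
      have e5 := num_left (v := v) (by linarith) (by linarith)
      rw [← hK] at e5
      rw [e3, e2]
      rw [← e1] at e4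
      linarith
  · set v := s - π / 12 with hv
    refine main (Real.cos (π / 6 - s)) ?_ ?_
    · rw [← Real.cos_abs d]
      exact Real.cos_le_cos_of_nonneg_of_le_pi (abs_nonneg _) (by linarith) hds'
    · have e1 : π / 6 - s = π / 12 - v := by rw [hv]; ring
      have e2 : π / 6 + s = π / 4 + v := by rw [hv]; ring
      have e3 : 2 * Real.cos s * Real.cos (π / 6 - s) = Real.sqrt 3 / 2 + Real.cos (2 * v) := by
        have e4 : 2 * v = s - (π / 6 - s) := by rw [hv]; ring
        have e5 : π / 6 = s + (π / 6 - s) := by ring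
        rw [← Real.cos_pi_div_six, e4, Real.cos_sub s]
        conv_rhs => rw [e5, Real.cos_add]
        ring_nf
      have e4 := quot_right (v := v) (by linarith) (by linarith)
      have e5 := num_right (v := v) (by linarith) (by linarith)
      rw [← hK] at e5
      rw [e3, e2, e1]
      linarith

end Pool.Agent.W_8c5d11_v22
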