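import Pool.Agent.W_8c5d11_v22.Tree

/-!
MP_8c5d11_gt: the induction over a tree with marks for a superadditive family of lower bounds.
-/

open Set Relation

namespace Pool.Agent.W_8c5d11_v22

variable {V : Type*} [Fintype V] [DecidableEq V] {p : V → ℂ} {ρ : V} {par : V → V} {dep : V → ℕ}

open Classical in
/-- the vertices below `c` (but not `c`) above some mark with index in `[i, j)` -/
noncomputable def Wset (ρ : V) (par : V → V) (mk : ℕ → V) (c : V) (i j : ℕ) : Finset V :=
  Finset.univ.filter fun w => w ≠ ρ ∧ w ≠ c ∧ Desc ρ par w c ∧ ∃ k, i ≤ k ∧ k < j ∧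
    Desc ρ par (mk k) w

theorem mem_Wset {mk : ℕ → V} {c w : V} {i j : ℕ} : w ∈ Wset ρ par mk c i j ↔
    w ≠ ρ ∧ w ≠ c ∧ Desc ρ par w c ∧ ∃ k, i ≤ k ∧ k < j ∧ Desc ρ par (mk k) w := by
  classical
  unfold Wset
  rw [Finset.mem_filter]
  exact ⟨fun h => h.2, fun h => ⟨Finset.mem_univ _, h⟩⟩

theorem claim (hd : IsDepth ρ par dep) (mk : ℕ → V) {N : ℕ}
    (hint : ∀ z, z ≠ ρ → ∀ i j k, i < j → j < k → k < N → Desc ρ par (mk i) z →
      Desc ρ par (mk k) z → Desc ρ par (mk j) z)
    (D : ℕ → ℕ → ℂ → ℝ) (Y : Set ℂ) (hY : ∀ v, p v ∈ Y)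
    (lip : ∀ i j, ∀ y ∈ Y, ∀ y' ∈ Y, i < j → j ≤ N → D i j y ≤ D i j y' + dist y y')
    (split : ∀ i j k, ∀ y ∈ Y, i < j → j < k → k ≤ N → D i k y ≤ D i j y + D j k y)
    (leaf : ∀ k < N, D k (k + 1) (p (mk k)) ≤ 0) (M : ℕ) (hM : ∀ v, dep v ≤ M) :
    ∀ m c, M - dep c = m → ∀ n i j, j - i = n → i < j → j ≤ N →
      (∀ k, i ≤ k → k < j → Desc ρ par (mk k) c) →
      D i j (p c) ≤ ∑ w ∈ Wset ρ par mk c i j, dist (p w) (p (par w)) := by
  intro m
  induction m using Nat.strong_induction_on with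
  | _ m ihm =>
  intro c hcm n
  induction n using Nat.strong_induction_on with
  | _ n ihn =>
  intro i j hn hij hjN hdesc
  by_cases hic : mk i = c
  · have hl : D i (i + 1) (p c) ≤ 0 := by
      rw [← hic]; exact leaf i (by omega)
    rcases Nat.eq_or_lt_of_le (Nat.succ_le_of_lt hij) with h1 | h1
    · have h1' : i + 1 = j := h1
      rw [← h1']
      exact hl.trans (Finset.sum_nonneg fun w _ => dist_nonneg)
    · have h1' : i + 1 < j := h1
      have h2 := split i (i + 1) j (p c) (hY c) (by omega) h1' hjN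
      have h3 := ihn (j - (i + 1)) (by omega) (i + 1) j rfl h1' hjN
        fun k hk1 hk2 => hdesc k (by omega) hk2
      have h4 : Wset ρ par mk c (i + 1) j ⊆ Wset ρ par mk c i j := by
        intro w hw
        obtain ⟨a1, a2, a3, k, a4, a5, a6⟩ := mem_Wset.1 hw
        exact mem_Wset.2 ⟨a1, a2, a3, k, by omega, a5, a6⟩
      have h5 := Finset.sum_le_sum_of_subset_of_nonneg (f := fun w => dist (p w) (p (par w))) h4
        fun _ _ _ => dist_nonneg
      linarith
  · rcases ReflTransGen.cases_tail (hdesc i le_rfl hij) with h | ⟨z, h1, h2, h3⟩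
    · exact absurd h.symm hic
    have hdz := hd z h2
    rw [h3] at hdz
    have hMz := hM z
    have hzc : z ≠ c := fun h => by rw [h] at hdz; omega
    have hDz : Desc ρ par z c := ReflTransGen.single ⟨h2, h3⟩
    have step : ∀ k, i < k → k ≤ j → (∀ l, i ≤ l → l < k → Desc ρ par (mk l) z) →
        D i k (p c) ≤ ∑ w ∈ insert z (Wset ρ par mk z i k), dist (p w) (p (par w)) := by
      intro k hik hkj hl
      have g1 := ihm (M - dep z) (by omega) z rfl (k - i) i k rfl hik (by omega) hl
      have g2 := lip i k (p c) (hY c) (p z) (hY z) hik (by omega)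
      have g3 : z ∉ Wset ρ par mk z i k := fun h => (mem_Wset.1 h).2.1 rfl
      rw [Finset.sum_insert g3, h3, dist_comm (p z) (p c)]
      linarith
    by_cases hall : ∀ l, i ≤ l → l < j → Desc ρ par (mk l) z
    · refine (step j hij le_rfl hall).trans ?_
      refine Finset.sum_le_sum_of_subset_of_nonneg (fun w hw => ?_) fun _ _ _ => dist_nonneg
      rcases Finset.mem_insert.1 hw with rfl | hw
      · exact mem_Wset.2 ⟨h2, hzc, hDz, i, le_rfl, hij, hall i le_rfl hij⟩
      · obtain ⟨a1, a2, a3, k, a4, a5, a6⟩ := mem_Wset.1 hw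
        refine mem_Wset.2 ⟨a1, ?_, a3.trans hDz, k, a4, a5, a6⟩
        intro h
        rw [h] at a3
        have := hd.dep_le a3
        omega
    · push Not at hall
      classical
      have hex : ∃ l, i ≤ l ∧ l < j ∧ ¬ Desc ρ par (mk l) z := hall
      set k := Nat.find hex with hk
      obtain ⟨k1, k2, k3⟩ := Nat.find_spec hex
      have hik : i < k := by
        rcases Nat.eq_or_lt_of_le k1 with h | h
        · exact absurd (by rw [← h]; exact h1) k3
        · exact h
      have hlow : ∀ l, i ≤ l → l < k → Desc ρ par (mk l) z := by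
        intro l hl1 hl2
        by_contra hcon
        exact Nat.find_min hex hl2 ⟨hl1, by omega, hcon⟩
      have g1 := step k hik k2.le hlow
      have g2 := split i k j (p c) (hY c) hik k2 hjN
      have g3 := ihn (j - k) (by omega) k j rfl k2 hjN
        fun l hl1 hl2 => hdesc l (by omega) hl2
      -- no mark of `[k, j)` below `z`
      have hno : ∀ l, k ≤ l → l < j → ¬ Desc ρ par (mk l) z := by
        intro l hl1 hl2 hl3
        rcases Nat.eq_or_lt_of_le hl1 with h | h
        · rw [← h] at hl3; exact k3 hl3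
        · exact k3 (hint z h2 i k l hik h (by omega) h1 hl3)
      have hdisj : Disjoint (insert z (Wset ρ par mk z i k)) (Wset ρ par mk c k j) := by
        rw [Finset.disjoint_left]
        intro w hw hw'
        obtain ⟨_, _, _, l, a4, a5, a6⟩ := mem_Wset.1 hw'
        rcases Finset.mem_insert.1 hw with rfl | hw
        · exact hno l a4 a5 a6
        · obtain ⟨_, _, a3, _⟩ := mem_Wset.1 hw
          exact hno l a4 a5 (a6.trans a3)
      have hsub : insert z (Wset ρ par mk z i k) ∪ Wset ρ par mk c k j ⊆ Wset ρ par mk c i j := by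
        intro w hw
        rcases Finset.mem_union.1 hw with hw | hw
        · rcases Finset.mem_insert.1 hw with rfl | hw
          · exact mem_Wset.2 ⟨h2, hzc, hDz, i, le_rfl, hij, h1⟩
          · obtain ⟨a1, a2, a3, l, a4, a5, a6⟩ := mem_Wset.1 hw
            refine mem_Wset.2 ⟨a1, ?_, a3.trans hDz, l, a4, by omega, a6⟩
            intro h
            rw [h] at a3
            have := hd.dep_le a3
            omega
        · obtain ⟨a1, a2, a3, l, a4, a5, a6⟩ := mem_Wset.1 hw
          exact mem_Wset.2 ⟨a1, a2, a3, l, by omega, a5, a6⟩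
      have h5 := Finset.sum_le_sum_of_subset_of_nonneg (f := fun w => dist (p w) (p (par w))) hsub
        fun _ _ _ => dist_nonneg
      rw [Finset.sum_union hdisj] at h5
      linarith

/-- **The induction.** -/
theorem tree_bound (hd : IsDepth ρ par dep) (mk : ℕ → V) {N : ℕ} (hN : 0 < N)
    (hint : ∀ z, z ≠ ρ → ∀ i j k, i < j → j < k → k < N → Desc ρ par (mk i) z →
      Desc ρ par (mk k) z → Desc ρ par (mk j) z)
    (D : ℕ → ℕ → ℂ → ℝ) (Y : Set ℂ) (hY : ∀ v, p v ∈ Y)
    (lip : ∀ i j, ∀ y ∈ Y, ∀ y' ∈ Y, i < j → j ≤ N → D i j y ≤ D i j y' + dist y y')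
    (split : ∀ i j k, ∀ y ∈ Y, i < j → j < k → k ≤ N → D i k y ≤ D i j y + D j k y)
    (leaf : ∀ k < N, D k (k + 1) (p (mk k)) ≤ 0) :
    D 0 N (p ρ) ≤ ∑ v ∈ Finset.univ.erase ρ, dist (p v) (p (par v)) := by
  refine (claim hd mk hint D Y hY lip split leaf (∑ v, dep v)
    (fun v => Finset.single_le_sum (fun _ _ => Nat.zero_le _) (Finset.mem_univ v)) _ ρ rfl _ 0 N
    rfl hN le_rfl fun k _ _ => hd.desc_root _).trans ?_
  refine Finset.sum_le_sum_of_subset_of_nonneg (fun w hw => ?_) fun _ _ _ => dist_nonneg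
  exact Finset.mem_erase.2 ⟨(mem_Wset.1 hw).1, Finset.mem_univ _⟩

end Pool.Agent.W_8c5d11_v22
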