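import Pool.Agent.W_8c5d11_v22.Lim
import Pool.Agent.W_8c5d11_f73.Def

/-!
MP_8c5d11_gt: the horseshoe bound for all `0 < r < R` from the inequality for three parts of an interval
tree.
-/

open Set Metric MeasureTheory Filter Topology
open scoped Real ENNReal NNReal

namespace Pool.Agent.W_8c5d11_v22

open Pool.Agent.W_8c5d11_h73 (hlen)
open Pool.Agent.W_8c5d11_f73 (Gd phi Lam)

variable {R r : ℝ} {n : ℕ} {y : ℂ} {a b l : ℝ}

theorem Gd_nonneg (h : Gd R r n y a b l) : 0 ≤ l := by
  induction h with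
  | leaf _ _ => exact le_rfl
  | mono _ ih => exact ih
  | @ext n y z a b l _ ih => linarith [dist_nonneg (x := y) (y := z)]
  | split _ _ _ _ i1 i2 => linarith

theorem Gd_raise {m : ℕ} (h : Gd R r n y a b l) (hm : n ≤ m) : Gd R r m y a b l := by
  induction hm with
  | refl => exact h
  | step _ ih => exact ih.mono

theorem pt_add_two_pi (R t : ℝ) : pt R (t + 2 * π) = pt R t := by
  apply Complex.ext
  · rw [pt_re, pt_re, Real.cos_add_two_pi]
  · rw [pt_im, pt_im, Real.sin_add_two_pi]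

theorem Gd_shift (h : Gd R r n y a b l) : Gd R r n y (a + 2 * π) (b + 2 * π) l := by
  induction h with
  | leaf h1 h2 =>
    refine Gd.leaf (by linarith) fun t ht => ?_
    have h3 := h2 (t - 2 * π) ⟨by linarith [ht.1], by linarith [ht.2]⟩
    have e : pt R t = pt R (t - 2 * π) := by
      rw [← pt_add_two_pi R (t - 2 * π)]; congr 1; ring
    rwa [e]
  | mono _ ih => exact ih.mono
  | ext _ ih => exact ih.ext
  | split h1 h2 _ _ i1 i2 => exact Gd.split (by linarith) (by linarith) i1 i2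

theorem Gd_unshift (h : Gd R r n y a b l) : Gd R r n y (a - 2 * π) (b - 2 * π) l := by
  induction h with
  | leaf h1 h2 =>
    refine Gd.leaf (by linarith) fun t ht => ?_
    have h3 := h2 (t + 2 * π) ⟨by linarith [ht.1], by linarith [ht.2]⟩
    rwa [pt_add_two_pi] at h3
  | mono _ ih => exact ih.mono
  | ext _ ih => exact ih.ext
  | split h1 h2 _ _ i1 i2 => exact Gd.split (by linarith) (by linarith) i1 i2

/-- the lengths of the interval trees -/
def lens (R r a b : ℝ) (y : ℂ) : Set ℝ := {l | ∃ n, Gd R r n y a b l}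

theorem lens_nonempty (hR : 0 < R) (hr : 0 < r) {a b : ℝ} (hab : a < b) (y : ℂ) :
    (lens R r a b y).Nonempty := by
  have key : ∀ N : ℕ, ∀ a b : ℝ, a < b → b - a ≤ (N + 1) * (r / R) → (lens R r a b y).Nonempty := by
    intro N
    induction N with
    | zero =>
      intro a b hab h
      rw [Nat.cast_zero, zero_add, one_mul] at h
      refine ⟨0 + dist y (pt R a), 1, Gd.ext (Gd.leaf hab fun t ht => ?_)⟩
      refine (dist_pt_le hR.le t a).trans ?_
      rw [abs_of_nonneg (by linarith [ht.1])]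
      have h1 : t - a ≤ r / R := by linarith [ht.2]
      calc R * (t - a) ≤ R * (r / R) := mul_le_mul_of_nonneg_left h1 hR.le
        _ = r := by field_simp
    | succ N ih =>
      intro a b hab h
      have hd : 0 < r / R := by positivity
      by_cases hs : b - a ≤ (N + 1) * (r / R)
      · exact ih a b hab hs
      · have hs' : (N + 1) * (r / R) < b - a := not_le.1 hs
        have h0 : 0 < (N + 1) * (r / R) := by positivity
        obtain ⟨l₁, n₁, g₁⟩ := ih a (a + (N + 1) * (r / R)) (by linarith) (by linarith)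
        have h2 : b - (a + (N + 1) * (r / R)) ≤ (N + 1) * (r / R) := by
          push_cast at h
          have : (0 : ℝ) ≤ N * (r / R) := by positivity
          nlinarith
        obtain ⟨l₂, n₂, g₂⟩ := ih (a + (N + 1) * (r / R)) b (by linarith) h2
        exact ⟨l₁ + l₂, max n₁ n₂ + 1, Gd.split (by linarith) (by linarith)
          (Gd_raise g₁ (le_max_left _ _)) (Gd_raise g₂ (le_max_right _ _))⟩
  obtain ⟨N, hN⟩ := exists_nat_gt ((b - a) / (r / R))
  refine key N a b hab ?_
  rw [div_lt_iff₀ (by positivity)] at hN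
  have : 0 < r / R := by positivity
  linarith

theorem lens_bdd (a b : ℝ) (y : ℂ) : BddBelow (lens R r a b y) :=
  ⟨0, by rintro _ ⟨n, h⟩; exact Gd_nonneg h⟩

/-- The least length of an interval tree is a verification function, if the inequality for three parts
holds. -/
theorem verif_of_top {H : ℝ} (hR : 0 < R) (hr : 0 < r)
    (top : ∀ n m k y a b d l₁ l₂ l₃, Gd R r n y a b l₁ → Gd R r m y b d l₂ →
      Gd R r k y d (a + 2 * π) l₃ → b < a + π → d < b + π → a + π < d → H ≤ l₁ + l₂ + l₃) :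
    Verif R r H fun a b y => sInf (lens R r a b y) where
  lip a b y y' hab _ _ _ := by
    rw [← sub_le_iff_le_add]
    refine le_csInf (lens_nonempty hR hr hab y') ?_
    rintro l ⟨n, h⟩
    rw [sub_le_iff_le_add]
    exact csInf_le (lens_bdd a b y) ⟨n + 1, h.ext⟩
  per a b y := by
    have : lens R r (a + 2 * π) (b + 2 * π) y = lens R r a b y := by
      ext x
      constructor
      · rintro ⟨n, h⟩
        have := Gd_unshift h
        rw [add_sub_cancel_right, add_sub_cancel_right] at this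
        exact ⟨n, this⟩
      · rintro ⟨n, h⟩
        exact ⟨n, Gd_shift h⟩
    simp only [this]
  leaf a b y hab _ _ hcov := csInf_le (lens_bdd a b y) ⟨0, Gd.leaf hab hcov⟩
  split a c b y hac hcb _ _ := by
    have h1 : ∀ l ∈ lens R r a c y, ∀ m ∈ lens R r c b y, sInf (lens R r a b y) ≤ l + m := by
      rintro l ⟨n, g⟩ m ⟨k, g'⟩
      exact csInf_le (lens_bdd a b y) ⟨max n k + 1, Gd.split hac hcb
        (Gd_raise g (le_max_left _ _)) (Gd_raise g' (le_max_right _ _))⟩
    have h2 : ∀ l ∈ lens R r a c y, sInf (lens R r a b y) - l ≤ sInf (lens R r c b y) :=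
      fun l hl => le_csInf (lens_nonempty hR hr hcb y) fun m hm => by linarith [h1 l hl m hm]
    have h3 : sInf (lens R r a b y) - sInf (lens R r c b y) ≤ sInf (lens R r a c y) :=
      le_csInf (lens_nonempty hR hr hac y) fun l hl => by linarith [h2 l hl]
    linarith
  top a b c y hab hbc hca h4 h5 h6 _ := by
    have h1 : ∀ l₁ ∈ lens R r a b y, ∀ l₂ ∈ lens R r b c y, ∀ l₃ ∈ lens R r c (a + 2 * π) y,
        H ≤ l₁ + l₂ + l₃ := by
      rintro l₁ ⟨n, g₁⟩ l₂ ⟨m, g₂⟩ l₃ ⟨k, g₃⟩
      exact top n m k y a b c l₁ l₂ l₃ g₁ g₂ g₃ h4 h5 h6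
    have h2 : ∀ l₁ ∈ lens R r a b y, ∀ l₂ ∈ lens R r b c y,
        H - l₁ - l₂ ≤ sInf (lens R r c (a + 2 * π) y) := fun l₁ hl₁ l₂ hl₂ =>
      le_csInf (lens_nonempty hR hr hca y) fun l₃ hl₃ => by linarith [h1 l₁ hl₁ l₂ hl₂ l₃ hl₃]
    have h3 : ∀ l₁ ∈ lens R r a b y,
        H - l₁ - sInf (lens R r c (a + 2 * π) y) ≤ sInf (lens R r b c y) := fun l₁ hl₁ =>
      le_csInf (lens_nonempty hR hr hbc y) fun l₂ hl₂ => by linarith [h2 l₁ hl₁ l₂ hl₂]
    have h4 : H - sInf (lens R r b c y) - sInf (lens R r c (a + 2 * π) y) ≤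
        sInf (lens R r a b y) :=
      le_csInf (lens_nonempty hR hr hab y) fun l₁ hl₁ => by linarith [h3 l₁ hl₁]
    linarith

theorem Verif.scale {H : ℝ} {d : ℝ → ℝ → ℂ → ℝ} (h : Verif R r H d) {D : ℝ} (hD : 0 < D) :
    Verif (D * R) (D * r) (D * H) fun a b y => D * d a b ((D : ℂ)⁻¹ * y) := by
  have hD' : (D : ℂ) ≠ 0 := Complex.ofReal_ne_zero.2 hD.ne'
  have hn : ‖(D : ℂ)⁻¹‖ = D⁻¹ := by rw [norm_inv, Complex.norm_of_nonneg hD.le]
  have hno : ∀ y : ℂ, ‖y‖ ≤ D * R → ‖(D : ℂ)⁻¹ * y‖ ≤ R := by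
    intro y hy
    rwa [norm_mul, hn, inv_mul_le_iff₀ hD]
  have hdi : ∀ y y' : ℂ, D * dist ((D : ℂ)⁻¹ * y) ((D : ℂ)⁻¹ * y') = dist y y' := by
    intro y y'
    rw [dist_eq_norm, ← mul_sub, norm_mul, hn, ← dist_eq_norm, mul_inv_cancel_left₀ hD.ne']
  refine ⟨?_, ?_, ?_, ?_, ?_⟩
  · intro a b y y' h1 h2 hy hy'
    have h3 := mul_le_mul_of_nonneg_left (h.lip a b _ _ h1 h2 (hno y hy) (hno y' hy')) hD.le
    rw [mul_add, hdi] at h3
    exact h3
  · intro a b y
    simp only [h.per]
  · intro a b y h1 h2 hy hcov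
    refine mul_nonpos_of_nonneg_of_nonpos hD.le (h.leaf a b _ h1 h2 (hno y hy) fun t ht => ?_)
    have h3 := hcov t ht
    have e : pt R t = (D : ℂ)⁻¹ * pt (D * R) t := by
      simp only [pt]; push_cast; field_simp
    rw [← hdi, ← e] at h3
    exact le_of_mul_le_mul_left h3 hD
  · intro a c b y h1 h2 h3 hy
    have h4 := mul_le_mul_of_nonneg_left (h.split a c b _ h1 h2 h3 (hno y hy)) hD.le
    rwa [mul_add] at h4
  · intro a b c y h1 h2 h3 h4 h5 h6 hy
    have h7 := mul_le_mul_of_nonneg_left (h.top a b c _ h1 h2 h3 h4 h5 h6 (hno y hy)) hD.le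
    rwa [mul_add, mul_add] at h7

theorem two_Lam {c : ℝ} (h0 : 0 < c) (h1 : c < π / 2) :
    2 * Lam c = π + 2 * (c + 1 - Real.tan (c / 2)) := by
  have hs : 0 < Real.sin c := Real.sin_pos_of_pos_of_lt_pi h0 (by linarith [Real.pi_pos])
  have hc : 0 < Real.cos (c / 2) := Real.cos_pos_of_mem_Ioo ⟨by linarith, by linarith⟩
  have ht : Real.tan (c / 2) * Real.sin c = 1 - Real.cos c := by
    have e1 : Real.sin c = 2 * Real.sin (c / 2) * Real.cos (c / 2) := by
      rw [← Real.sin_two_mul]; congr 1; ring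
    have e2 : Real.cos c = 1 - 2 * Real.sin (c / 2) ^ 2 := by
      have e3 := Real.cos_two_mul (c / 2)
      have e4 := Real.sin_sq_add_cos_sq (c / 2)
      rw [mul_div_cancel₀ c (two_ne_zero' ℝ)] at e3
      linarith
    rw [e1, e2, Real.tan_eq_sin_div_cos]
    field_simp
    ring
  unfold Lam phi
  rw [← ht, mul_div_cancel_right₀ _ hs.ne']
  ring

/-- **The horseshoe bound for all `0 < r < R` from the inequality for three parts.** -/
theorem bound_of_top
    (top : ∀ c : ℝ, 0 < c → c < π / 2 → ∀ n m k y a b d l₁ l₂ l₃,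
      Pool.Agent.W_8c5d11_f73.GG c n y a b l₁ → Pool.Agent.W_8c5d11_f73.GG c m y b d l₂ →
      Pool.Agent.W_8c5d11_f73.GG c k y d (a + 2 * π) l₃ → b < a + π → d < b + π → a + π < d →
      2 * Lam c ≤ l₁ + l₂ + l₃)
    {R r : ℝ} (hr : 0 < r) (hR : r < R) {S : Set ℂ} (hc : IsCompact S)
    (hS : IsConnected S) (hcov : sphere 0 R ⊆ cthickening r S) :
    ENNReal.ofReal (hlen R r) ≤ μH[1] S := by
  have hR0 : 0 < R := hr.trans hR
  refine verif_limit (H := hlen R) hR0 hr.le (continuous_hlen R).continuousWithinAt ?_ hc hS hcov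
  filter_upwards [Ioo_mem_nhdsGT hR] with r' hr'
  set D := R - r' with hD
  have hD0 : 0 < D := by linarith [hr'.2]
  set b := Real.arcsin (D / R) with hb
  have hx0 : 0 < D / R := div_pos hD0 hR0
  have hx2 : D / R < 1 := by
    rw [div_lt_one hR0]; linarith [hr'.1]
  have hb0 : 0 < b := Real.arcsin_pos.2 hx0
  have hb1 : b < π / 2 := Real.arcsin_lt_pi_div_two.2 hx2
  have hs : Real.sin b = D / R := Real.sin_arcsin (by linarith) hx2.le
  have hs0 : 0 < Real.sin b := by rw [hs]; exact hx0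
  have e2 : D * (1 / Real.sin b) = R := by rw [hs]; field_simp
  have e3 : D * (1 / Real.sin b - 1) = r' := by
    have : D * (1 / Real.sin b - 1) = D * (1 / Real.sin b) - D := by ring
    rw [this, e2]; simp only [hD]; ring
  have h1 : (1 : ℝ) < 1 / Real.sin b := by
    rw [lt_div_iff₀ hs0, hs]; linarith
  have e1 := (verif_of_top (R := 1 / Real.sin b) (r := 1 / Real.sin b - 1) (by linarith)
    (by linarith) (top b hb0 hb1)).scale hD0
  have e4 : D * (2 * Lam b) = hlen R r' := by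
    rw [two_Lam hb0 hb1, hlen_scale hD0 (by linarith [hr'.1]) hb]
    congr 1; simp only [hD]; ring
  rw [e2, e3, e4] at e1
  exact ⟨_, e1⟩

end Pool.Agent.W_8c5d11_v22
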