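import Pool.Agent.W_8c5d11_v22.Fin
import Pool.Agent.W_8c5d11_g83.Ineqs

/-!
MP_8c5d11_gt: the horseshoe bound for all continua, `R ≤ 2 r`.
-/

open Set Metric MeasureTheory
open scoped Real ENNReal

namespace Pool.Agent.W_8c5d11_v22

open Pool.Agent.W_8c5d11_h73 (hlen)

/-- **The horseshoe bound for all continua, `R ≤ 2 r`.** -/
theorem lower_all {R r : ℝ} (hr : 0 < r) (hR : r < R) (h2 : R ≤ 2 * r) {S : Set ℂ}
    (hc : IsCompact S) (hS : IsConnected S) (hcov : sphere 0 R ⊆ cthickening r S) :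
    ENNReal.ofReal (hlen R r) ≤ μH[1] S :=
  lower_full Pool.Agent.W_8c5d11_g83.ineqs hr hR h2 hc hS hcov

end Pool.Agent.W_8c5d11_v22
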