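import Pool.Agent.W_8c5d11_v22.Cross2

/-!
MP_8c5d11_gt: verification functions, and their extension to long intervals of directions.
-/

open Set Metric
open scoped Real

namespace Pool.Agent.W_8c5d11_v22

/-- A verification function for the lower bound `H` on the length of connected sets that come within
distance `r` of each point of the circle of radius `R`: `d a b y` is a lower bound for the length of a
tree which contains `y` and covers the directions of `[a, b]`, `b - a < π`. -/
structure Verif (R r H : ℝ) (d : ℝ → ℝ → ℂ → ℝ) : Prop where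
  lip : ∀ a b y y', a < b → b < a + π → ‖y‖ ≤ R → ‖y'‖ ≤ R → d a b y ≤ d a b y' + dist y y'
  per : ∀ a b y, d (a + 2 * π) (b + 2 * π) y = d a b y
  leaf : ∀ a b y, a < b → b < a + π → ‖y‖ ≤ R → (∀ t ∈ Icc a b, dist (pt R t) y ≤ r) →
    d a b y ≤ 0
  split : ∀ a c b y, a < c → c < b → b < a + π → ‖y‖ ≤ R → d a b y ≤ d a c y + d c b y
  top : ∀ a b c y, a < b → b < c → c < a + 2 * π → b < a + π → c < b + π → a + π < c → ‖y‖ ≤ R →
    H ≤ d a b y + d b c y + d c (a + 2 * π) y

/-- extension of a verification function to all intervals of length at most `2π` -/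
noncomputable def dd (H : ℝ) (d : ℝ → ℝ → ℂ → ℝ) (a b : ℝ) (y : ℂ) : ℝ :=
  if b < a + π then d a b y else if b < a + 2 * π then H - d b (a + 2 * π) y else H

theorem Verif.dd_lip {R r H : ℝ} {d : ℝ → ℝ → ℂ → ℝ} (h : Verif R r H d) {a b : ℝ} {y y' : ℂ}
    (hab : a < b) (hne : b ≠ a + π) (hy : ‖y‖ ≤ R) (hy' : ‖y'‖ ≤ R) :
    dd H d a b y ≤ dd H d a b y' + dist y y' := by
  unfold dd
  split_ifs with h1 h2
  · exact h.lip a b y y' hab h1 hy hy'
  · have h3 : a + π < b := lt_of_le_of_ne (not_lt.1 h1) hne.symm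
    have := h.lip b (a + 2 * π) y' y h2 (by linarith) hy' hy
    rw [dist_comm] at this
    linarith
  · linarith [dist_nonneg (x := y) (y := y')]

theorem Verif.dd_split {R r H : ℝ} {d : ℝ → ℝ → ℂ → ℝ} (h : Verif R r H d) {a c b : ℝ} {y : ℂ}
    (hac : a < c) (hcb : c < b) (hb : b ≤ a + 2 * π) (n1 : b ≠ a + π) (n2 : c ≠ a + π)
    (n3 : b ≠ c + π) (hy : ‖y‖ ≤ R) : dd H d a b y ≤ dd H d a c y + dd H d c b y := by
  have hpi := Real.pi_pos
  unfold dd
  by_cases h1 : b < a + π
  · rw [if_pos h1, if_pos (by linarith), if_pos (by linarith)]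
    exact h.split a c b y hac hcb h1 hy
  have h1' : a + π < b := lt_of_le_of_ne (not_lt.1 h1) n1.symm
  rw [if_neg h1]
  by_cases h2 : c < a + π
  · rw [if_pos h2]
    by_cases h3 : b < c + π
    · rw [if_pos h3]
      by_cases h4 : b < a + 2 * π
      · rw [if_pos h4]
        have := h.top a c b y hac hcb h4 h2 h3 h1' hy
        linarith
      · exfalso; linarith
    · have h3' : c + π < b := lt_of_le_of_ne (not_lt.1 h3) n3.symm
      rw [if_neg h3, if_pos (by linarith : b < c + 2 * π)]
      by_cases h4 : b < a + 2 * π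
      · rw [if_pos h4]
        have h5 := h.split b (a + 2 * π) (c + 2 * π) y h4 (by linarith) (by linarith) hy
        rw [h.per] at h5
        linarith
      · have h5 : b = a + 2 * π := le_antisymm hb (not_lt.1 h4)
        rw [if_neg h4, h5, h.per]
        linarith
  · have h2' : a + π < c := lt_of_le_of_ne (not_lt.1 h2) n2.symm
    rw [if_neg h2, if_pos (by linarith : c < a + 2 * π), if_pos (by linarith : b < c + π)]
    by_cases h4 : b < a + 2 * π
    · rw [if_pos h4]
      have h5 := h.split c b (a + 2 * π) y hcb h4 (by linarith) hy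
      linarith
    · have h5 : b = a + 2 * π := le_antisymm hb (not_lt.1 h4)
      rw [if_neg h4, h5]
      linarith

theorem dist_pt_le {R : ℝ} (hR : 0 ≤ R) (s t : ℝ) : dist (pt R s) (pt R t) ≤ R * |s - t| := by
  have h1 : ‖pt R s - pt R t‖ ^ 2 = 4 * R ^ 2 * Real.sin ((s - t) / 2) ^ 2 := by
    rw [← dt_self]
    simp only [dt, Complex.sub_re, Complex.sub_im, pt_re, pt_im]
    have h2 : Real.cos (s - t) = 1 - 2 * Real.sin ((s - t) / 2) ^ 2 := by
      have e1 := Real.cos_two_mul ((s - t) / 2)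
      have e2 := Real.sin_sq_add_cos_sq ((s - t) / 2)
      rw [mul_div_cancel₀ (s - t) (two_ne_zero' ℝ)] at e1
      linarith
    have h3 := Real.cos_sub s t
    have h4 := Real.sin_sq_add_cos_sq s
    have h5 := Real.sin_sq_add_cos_sq t
    have h6 : (R * Real.cos s - R * Real.cos t) * (R * Real.cos s - R * Real.cos t) +
      (R * Real.sin s - R * Real.sin t) * (R * Real.sin s - R * Real.sin t) =
      R ^ 2 * ((Real.sin s ^ 2 + Real.cos s ^ 2) + (Real.sin t ^ 2 + Real.cos t ^ 2) -
        2 * (Real.cos s * Real.cos t + Real.sin s * Real.sin t)) := by ring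
    rw [h6, h4, h5, ← h3, h2]
    ring
  rw [dist_eq_norm]
  have h2 : |Real.sin ((s - t) / 2)| ≤ |(s - t) / 2| := Real.abs_sin_le_abs
  have h3 : |(s - t) / 2| = |s - t| / 2 := by rw [abs_div, abs_of_pos (two_pos : (0 : ℝ) < 2)]
  rw [h3] at h2
  have h4 : ‖pt R s - pt R t‖ ^ 2 ≤ (R * |s - t|) ^ 2 := by
    rw [h1, ← sq_abs (Real.sin ((s - t) / 2))]
    have h5 : |Real.sin ((s - t) / 2)| ^ 2 ≤ (|s - t| / 2) ^ 2 :=
      pow_le_pow_left₀ (abs_nonneg _) h2 2
    nlinarith [sq_nonneg R]
  exact abs_le_of_sq_le_sq' h4 (by positivity) |>.2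

end Pool.Agent.W_8c5d11_v22
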