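import Pool.Agent.W_8c5d11_v22.Planar
import Pool.Agent.W_8c5d11_v22.Ind
import Pool.Agent.W_8c5d11_v22.Ver
import Pool.Agent.W_8c5d11_h22.L6d

/-!
MP_8c5d11_gt: the lower bound given by a verification function, for continua in the closed disc.
-/

open Set Metric Relation MeasureTheory
open scoped Real ENNReal NNReal

namespace Pool.Agent.W_8c5d11_v22

open Pool.Agent.W_8c5d11_h22

theorem sum_le_wsum {η : ℝ} (l : List (ℂ × ℂ)) (G : Finset (ℂ × ℂ)) (hG : ∀ e ∈ G, e ∈ l) :
    ∑ e ∈ G, edist e.1 e.2 ≤ wsum η univ l := by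
  classical
  induction l generalizing G with
  | nil =>
    have : G = ∅ := by
      rw [Finset.eq_empty_iff_forall_notMem]
      exact fun e he => by simpa using hG e he
    rw [this]; simp
  | cons e l ih =>
    unfold wsum
    rw [if_pos (subset_univ _)]
    by_cases he : e ∈ G
    · rw [← Finset.add_sum_erase G _ he]
      refine add_le_add le_rfl (ih (G.erase e) fun e' he' => ?_)
      obtain ⟨h1, h2⟩ := Finset.mem_erase.1 he'
      rcases List.mem_cons.1 (hG e' h2) with h | h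
      · exact absurd h h1
      · exact h
    · refine (ih G fun e' he' => ?_).trans le_add_self
      rcases List.mem_cons.1 (hG e' he') with h | h
      · exact absurd (h ▸ he') he
      · exact h

/-- The vertices of a discrete tree, as a finite set. -/
theorem exists_node_finset (v0 : ℂ) (l : List (ℂ × ℂ)) :
    ∃ F : Finset ℂ, ∀ z, z ∈ F ↔ IsNode v0 l z := by
  classical
  refine ⟨insert v0 (l.map Prod.fst).toFinset, fun z => ?_⟩
  rw [Finset.mem_insert, List.mem_toFinset, List.mem_map]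
  exact Iff.rfl

theorem reach_root {v0 : ℂ} {L : List (ℂ × ℂ)} {F : Finset ℂ} (hF : ∀ z, z ∈ F ↔ IsNode v0 L z)
    (E : Finset ({z // z ∈ F} × {z // z ∈ F}))
    (hE : ∀ e : {z // z ∈ F} × {z // z ∈ F}, e ∈ E ↔ (e.1.1, e.2.1) ∈ L)
    (hv0 : v0 ∈ F) : ∀ l : List (ℂ × ℂ), (∀ e ∈ l, e ∈ L) → Valid v0 l →
      ∀ z : {z // z ∈ F}, IsNode v0 l z.1 → ReflTransGen (Adjc E) z ⟨v0, hv0⟩ := by
  intro l
  induction l with
  | nil =>
    intro _ _ z hz
    rcases hz with hz | ⟨e, he, _⟩
    · have : z = ⟨v0, hv0⟩ := Subtype.ext hz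
      rw [this]
    · exact absurd he (by simp)
  | cons e l ih =>
    intro hl hv z hz
    obtain ⟨hv1, hv2⟩ := hv
    have hl' : ∀ e ∈ l, e ∈ L := fun e he => hl e (List.mem_cons_of_mem _ he)
    have hpar : IsNode v0 l e.2 := hv1
    have hparF : e.2 ∈ F := by
      rw [hF]
      rcases hpar with h | ⟨e', he', h⟩
      · exact Or.inl h
      · exact Or.inr ⟨e', hl' e' he', h⟩
    have hz' : z.1 = e.1 ∨ IsNode v0 l z.1 := by
      rcases hz with hz | ⟨e', he', hz⟩
      · exact Or.inr (Or.inl hz)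
      · rcases List.mem_cons.1 he' with rfl | h
        · exact Or.inl hz.symm
        · exact Or.inr (Or.inr ⟨e', h, hz⟩)
    rcases hz' with h | h
    · refine ReflTransGen.head (b := ⟨e.2, hparF⟩) (Or.inl ?_) (ih hl' hv2 ⟨e.2, hparF⟩ hpar)
      rw [hE]
      have : ((z.1, e.2) : ℂ × ℂ) = e := Prod.ext h rfl
      simp only
      rw [this]
      exact hl e List.mem_cons_self
    · exact ih hl' hv2 z h

theorem net_bound {R r H : ℝ} {d : ℝ → ℝ → ℂ → ℝ} (h : Verif R r H d) (hR : 0 < R) {S : Set ℂ}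
    (hc : IsCompact S) (hS : IsConnected S) (hfin : μH[1] S ≠ ⊤) (hSR : S ⊆ closedBall 0 R)
    {r₀ : ℝ} (hr : r₀ < r) (hcov : ∀ t : ℝ, ∃ s ∈ S, dist (pt R t) s ≤ r₀) {η : ℝ} (hη : 0 < η)
    (hη' : 2 * η ≤ (r - r₀) / 2) :
    ENNReal.ofReal H ≤ μH[1] S + ENNReal.ofReal η := by
  classical
  have hpi := Real.pi_pos
  obtain ⟨v0, l, hv0, hval, hmem, -, hnear, hw⟩ := exists_net hc hS hfin hη
  obtain ⟨F, hF⟩ := exists_node_finset v0 l
  have hFS : ∀ z ∈ F, z ∈ S := by
    intro z hz
    rcases (hF z).1 hz with rfl | ⟨e, he, rfl⟩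
    · exact hv0
    · exact (hmem e he).1
  have hv0F : v0 ∈ F := (hF v0).2 (Or.inl rfl)
  set V := {z // z ∈ F} with hV
  set p : V → ℂ := Subtype.val with hp
  have hpR : ∀ v : V, ‖p v‖ ≤ R := fun v => mem_closedBall_zero_iff.1 (hSR (hFS v.1 v.2))
  set E : Finset (V × V) := Finset.univ.filter fun e => (e.1.1, e.2.1) ∈ l with hEd
  have hE : ∀ e : V × V, e ∈ E ↔ (e.1.1, e.2.1) ∈ l := by
    intro e
    rw [hEd, Finset.mem_filter]
    exact ⟨fun h => h.2, fun h => ⟨Finset.mem_univ _, h⟩⟩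
  have hreach : ∀ z : V, ReflTransGen (Adjc E) z ⟨v0, hv0F⟩ := fun z =>
    reach_root hF E hE hv0F l (fun _ he => he) hval z ((hF z.1).1 z.2)
  have : Nonempty V := ⟨⟨v0, hv0F⟩⟩
  -- number of marks
  obtain ⟨n, hn⟩ := exists_nat_gt (R * π / ((r - r₀) / 2))
  set N : ℕ := 2 * n + 3 with hN
  have hNpos : (0 : ℝ) < N := by rw [hN]; positivity
  have hrr : 0 < (r - r₀) / 2 := by linarith
  have hNbig : R * π / N ≤ (r - r₀) / 2 := by
    rw [div_le_iff₀ hNpos]
    rw [div_lt_iff₀ hrr] at hn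
    have : (n : ℝ) ≤ N := by rw [hN]; push_cast; linarith [Nat.cast_nonneg (α := ℝ) n]
    nlinarith
  -- marks
  have hmin : ∀ k : ℕ, ∃ v : V, ∀ x : V, dist (pt R (2 * π * k / N)) (p v) ≤
      dist (pt R (2 * π * k / N)) (p x) := fun k =>
    Finite.exists_min fun v : V => dist (pt R (2 * π * k / N)) (p v)
  choose mk hmk using hmin
  have hmkd : ∀ k : ℕ, dist (pt R (2 * π * k / N)) (p (mk k)) ≤ r₀ + 2 * η := by
    intro k
    obtain ⟨s, hs, hds⟩ := hcov (2 * π * k / N)
    obtain ⟨w, hw1, hw2⟩ := hnear s hs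
    have h1 := hmk k ⟨w, (hF w).2 hw1⟩
    have h2 := dist_triangle (pt R (2 * π * k / N)) s w
    simp only [hp] at h1 ⊢
    linarith
  obtain ⟨par, dep, hd, hle, cut⟩ := exists_tree (fun a b : V => dist (p a) (p b))
    (fun a b => dist_comm _ _) (fun a b => dist_nonneg) E (mk 0)
    (fun v => (hreach v).trans (reach_symm (hreach _)))
  have hθ : ∀ i j : ℕ, i < j → 2 * π * (i : ℝ) / N - π / N < 2 * π * (j : ℝ) / N - π / N := by
    intro i j hij
    have : (i : ℝ) < j := by exact_mod_cast hij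
    have := div_lt_div_of_pos_right (by nlinarith : 2 * π * (i : ℝ) < 2 * π * j) hNpos
    linarith
  have hodd : ∀ i j : ℕ, 2 * π * (j : ℝ) / N - π / N ≠ 2 * π * (i : ℝ) / N - π / N + π := by
    intro i j hij
    field_simp at hij
    have h1 : (2 * (j : ℝ)) = 2 * i + N := by linarith
    have h2 : 2 * j = 2 * i + N := by exact_mod_cast h1
    omega
  have hup : ∀ i j : ℕ, j ≤ N →
      2 * π * (j : ℝ) / N - π / N ≤ 2 * π * (i : ℝ) / N - π / N + 2 * π := by
    intro i j hj
    have h1 : (j : ℝ) ≤ N := by exact_mod_cast hj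
    have h2 : 2 * π * (j : ℝ) / N ≤ 2 * π := by
      rw [div_le_iff₀ hNpos]; nlinarith
    have h3 : 0 ≤ 2 * π * (i : ℝ) / N := by positivity
    linarith
  have key := tree_bound (p := p) hd mk (N := N) (by omega)
    (fun z hz i j k hij hjk hk h1 h2 => interval hR Subtype.val_injective hpR hd cut mk rfl
      (fun k _ v => hmk k v) hz hij hjk hk h1 h2)
    (fun i j y => dd H d (2 * π * (i : ℝ) / N - π / N) (2 * π * (j : ℝ) / N - π / N) y)
    {y | ‖y‖ ≤ R} hpR
    (fun i j y hy y' hy' hij hj => h.dd_lip (hθ i j hij) (hodd i j) hy hy')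
    (fun i j k y hy hij hjk hk => h.dd_split (hθ i j hij) (hθ j k hjk) (hup i k hk) (hodd i k)
      (hodd i j) (hodd j k) hy)
    (by
      intro k hk
      have e1 : 2 * π * ((k + 1 : ℕ) : ℝ) / N - π / N = 2 * π * (k : ℝ) / N - π / N + 2 * π / N := by
        push_cast; field_simp; ring
      have e2 : 2 * π / N < π := by
        rw [div_lt_iff₀ hNpos]
        have : (3 : ℝ) ≤ N := by rw [hN]; push_cast; linarith [Nat.cast_nonneg (α := ℝ) n]
        nlinarith
      have e3 : 0 < 2 * π / N := by positivity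
      rw [e1]
      unfold dd
      rw [if_pos (by linarith)]
      refine h.leaf _ _ _ (by linarith) (by linarith) (hpR _) fun t ht => ?_
      have h1 := dist_triangle (pt R t) (pt R (2 * π * k / N)) (p (mk k))
      have h2 := dist_pt_le hR.le t (2 * π * k / N)
      have h3 : |t - 2 * π * k / N| ≤ π / N := by
        rw [abs_le]
        constructor
        · linarith [ht.1]
        · have : 2 * π / N = π / N + π / N := by ring
          linarith [ht.2]
      have h4 : R * |t - 2 * π * k / N| ≤ R * π / N := by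
        have h6 : R * π / N = R * (π / N) := by ring
        rw [h6]
        exact mul_le_mul_of_nonneg_left h3 hR.le
      have h5 := hmkd k
      linarith)
  have hD : dd H d (2 * π * ((0 : ℕ) : ℝ) / N - π / N) (2 * π * (N : ℝ) / N - π / N) (p (mk 0)) =
      H := by
    have e1 : 2 * π * (N : ℝ) / N = 2 * π := by field_simp
    unfold dd
    rw [e1]
    simp only [Nat.cast_zero, mul_zero, zero_div]
    rw [if_neg (by linarith), if_neg (by linarith)]
  rw [hD] at key
  have h1 : H ≤ ∑ e ∈ E, dist (p e.1) (p e.2) := key.trans hle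
  have h2 : ENNReal.ofReal (∑ e ∈ E, dist (p e.1) (p e.2)) ≤ wsum η univ l := by
    rw [ENNReal.ofReal_sum_of_nonneg fun _ _ => dist_nonneg]
    have h3 : ∑ e ∈ E, ENNReal.ofReal (dist (p e.1) (p e.2)) =
        ∑ e ∈ E.image fun e => ((e.1.1, e.2.1) : ℂ × ℂ), edist e.1 e.2 := by
      rw [Finset.sum_image fun a _ b _ hab =>
        Prod.ext (Subtype.ext (Prod.mk.inj hab).1) (Subtype.ext (Prod.mk.inj hab).2)]
      exact Finset.sum_congr rfl fun e _ => (edist_dist _ _).symm
    rw [h3]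
    refine sum_le_wsum l _ fun e he => ?_
    obtain ⟨e', he', rfl⟩ := Finset.mem_image.1 he
    exact (hE e').1 he'
  have h3 := hw univ MeasurableSet.univ
  rw [inter_univ] at h3
  exact (ENNReal.ofReal_le_ofReal h1).trans (h2.trans h3)

end Pool.Agent.W_8c5d11_v22
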