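import Mathlib

/-!
MP_8c5d11_gt: segments that cross can be exchanged for shorter ones.
-/

open Set

namespace Pool.Agent.W_8c5d11_v22

theorem dist_of_mem_segment {q x y : ℂ} (h : q ∈ segment ℝ x y) : dist x q + dist q y = dist x y :=
  dist_add_dist_eq_iff.2 (mem_segment_iff_wbtw.1 h)

theorem mem_segment_of_dist {q x y : ℂ} (h : dist x q + dist q y ≤ dist x y) : q ∈ segment ℝ x y :=
  mem_segment_iff_wbtw.2 (dist_add_dist_eq_iff.1 (le_antisymm h (dist_triangle _ _ _)))

theorem ray_eq {q x y z : ℂ} (hy : q ∈ segment ℝ x y) (hz : q ∈ segment ℝ x z) (hq : q ≠ x)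
    (h : dist x y = dist x z) : y = z := by
  rw [segment_eq_image'] at hy hz
  obtain ⟨s, hs, rfl⟩ := hy
  obtain ⟨t, ht, ht'⟩ := hz
  simp only [ne_eq, add_eq_left, smul_eq_zero, not_or] at hq
  have h1 : t • (z - x) = s • (y - x) := by
    have := ht'
    simpa using this
  have h2 : ‖y - x‖ = ‖z - x‖ := by
    rw [← dist_eq_norm, ← dist_eq_norm, dist_comm y x, dist_comm z x, h]
  have h3 : ‖y - x‖ ≠ 0 := norm_ne_zero_iff.2 hq.2
  have h4 : t = s := by
    have h5 := congrArg norm h1
    rw [norm_smul, norm_smul, Real.norm_of_nonneg ht.1, Real.norm_of_nonneg hs.1, ← h2] at h5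
    exact mul_right_cancel₀ h3 h5
  rw [h4] at h1
  have h6 : z - x = y - x := smul_right_injective ℂ hq.1 h1
  have := sub_left_injective h6
  exact this.symm

/-- Two crossing segments can be exchanged. -/
theorem cross_seg {a b c d q : ℂ} (h1 : q ∈ segment ℝ a b) (h2 : q ∈ segment ℝ c d)
    (h3 : dist a b ≤ dist a d) (h4 : dist c d ≤ dist c b) : a = c ∨ b = d := by
  have e1 := dist_of_mem_segment h1
  have e2 := dist_of_mem_segment h2
  have t1 := dist_triangle a q d
  have t2 := dist_triangle c q b
  have s1 : q ∈ segment ℝ a d := mem_segment_of_dist (by linarith)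
  have s2 : q ∈ segment ℝ c b := mem_segment_of_dist (by linarith)
  by_cases ha : q = a
  · by_cases hc : q = c
    · exact Or.inl (ha.symm.trans hc)
    · exact Or.inr (ray_eq h2 s2 hc (by linarith)).symm
  · exact Or.inr (ray_eq h1 s1 ha (by linarith))

/-- A segment to a nearest point does not cross a short segment. -/
theorem cross_near {a Q c d q : ℂ} (h1 : q ∈ segment ℝ Q a) (h2 : q ∈ segment ℝ c d)
    (h3 : dist Q a ≤ dist Q c) (h4 : dist Q a ≤ dist Q d) (h5 : dist c d ≤ dist c a) :
    a = c ∨ a = d := by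
  have e1 := dist_of_mem_segment h1
  have e2 := dist_of_mem_segment h2
  have t1 := dist_triangle Q q c
  have t2 := dist_triangle Q q d
  have t3 := dist_triangle c q a
  have c1 := dist_comm q c
  have s1 : q ∈ segment ℝ c a := mem_segment_of_dist (by linarith)
  have e3 := dist_of_mem_segment s1
  by_cases hc : q = c
  · left
    have h6 : dist q a ≤ 0 := by
      have : dist q c = 0 := by rw [hc, dist_self]
      linarith
    rw [← hc]
    exact (dist_le_zero.1 h6).symm
  · right
    exact ray_eq s1 h2 hc (by linarith)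

/-- Segments from two different points to nearest points do not cross. -/
theorem cross_two {a b Q Q' q : ℂ} (h1 : q ∈ segment ℝ Q a) (h2 : q ∈ segment ℝ Q' b)
    (h3 : dist Q a ≤ dist Q b) (h4 : dist Q' b ≤ dist Q' a) (hQ : Q ≠ Q') : a = b := by
  have e1 := dist_of_mem_segment h1
  have e2 := dist_of_mem_segment h2
  have t1 := dist_triangle Q q b
  have t2 := dist_triangle Q' q a
  have s1 : q ∈ segment ℝ Q b := mem_segment_of_dist (by linarith)
  have s2 : q ∈ segment ℝ Q' a := mem_segment_of_dist (by linarith)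
  by_cases hc : q = Q
  · have hc' : q ≠ Q' := fun h => hQ (hc.symm.trans h)
    exact (ray_eq h2 s2 hc' (by linarith)).symm
  · exact ray_eq h1 s1 hc (by linarith)

end Pool.Agent.W_8c5d11_v22
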