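import Mathlib

/-!
MP_8c5d11_gt: minimal spanning trees of finite families of points, as parent functions.
-/

open Set Relation

namespace Pool.Agent.W_8c5d11_v22

variable {V : Type*}

/-- one step towards the root `ρ` -/
def Step (ρ : V) (par : V → V) (a b : V) : Prop := a ≠ ρ ∧ par a = b

/-- `a` is a descendant of `c` (possibly `c` itself) -/
def Desc (ρ : V) (par : V → V) (a c : V) : Prop := ReflTransGen (Step ρ par) a c

/-- `dep` is a depth function for the parent function `par` with root `ρ` -/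
def IsDepth (ρ : V) (par : V → V) (dep : V → ℕ) : Prop := ∀ v, v ≠ ρ → dep (par v) + 1 = dep v

/-- adjacency for a set of (unoriented) edges -/
def Adjc (E : Finset (V × V)) (a b : V) : Prop := (a, b) ∈ E ∨ (b, a) ∈ E

theorem Adjc.symm {E : Finset (V × V)} {a b : V} (h : Adjc E a b) : Adjc E b a := Or.symm h

theorem reach_symm {E : Finset (V × V)} {a b : V} (h : ReflTransGen (Adjc E) a b) :
    ReflTransGen (Adjc E) b a := by
  induction h with
  | refl => exact ReflTransGen.refl
  | tail _ h ih => exact ReflTransGen.head h.symm ih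

/-- reachable in `n` steps -/
def Lvl (E : Finset (V × V)) (ρ : V) : ℕ → V → Prop
  | 0, v => v = ρ
  | n + 1, v => ∃ u, Lvl E ρ n u ∧ Adjc E v u

theorem lvl_of_reach {E : Finset (V × V)} {ρ v : V} (h : ReflTransGen (Adjc E) v ρ) :
    ∃ n, Lvl E ρ n v := by
  induction h using ReflTransGen.head_induction_on with
  | refl => exact ⟨0, rfl⟩
  | head h _ ih =>
    obtain ⟨n, hn⟩ := ih
    exact ⟨n + 1, _, hn, h⟩

/-- Breadth first search. -/
theorem exists_parent [DecidableEq V] (E : Finset (V × V)) (ρ : V)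
    (hE : ∀ v, ReflTransGen (Adjc E) v ρ) :
    ∃ (par : V → V) (dep : V → ℕ), IsDepth ρ par dep ∧ ∀ v, v ≠ ρ → Adjc E v (par v) := by
  classical
  have hex : ∀ v, ∃ n, Lvl E ρ n v := fun v => lvl_of_reach (hE v)
  set dep : V → ℕ := fun v => Nat.find (hex v) with hdep
  have hspec : ∀ v, Lvl E ρ (dep v) v := fun v => Nat.find_spec (hex v)
  have hmin : ∀ v n, Lvl E ρ n v → dep v ≤ n := fun v n h => Nat.find_min' (hex v) h
  have key : ∀ v, v ≠ ρ → ∃ u, Adjc E v u ∧ dep u + 1 = dep v := by
    intro v hv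
    have h1 := hspec v
    rcases hd : dep v with _ | m
    · rw [hd] at h1; exact absurd h1 hv
    · rw [hd] at h1
      obtain ⟨u, hu, hvu⟩ := h1
      refine ⟨u, hvu, ?_⟩
      have h2 := hmin u m hu
      have h3 := hmin v (dep u + 1) ⟨u, hspec u, hvu⟩
      omega
  choose! par hpar using key
  exact ⟨par, dep, fun v hv => (hpar v hv).2, fun v hv => (hpar v hv).1⟩

theorem exists_parent_le [Fintype V] [DecidableEq V] (w : V → V → ℝ) (hw : ∀ a b, w a b = w b a)
    (hw0 : ∀ a b, 0 ≤ w a b) (E : Finset (V × V)) (ρ : V) (hE : ∀ v, ReflTransGen (Adjc E) v ρ) :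
    ∃ (par : V → V) (dep : V → ℕ), IsDepth ρ par dep ∧
      ∑ v ∈ Finset.univ.erase ρ, w v (par v) ≤ ∑ e ∈ E, w e.1 e.2 := by
  classical
  obtain ⟨par, dep, hd, ha⟩ := exists_parent E ρ hE
  refine ⟨par, dep, hd, ?_⟩
  set f : V → V × V := fun v => if (v, par v) ∈ E then (v, par v) else (par v, v) with hf
  have hfE : ∀ v ∈ Finset.univ.erase ρ, f v ∈ E := by
    intro v hv
    have hv' := (Finset.mem_erase.1 hv).1
    rw [hf]
    simp only
    split_ifs with h
    · exact h
    · exact (ha v hv').resolve_left h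
  have hfw : ∀ v, w (f v).1 (f v).2 = w v (par v) := by
    intro v
    rw [hf]
    simp only
    split_ifs with h
    · rfl
    · exact hw _ _
  have hinj : Set.InjOn f (Finset.univ.erase ρ : Finset V) := by
    intro a ha' b hb' hab
    have h1 := (Finset.mem_erase.1 (Finset.mem_coe.1 ha')).1
    have h2 := (Finset.mem_erase.1 (Finset.mem_coe.1 hb')).1
    have d1 := hd a h1
    have d2 := hd b h2
    rw [hf] at hab
    simp only at hab
    split_ifs at hab with i1 i2 i2
    · exact (Prod.mk.inj hab).1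
    · obtain ⟨e1, e2⟩ := Prod.mk.inj hab
      rw [e2] at d1
      rw [← e1] at d2
      omega
    · obtain ⟨e1, e2⟩ := Prod.mk.inj hab
      rw [e1] at d1
      rw [← e2] at d2
      omega
    · exact (Prod.mk.inj hab).2
  calc ∑ v ∈ Finset.univ.erase ρ, w v (par v)
      = ∑ v ∈ Finset.univ.erase ρ, w (f v).1 (f v).2 :=
        Finset.sum_congr rfl fun v _ => (hfw v).symm
    _ = ∑ e ∈ (Finset.univ.erase ρ).image f, w e.1 e.2 :=
        (Finset.sum_image (f := fun e : V × V => w e.1 e.2) hinj).symm
    _ ≤ ∑ e ∈ E, w e.1 e.2 := Finset.sum_le_sum_of_subset_of_nonneg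
        (Finset.image_subset_iff.2 hfE) fun e _ _ => hw0 _ _

theorem IsDepth.dep_le {ρ : V} {par : V → V} {dep : V → ℕ} (h : IsDepth ρ par dep) {a c : V}
    (hac : Desc ρ par a c) : dep c ≤ dep a := by
  induction hac with
  | refl => exact le_rfl
  | tail _ h1 ih =>
    obtain ⟨h2, rfl⟩ := h1
    have := h _ h2
    omega

theorem IsDepth.dep_lt {ρ : V} {par : V → V} {dep : V → ℕ} (h : IsDepth ρ par dep) {a c : V}
    (hac : Desc ρ par a c) (hne : a ≠ c) : dep c < dep a := by
  rcases ReflTransGen.cases_head hac with h1 | ⟨b, ⟨h2, h3⟩, h4⟩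
  · exact absurd h1 hne
  · have h5 := h.dep_le h4
    have h6 := h _ h2
    rw [h3] at h6
    omega

theorem Desc.par {ρ : V} {par : V → V} {a c : V} (h : Desc ρ par a c) (hne : a ≠ c) :
    a ≠ ρ ∧ Desc ρ par (par a) c := by
  rcases ReflTransGen.cases_head h with h1 | ⟨b, ⟨h2, h3⟩, h4⟩
  · exact absurd h1 hne
  · rw [h3]; exact ⟨h2, h4⟩

theorem desc_of_par {ρ : V} {par : V → V} {a c : V} (ha : a ≠ ρ) (h : Desc ρ par (par a) c) :
    Desc ρ par a c := ReflTransGen.head ⟨ha, rfl⟩ h

theorem IsDepth.desc_root {ρ : V} {par : V → V} {dep : V → ℕ} (h : IsDepth ρ par dep) (a : V) :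
    Desc ρ par a ρ := by
  induction hn : dep a using Nat.strong_induction_on generalizing a with
  | _ n ih =>
    by_cases ha : a = ρ
    · rw [ha]; exact ReflTransGen.refl
    · have h1 := h a ha
      exact desc_of_par ha (ih (dep (par a)) (by omega) (par a) rfl)

theorem desc_of_root {ρ : V} {par : V → V} {c : V} (h : Desc ρ par ρ c) : c = ρ := by
  by_contra hne
  exact (h.par fun h' => hne h'.symm).1 rfl

/-- **Minimal spanning trees**: among the spanning trees of a finite family with root `ρ` there is one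
with no more weight than a given connected set of edges, such that each edge is the shortest
connection between the two parts into which its removal divides the family. -/
theorem exists_tree [Fintype V] [DecidableEq V] (w : V → V → ℝ) (hw : ∀ a b, w a b = w b a)
    (hw0 : ∀ a b, 0 ≤ w a b) (E : Finset (V × V)) (ρ : V) (hE : ∀ v, ReflTransGen (Adjc E) v ρ) :
    ∃ (par : V → V) (dep : V → ℕ), IsDepth ρ par dep ∧
      ∑ v ∈ Finset.univ.erase ρ, w v (par v) ≤ ∑ e ∈ E, w e.1 e.2 ∧
      ∀ c, c ≠ ρ → ∀ x y, Desc ρ par x c → ¬ Desc ρ par y c → w c (par c) ≤ w x y := by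
  classical
  obtain ⟨par₀, dep₀, hd₀, hle₀⟩ := exists_parent_le w hw hw0 E ρ hE
  obtain ⟨par, ⟨dep, hd⟩, hmin⟩ := Set.exists_min_image {par : V → V | ∃ dep, IsDepth ρ par dep}
    (fun par => ∑ v ∈ Finset.univ.erase ρ, w v (par v)) (Set.toFinite _) ⟨par₀, dep₀, hd₀⟩
  refine ⟨par, dep, hd, (hmin par₀ ⟨dep₀, hd₀⟩).trans hle₀, ?_⟩
  intro c hc x y hx hy
  set E' : Finset (V × V) := insert (x, y)
    (((Finset.univ.erase ρ).erase c).image fun z => (z, par z)) with hE'
  have hstep : ∀ z, z ≠ ρ → z ≠ c → Adjc E' z (par z) := by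
    intro z h1 h2
    left
    rw [hE', Finset.mem_insert, Finset.mem_image]
    exact Or.inr ⟨z, Finset.mem_erase.2 ⟨h2, Finset.mem_erase.2 ⟨h1, Finset.mem_univ _⟩⟩, rfl⟩
  -- vertices outside of the subtree reach the root
  have hout : ∀ n z, dep z = n → ¬ Desc ρ par z c → ReflTransGen (Adjc E') z ρ := by
    intro n
    induction n using Nat.strong_induction_on with
    | _ n ih =>
      intro z hz hzc
      by_cases h1 : z = ρ
      · rw [h1]
      · have h2 : z ≠ c := fun h => hzc (by rw [h]; exact ReflTransGen.refl)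
        have h3 := hd z h1
        exact ReflTransGen.head (hstep z h1 h2)
          (ih (dep (par z)) (by omega) (par z) rfl fun h => hzc (desc_of_par h1 h))
  -- vertices of the subtree reach its top
  have hin : ∀ z, Desc ρ par z c → ReflTransGen (Adjc E') z c := by
    intro z hz
    induction hz using ReflTransGen.head_induction_on with
    | refl => exact ReflTransGen.refl
    | head h1 h2 ih =>
      rename_i a b
      by_cases hac : a = c
      · rw [hac]
      · obtain ⟨h3, h4⟩ := h1
        have := hstep a h3 hac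
        rw [h4] at this
        exact ReflTransGen.head this ih
  have hE'c : ∀ v, ReflTransGen (Adjc E') v ρ := by
    intro v
    by_cases hv : Desc ρ par v c
    · have h1 := (hin v hv).trans (reach_symm (hin x hx))
      have h2 : Adjc E' x y := Or.inl (Finset.mem_insert_self _ _)
      exact (h1.tail h2).trans (hout _ y rfl hy)
    · exact hout _ v rfl hv
  obtain ⟨par', dep', hd', hle'⟩ := exists_parent_le w hw hw0 E' ρ hE'c
  have h1 := hmin par' ⟨dep', hd'⟩
  have h2 : ∑ e ∈ E', w e.1 e.2 ≤ w x y +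
      ∑ z ∈ (Finset.univ.erase ρ).erase c, w z (par z) := by
    have h4 : ∑ e ∈ ((Finset.univ.erase ρ).erase c).image fun z => (z, par z), w e.1 e.2 =
        ∑ z ∈ (Finset.univ.erase ρ).erase c, w z (par z) :=
      Finset.sum_image (f := fun e : V × V => w e.1 e.2)
        fun a _ b _ hab => (Prod.mk.inj hab).1
    by_cases h5 : (x, y) ∈ ((Finset.univ.erase ρ).erase c).image fun z => (z, par z)
    · rw [hE', Finset.insert_eq_of_mem h5, h4]
      linarith [hw0 x y]
    · rw [hE', Finset.sum_insert h5, h4]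
  have h3 : ∑ v ∈ Finset.univ.erase ρ, w v (par v) =
      w c (par c) + ∑ z ∈ (Finset.univ.erase ρ).erase c, w z (par z) :=
    (Finset.add_sum_erase _ _ (Finset.mem_erase.2 ⟨hc, Finset.mem_univ _⟩)).symm
  linarith

end Pool.Agent.W_8c5d11_v22
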