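import Pool.Agent.W_8c5d11_v22.Cross2
import Pool.Agent.W_8c5d11_v22.Seg
import Pool.Agent.W_8c5d11_v22.Tree

/-!
MP_8c5d11_gt: in a minimal spanning tree in a disc, the marks on the circle which are assigned to
their nearest vertices cut out intervals below each vertex.
-/

open Set Metric Relation
open scoped Real

namespace Pool.Agent.W_8c5d11_v22

variable {V : Type*} {p : V → ℂ} {ρ : V} {par : V → V} {dep : V → ℕ}

/-- the cut property of minimal spanning trees -/
def CutProp (p : V → ℂ) (ρ : V) (par : V → V) : Prop :=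
  ∀ c, c ≠ ρ → ∀ x y, Desc ρ par x c → ¬ Desc ρ par y c → dist (p c) (p (par c)) ≤ dist (p x) (p y)

/-- Edges with four different ends do not meet. -/
theorem edge_edge (hp : Function.Injective p) (hd : IsDepth ρ par dep) (cut : CutProp p ρ par)
    {z w : V} (hz : z ≠ ρ) (hw : w ≠ ρ) (h1 : z ≠ w) (h2 : z ≠ par w) (h3 : par z ≠ w)
    (h4 : par z ≠ par w) :
    Disjoint (segment ℝ (p z) (p (par z))) (segment ℝ (p w) (p (par w))) := by
  have notpar : ∀ v, v ≠ ρ → ¬ Desc ρ par (par v) v := fun v hv h => by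
    have := hd.dep_le h
    have := hd v hv
    omega
  -- the nested case
  have nested : ∀ z w : V, z ≠ ρ → w ≠ ρ → z ≠ w → z ≠ par w → par z ≠ w → Desc ρ par z w →
      Disjoint (segment ℝ (p z) (p (par z))) (segment ℝ (p w) (p (par w))) := by
    intro z w hz hw h1 h2 h3 hzw
    rw [Set.disjoint_left]
    intro q hq1 hq2
    have h5 := (hzw.par h1).2
    have h6 : ¬ Desc ρ par w z := fun h => by
      have := hd.dep_le h
      have := hd.dep_lt hzw h1
      omega
    have c1 := cut z hz z w ReflTransGen.refl h6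
    have c2 := cut w hw (par z) (par w) h5 (notpar w hw)
    rw [segment_symm] at hq2
    rcases cross_seg hq1 hq2 c1 (by rw [dist_comm, dist_comm (p (par w)) (p (par z))]; exact c2) with
      h | h
    · exact h2 (hp h)
    · exact h3 (hp h)
  by_cases hzw : Desc ρ par z w
  · exact nested z w hz hw h1 h2 h3 hzw
  by_cases hwz : Desc ρ par w z
  · exact (nested w z hw hz h1.symm h3.symm h2.symm hwz).symm
  rw [Set.disjoint_left]
  intro q hq1 hq2
  have c1 := cut z hz z (par w) ReflTransGen.refl fun h => hwz (desc_of_par hw h)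
  have c2 := cut w hw w (par z) ReflTransGen.refl fun h => hzw (desc_of_par hz h)
  rcases cross_seg hq1 hq2 c1 c2 with h | h
  · exact h1 (hp h)
  · exact h4 (hp h)

/-- The segment from a point to its nearest vertex does not meet the edges which do not contain this
vertex. -/
theorem near_edge (hp : Function.Injective p) (hd : IsDepth ρ par dep) (cut : CutProp p ρ par)
    {v w : V} {Q : ℂ} (hQ : ∀ x, dist Q (p v) ≤ dist Q (p x)) (hw : w ≠ ρ) (h1 : v ≠ w)
    (h2 : v ≠ par w) :
    Disjoint (segment ℝ Q (p v)) (segment ℝ (p w) (p (par w))) := by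
  rw [Set.disjoint_left]
  intro q hq1 hq2
  by_cases hvw : Desc ρ par v w
  · have c1 := cut w hw v (par w) hvw fun h => by
      have := hd.dep_le h
      have := hd w hw
      omega
    rw [segment_symm] at hq2
    rcases cross_near hq1 hq2 (hQ _) (hQ _)
      (by rw [dist_comm, dist_comm (p (par w)) (p v)]; exact c1) with h | h
    · exact h2 (hp h)
    · exact h1 (hp h)
  · have c1 := cut w hw w v ReflTransGen.refl hvw
    rcases cross_near hq1 hq2 (hQ _) (hQ _) c1 with h | h
    · exact h1 (hp h)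
    · exact h2 (hp h)

theorem joined_in {B : Set ℂ} {c : V}
    (hB : ∀ z, z ≠ ρ → z ≠ c → Desc ρ par z c → segment ℝ (p z) (p (par z)) ⊆ B) (hc : p c ∈ B)
    {z : V} (hz : Desc ρ par z c) : JoinedIn B (p z) (p c) := by
  induction hz using ReflTransGen.head_induction_on with
  | refl => exact JoinedIn.refl hc
  | head h1 h2 ih =>
    rename_i a b
    by_cases hac : a = c
    · rw [hac]; exact JoinedIn.refl hc
    · obtain ⟨h3, h4⟩ := h1
      have h5 : Desc ρ par a c := ReflTransGen.head ⟨h3, h4⟩ h2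
      have h6 := hB a h3 hac h5
      rw [h4] at h6
      exact (JoinedIn.of_segment_subset h6).trans ih

theorem joined_out {A : Set ℂ} {c : V} (hd : IsDepth ρ par dep)
    (hA : ∀ z, z ≠ ρ → ¬ Desc ρ par z c → segment ℝ (p z) (p (par z)) ⊆ A) (hρ : p ρ ∈ A)
    {z : V} (hz : ¬ Desc ρ par z c) : JoinedIn A (p z) (p ρ) := by
  induction hn : dep z using Nat.strong_induction_on generalizing z with
  | _ n ih =>
    by_cases h1 : z = ρ
    · rw [h1]; exact JoinedIn.refl hρ
    · have h2 := hd z h1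
      exact (JoinedIn.of_segment_subset (hA z h1 hz)).trans
        (ih (dep (par z)) (by omega) (fun h => hz (desc_of_par h1 h)) rfl)

/-- **Interval lemma.** -/
theorem interval {R : ℝ} (hR : 0 < R) (hp : Function.Injective p) (hpR : ∀ v, ‖p v‖ ≤ R)
    (hd : IsDepth ρ par dep) (cut : CutProp p ρ par) {N : ℕ} (mk : ℕ → V) (hmk : mk 0 = ρ)
    (near : ∀ k < N, ∀ v, dist (pt R (2 * π * k / N)) (p (mk k)) ≤ dist (pt R (2 * π * k / N)) (p v))
    {c : V} (hc : c ≠ ρ) {i j k : ℕ} (hij : i < j) (hjk : j < k) (hkN : k < N)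
    (hi : Desc ρ par (mk i) c) (hk : Desc ρ par (mk k) c) : Desc ρ par (mk j) c := by
  by_contra hj
  have hpi := Real.pi_pos
  have hN : (0 : ℝ) < N := by
    have : 0 < N := by omega
    exact_mod_cast this
  have i0 : 0 < i := by
    rcases Nat.eq_zero_or_pos i with h | h
    · rw [h, hmk] at hi
      exact absurd (desc_of_root hi) hc
    · exact h
  set Q : ℕ → ℂ := fun k => pt R (2 * π * k / N) with hQ
  have hθ : ∀ a b : ℕ, a < b → 2 * π * (a : ℝ) / N < 2 * π * (b : ℝ) / N := by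
    intro a b hab
    have : (a : ℝ) < b := by exact_mod_cast hab
    exact div_lt_div_of_pos_right (by nlinarith) hN
  have hball : ∀ v, p v ∈ closedBall (0 : ℂ) R := fun v => mem_closedBall_zero_iff.2 (hpR v)
  have hQball : ∀ k, Q k ∈ closedBall (0 : ℂ) R := fun k =>
    mem_closedBall_zero_iff.2 (norm_pt hR.le _).le
  have hseg : ∀ a b : ℂ, a ∈ closedBall (0 : ℂ) R → b ∈ closedBall (0 : ℂ) R →
      segment ℝ a b ⊆ closedBall (0 : ℂ) R := fun a b ha hb =>
    (convex_closedBall _ _).segment_subset ha hb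
  -- the outer set
  set A : Set ℂ := segment ℝ (Q 0) (p (mk 0)) ∪ segment ℝ (Q j) (p (mk j)) ∪
    ⋃ z ∈ {z | z ≠ ρ ∧ ¬ Desc ρ par z c}, segment ℝ (p z) (p (par z)) with hA
  set B : Set ℂ := segment ℝ (Q i) (p (mk i)) ∪ segment ℝ (Q k) (p (mk k)) ∪
    ⋃ z ∈ {z | z ≠ ρ ∧ z ≠ c ∧ Desc ρ par z c}, segment ℝ (p z) (p (par z)) with hB
  have hAb : A ⊆ closedBall 0 R := by
    rw [hA]
    refine union_subset (union_subset (hseg _ _ (hQball _) (hball _))
      (hseg _ _ (hQball _) (hball _))) (iUnion₂_subset fun z _ => hseg _ _ (hball _) (hball _))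
  have hBb : B ⊆ closedBall 0 R := by
    rw [hB]
    refine union_subset (union_subset (hseg _ _ (hQball _) (hball _))
      (hseg _ _ (hQball _) (hball _))) (iUnion₂_subset fun z _ => hseg _ _ (hball _) (hball _))
  have A1 : segment ℝ (Q 0) (p (mk 0)) ⊆ A := fun x hx => Or.inl (Or.inl hx)
  have A2 : segment ℝ (Q j) (p (mk j)) ⊆ A := fun x hx => Or.inl (Or.inr hx)
  have A3 : ∀ z, z ≠ ρ → ¬ Desc ρ par z c → segment ℝ (p z) (p (par z)) ⊆ A := fun z h1 h2 x hx =>
    Or.inr (mem_iUnion₂.2 ⟨z, ⟨h1, h2⟩, hx⟩)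
  have B1 : segment ℝ (Q i) (p (mk i)) ⊆ B := fun x hx => Or.inl (Or.inl hx)
  have B2 : segment ℝ (Q k) (p (mk k)) ⊆ B := fun x hx => Or.inl (Or.inr hx)
  have B3 : ∀ z, z ≠ ρ → z ≠ c → Desc ρ par z c → segment ℝ (p z) (p (par z)) ⊆ B :=
    fun z h1 h2 h3 x hx => Or.inr (mem_iUnion₂.2 ⟨z, ⟨h1, h2, h3⟩, hx⟩)
  have hρA : p ρ ∈ A := A1 (by rw [hmk]; exact right_mem_segment ℝ _ _)
  have hcB : p c ∈ B := by
    rcases ReflTransGen.cases_tail hi with h | ⟨b, h1, h2, h3⟩
    · rw [h]; exact B1 (right_mem_segment ℝ _ _)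
    · have h4 : b ≠ c := fun h => by
        have := hd b h2
        rw [h3, h] at this
        omega
      have h5 := B3 b h2 h4 (ReflTransGen.single ⟨h2, h3⟩)
      rw [h3] at h5
      exact h5 (right_mem_segment ℝ _ _)
  have jA : JoinedIn A (Q 0) (Q j) := by
    refine (JoinedIn.of_segment_subset A1).trans ?_
    rw [hmk]
    exact (joined_out hd A3 hρA hj).symm.trans (JoinedIn.of_segment_subset A2).symm
  have jB : JoinedIn B (Q i) (Q k) :=
    ((JoinedIn.of_segment_subset B1).trans (joined_in B3 hcB hi)).trans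
      ((joined_in B3 hcB hk).symm.trans (JoinedIn.of_segment_subset B2).symm)
  obtain ⟨q, hqA, hqB⟩ := crossing hR (t₁ := 2 * π * ((0 : ℕ) : ℝ) / N) (t₂ := 2 * π * (i : ℝ) / N)
    (t₃ := 2 * π * (j : ℝ) / N) (t₄ := 2 * π * (k : ℝ) / N) (hθ 0 i i0) (hθ i j hij) (hθ j k hjk)
    (by
      have h1 : (k : ℝ) < N := by exact_mod_cast hkN
      have h2 : 2 * π * (k : ℝ) / N < 2 * π := by
        rw [div_lt_iff₀ hN]; nlinarith
      simp only [Nat.cast_zero, mul_zero, zero_div, zero_add]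
      exact h2) hAb hBb jA jB
  -- different marks
  have hQne : ∀ a b : ℕ, a < b → b < N → Q a ≠ Q b := by
    intro a b hab hb h
    have h1 := cr_pt R (2 * π * (a : ℝ) / N) (2 * π * (b : ℝ) / N)
      (π + 2 * π * (a : ℝ) / N + π * ((b : ℝ) - a) / N)
    have h2 : pt R (2 * π * (b : ℝ) / N) - pt R (2 * π * (a : ℝ) / N) = 0 := sub_eq_zero.2 h.symm
    rw [h2] at h1
    have h3 : ∀ w : ℂ, cr 0 w = 0 := fun w => by simp [cr]
    rw [h3] at h1
    have hab' : (a : ℝ) < b := by exact_mod_cast hab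
    have hb' : (b : ℝ) < N := by exact_mod_cast hb
    have ha0 : (0 : ℝ) ≤ a := Nat.cast_nonneg a
    have e1 : 0 < π * ((b : ℝ) - a) / N := by
      apply div_pos _ hN; nlinarith
    have e2 : π * ((b : ℝ) - a) / N < π := by
      rw [div_lt_iff₀ hN]; nlinarith
    have s1 : 0 < Real.sin ((2 * π * (b : ℝ) / N - 2 * π * (a : ℝ) / N) / 2) := by
      have : (2 * π * (b : ℝ) / N - 2 * π * (a : ℝ) / N) / 2 = π * ((b : ℝ) - a) / N := by
        field_simp
      rw [this]
      exact Real.sin_pos_of_pos_of_lt_pi e1 e2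
    have s2 : 0 < Real.sin ((π + 2 * π * (a : ℝ) / N + π * ((b : ℝ) - a) / N -
        2 * π * (a : ℝ) / N) / 2) := by
      apply Real.sin_pos_of_pos_of_lt_pi
      · linarith
      · linarith
    have s3 : 0 < Real.sin ((π + 2 * π * (a : ℝ) / N + π * ((b : ℝ) - a) / N -
        2 * π * (b : ℝ) / N) / 2) := by
      have : π + 2 * π * (a : ℝ) / N + π * ((b : ℝ) - a) / N - 2 * π * (b : ℝ) / N =
        π - π * ((b : ℝ) - a) / N := by field_simp; ring
      rw [this]
      apply Real.sin_pos_of_pos_of_lt_pi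
      · linarith
      · linarith
    have : 0 < 4 * R ^ 2 * (Real.sin ((2 * π * (b : ℝ) / N - 2 * π * (a : ℝ) / N) / 2) *
      Real.sin ((π + 2 * π * (a : ℝ) / N + π * ((b : ℝ) - a) / N - 2 * π * (a : ℝ) / N) / 2) *
      Real.sin ((π + 2 * π * (a : ℝ) / N + π * ((b : ℝ) - a) / N - 2 * π * (b : ℝ) / N) / 2)) := by
      positivity
    linarith
  have hne : ∀ z w : V, ¬ Desc ρ par z c → Desc ρ par w c → z ≠ w := fun z w h1 h2 h => h1 (h ▸ h2)
  have h0 : ¬ Desc ρ par (mk 0) c := by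
    rw [hmk]; exact fun h => hc (desc_of_root h)
  -- a segment at an outer mark meets nothing inside
  have outer_mark : ∀ a < N, ¬ Desc ρ par (mk a) c → a ≠ i → a ≠ k →
      q ∉ segment ℝ (Q a) (p (mk a)) := by
    intro a ha hna hai hak hq
    have mm : ∀ b < N, a ≠ b → Desc ρ par (mk b) c → q ∉ segment ℝ (Q b) (p (mk b)) := by
      intro b hb hab hdb hqb
      have hQab : Q a ≠ Q b := by
        rcases lt_or_gt_of_ne hab with h | h
        · exact hQne a b h hb
        · exact (hQne b a h ha).symm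
      exact hne _ _ hna hdb (hp (cross_two hq hqb (near a ha _) (near b hb _) hQab))
    rcases hqB with (hqB | hqB) | hqB
    · exact mm i (by omega) hai hi hqB
    · exact mm k hkN hak hk hqB
    · obtain ⟨z, ⟨hz1, hz2, hz3⟩, hqz⟩ := mem_iUnion₂.1 hqB
      exact (Set.disjoint_left.1 (near_edge hp hd cut (near a ha) hz1 (hne _ _ hna hz3)
        (hne _ _ hna (hz3.par hz2).2))) hq hqz
  rcases hqA with (hqA | hqA) | hqA
  · exact outer_mark 0 (by omega) h0 (by omega) (by omega) hqA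
  · exact outer_mark j (by omega) hj (by omega) (by omega) hqA
  · obtain ⟨w, ⟨hw1, hw2⟩, hqw⟩ := mem_iUnion₂.1 hqA
    have hw3 : ¬ Desc ρ par (par w) c := fun h => hw2 (desc_of_par hw1 h)
    rcases hqB with (hqB | hqB) | hqB
    · exact (Set.disjoint_left.1 (near_edge hp hd cut (near i (by omega)) hw1
        (hne _ _ hw2 hi).symm (hne _ _ hw3 hi).symm)) hqB hqw
    · exact (Set.disjoint_left.1 (near_edge hp hd cut (near k hkN) hw1
        (hne _ _ hw2 hk).symm (hne _ _ hw3 hk).symm)) hqB hqw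
    · obtain ⟨z, ⟨hz1, hz2, hz3⟩, hqz⟩ := mem_iUnion₂.1 hqB
      have hz4 := (hz3.par hz2).2
      exact (Set.disjoint_left.1 (edge_edge hp hd cut hw1 hz1 (hne _ _ hw2 hz3) (hne _ _ hw2 hz4)
        (hne _ _ hw3 hz3) (hne _ _ hw3 hz4))) hqw hqz

end Pool.Agent.W_8c5d11_v22
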