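import Pool.Agent.W_8c5d11_v22.Cert

/-!
MP_8c5d11_gt: scaling of systems of certificates.
-/

open Set Metric
open scoped Real

namespace Pool.Agent.W_8c5d11_v22

/-- the certificates scaled by `D` -/
def scaleC (D : ℝ) (C : ℝ → ℝ → ℂ → ℝ → Prop) (a b : ℝ) (w : ℂ) (v : ℝ) : Prop :=
  ∃ v', C a b w v' ∧ v = D * v'

theorem pt_scale (D R t : ℝ) : pt (D * R) t = (D : ℂ) * pt R t := by
  simp only [pt, Complex.ofReal_mul]; ring

theorem CertSys.scale {R r H B : ℝ} {C : ℝ → ℝ → ℂ → ℝ → Prop} (h : CertSys R r H B C) {D : ℝ}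
    (hD : 0 < D) : CertSys (D * R) (D * r) (D * H) (D * B) (scaleC D C) where
  zero a b := ⟨0, h.zero a b, by ring⟩
  bdd := by
    rintro a b w _ ⟨v', hC, rfl⟩
    exact mul_le_mul_of_nonneg_left (h.bdd a b w v' hC) hD.le
  norm := by
    rintro a b w _ ⟨v', hC, rfl⟩
    exact h.norm a b w v' hC
  per a b w v := by
    unfold scaleC
    simp only [h.per]
  leaf := by
    rintro a b w _ y hab hb hy hcov ⟨v', hC, rfl⟩
    have hD' : (D : ℂ) ≠ 0 := Complex.ofReal_ne_zero.2 hD.ne'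
    obtain ⟨x, rfl⟩ : ∃ x, y = (D : ℂ) * x := ⟨(D : ℂ)⁻¹ * y, by field_simp⟩
    have h1 : ‖x‖ ≤ R := by
      rw [norm_mul, Complex.norm_of_nonneg hD.le] at hy
      exact le_of_mul_le_mul_left hy hD
    have h2 : ∀ t ∈ Icc a b, dist (pt R t) x ≤ r := by
      intro t ht
      have h3 := hcov t ht
      rw [pt_scale, dist_eq_norm, ← mul_sub, norm_mul, Complex.norm_of_nonneg hD.le,
        ← dist_eq_norm] at h3
      exact le_of_mul_le_mul_left h3 hD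
    have h3 := h.leaf a b w v' x hab hb h1 h2 hC
    have h4 : dt w ((D : ℂ) * x) = D * dt w x := by
      simp only [dt, Complex.re_ofReal_mul, Complex.im_ofReal_mul]; ring
    rw [h4]
    exact mul_le_mul_of_nonneg_left h3 hD.le
  split := by
    rintro a c b w _ hac hcb hb ⟨v', hC, rfl⟩
    obtain ⟨w', v₁, w'', v₂, c1, c2, hw, hv⟩ := h.split a c b w v' hac hcb hb hC
    refine ⟨w', D * v₁, w'', D * v₂, ⟨v₁, c1, rfl⟩, ⟨v₂, c2, rfl⟩, hw, ?_⟩
    rw [← mul_add]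
    exact mul_le_mul_of_nonneg_left hv hD.le
  top := by
    intro a b c h1 h2 h3 h4 h5 h6
    obtain ⟨w₁, v₁, w₂, v₂, w₃, v₃, c1, c2, c3, hw, hv⟩ := h.top a b c h1 h2 h3 h4 h5 h6
    refine ⟨w₁, D * v₁, w₂, D * v₂, w₃, D * v₃, ⟨v₁, c1, rfl⟩, ⟨v₂, c2, rfl⟩, ⟨v₃, c3, rfl⟩, hw, ?_⟩
    rw [← mul_add, ← mul_add]
    exact mul_le_mul_of_nonneg_left hv hD.le

end Pool.Agent.W_8c5d11_v22
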