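import Pool.Agent.W_8c5d11_v22.StrictU
import Pool.Agent.W_8c5d11_v22.Inst
import Pool.Agent.W_8c5d11_w65.Def

/-!
MP_8c5d11_gt: strict inequality for continua which meet the open disc of radius `R - r`, for all
`0 < r < R`, from the inequality for three parts of an interval tree with a weighted length.
-/

open Set Metric MeasureTheory Filter Topology
open scoped Real ENNReal NNReal

namespace Pool.Agent.W_8c5d11_v22

open Pool.Agent.W_8c5d11_h73 (hlen)
open Pool.Agent.W_8c5d11_f73 (phi Lam)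
open Pool.Agent.W_8c5d11_w65 (Wd GP kp)

/-- the scaled function of a verification function with a potential -/
theorem VerifU.scale {R r H : ℝ} {G : ℂ → ℝ} {d : ℝ → ℝ → ℂ → ℝ} (h : VerifU R r H G d) {D : ℝ}
    (hD : 0 < D) : VerifU (D * R) (D * r) (D * H) (fun y => D * G ((D : ℂ)⁻¹ * y))
      fun a b y => D * d a b ((D : ℂ)⁻¹ * y) := by
  have hD' : (D : ℂ) ≠ 0 := Complex.ofReal_ne_zero.2 hD.ne'
  have hn : ‖(D : ℂ)⁻¹‖ = D⁻¹ := by rw [norm_inv, Complex.norm_of_nonneg hD.le]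
  have hno : ∀ y : ℂ, ‖y‖ ≤ D * R → ‖(D : ℂ)⁻¹ * y‖ ≤ R := by
    intro y hy
    rwa [norm_mul, hn, inv_mul_le_iff₀ hD]
  have hdi : ∀ y y' : ℂ, D * dist ((D : ℂ)⁻¹ * y) ((D : ℂ)⁻¹ * y') = dist y y' := by
    intro y y'
    rw [dist_eq_norm, ← mul_sub, norm_mul, hn, ← dist_eq_norm, mul_inv_cancel_left₀ hD.ne']
  have hab : ∀ u v : ℝ, |D * u - D * v| = D * |u - v| := by
    intro u v
    rw [← mul_sub, abs_mul, abs_of_pos hD]
  refine ⟨?_, ?_, ?_, ?_, ?_, ?_⟩
  · intro a b y y' h1 h2 hy hy'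
    have h3 := mul_le_mul_of_nonneg_left (h.lip a b _ _ h1 h2 (hno y hy) (hno y' hy')) hD.le
    rw [mul_add, mul_sub, hdi, ← hab] at h3
    exact h3
  · intro y y'
    rw [hab, ← hdi]
    exact mul_le_mul_of_nonneg_left (h.pot _ _) hD.le
  · intro a b y
    simp only [h.per]
  · intro a b y h1 h2 hy hcov
    refine mul_nonpos_of_nonneg_of_nonpos hD.le (h.leaf a b _ h1 h2 (hno y hy) fun t ht => ?_)
    have h3 := hcov t ht
    have e : pt R t = (D : ℂ)⁻¹ * pt (D * R) t := by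
      simp only [pt]; push_cast; field_simp
    rw [← hdi, ← e] at h3
    exact le_of_mul_le_mul_left h3 hD
  · intro a c b y h1 h2 h3 hy
    have h4 := mul_le_mul_of_nonneg_left (h.split a c b _ h1 h2 h3 (hno y hy)) hD.le
    rwa [mul_add] at h4
  · intro a b c y h1 h2 h3 h4 h5 h6 hy
    have h7 := mul_le_mul_of_nonneg_left (h.top a b c _ h1 h2 h3 h4 h5 h6 (hno y hy)) hD.le
    rwa [mul_add, mul_add] at h7

variable {c : ℝ} {n : ℕ} {y : ℂ} {a b l k : ℝ}

theorem Wd_nonneg (pot : ∀ z z' : ℂ, |GP c z - GP c z'| ≤ dist z z') (h : Wd c n y a b l k) :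
    0 ≤ k := by
  induction h with
  | leaf _ _ _ => exact le_rfl
  | mono _ ih => exact ih
  | @ext n y z a b l k _ _ ih => linarith [pot y z]
  | split _ _ _ _ i1 i2 => linarith

theorem Wd_shift (h : Wd c n y a b l k) : Wd c n y (a + 2 * π) (b + 2 * π) l k := by
  induction h with
  | leaf h1 h0 h2 =>
    refine Wd.leaf (by linarith) h0 fun t ht => ?_
    have h3 := h2 (t - 2 * π) ⟨by linarith [ht.1], by linarith [ht.2]⟩
    have e : pt (1 / Real.sin c) t = pt (1 / Real.sin c) (t - 2 * π) := by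
      rw [← pt_add_two_pi _ (t - 2 * π)]; congr 1; ring
    rwa [e]
  | mono _ ih => exact ih.mono
  | ext h0 _ ih => exact ih.ext h0
  | split h1 h2 _ _ i1 i2 => exact Wd.split (by linarith) (by linarith) i1 i2

theorem Wd_unshift (h : Wd c n y a b l k) : Wd c n y (a - 2 * π) (b - 2 * π) l k := by
  induction h with
  | leaf h1 h0 h2 =>
    refine Wd.leaf (by linarith) h0 fun t ht => ?_
    have h3 := h2 (t + 2 * π) ⟨by linarith [ht.1], by linarith [ht.2]⟩
    rwa [pt_add_two_pi] at h3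
  | mono _ ih => exact ih.mono
  | ext h0 _ ih => exact ih.ext h0
  | split h1 h2 _ _ i1 i2 => exact Wd.split (by linarith) (by linarith) i1 i2

/-- the weighted lengths of the interval trees -/
def lensW (c a b : ℝ) (y : ℂ) : Set ℝ := {k | ∃ n l, Wd c n y a b l k}

theorem lensW_nonempty (h0 : 0 < c) (h1 : c < π / 2) {a b : ℝ} (hab : a < b) {y : ℂ}
    (hy : ‖y‖ ≤ 1 / Real.sin c) : (lensW c a b y).Nonempty := by
  have hs : 0 < Real.sin c := Real.sin_pos_of_pos_of_lt_pi h0 (by linarith [Real.pi_pos])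
  have hs1 : Real.sin c < 1 := by
    rw [← Real.sin_pi_div_two]
    exact Real.sin_lt_sin_of_lt_of_le_pi_div_two (by linarith) le_rfl h1
  set R := 1 / Real.sin c with hRd
  have hR : 0 < R := by positivity
  have hR1 : 1 < R := by
    rw [hRd, lt_div_iff₀ hs]; linarith
  set r := R - 1 with hrd
  have hr : 0 < r := by linarith
  have key : ∀ N : ℕ, ∀ a b : ℝ, a < b → b - a ≤ (N + 1) * (r / R) → (lensW c a b y).Nonempty := by
    intro N
    induction N with
    | zero =>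
      intro a b hab h
      rw [Nat.cast_zero, zero_add, one_mul] at h
      refine ⟨_, 1, _, Wd.ext (z := pt R a) hy (Wd.leaf hab (by rw [norm_pt hR.le]) fun t ht => ?_)⟩
      refine (dist_pt_le hR.le t a).trans ?_
      rw [abs_of_nonneg (by linarith [ht.1])]
      have h1 : t - a ≤ r / R := by linarith [ht.2]
      calc R * (t - a) ≤ R * (r / R) := mul_le_mul_of_nonneg_left h1 hR.le
        _ = r := by field_simp
    | succ N ih =>
      intro a b hab h
      have hd : 0 < r / R := by positivity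
      by_cases hs : b - a ≤ (N + 1) * (r / R)
      · exact ih a b hab hs
      · have hs' : (N + 1) * (r / R) < b - a := not_le.1 hs
        have h0 : 0 < (N + 1) * (r / R) := by positivity
        obtain ⟨k₁, n₁, l₁, g₁⟩ := ih a (a + (N + 1) * (r / R)) (by linarith) (by linarith)
        have h2 : b - (a + (N + 1) * (r / R)) ≤ (N + 1) * (r / R) := by
          push_cast at h
          have : (0 : ℝ) ≤ N * (r / R) := by positivity
          nlinarith
        obtain ⟨k₂, n₂, l₂, g₂⟩ := ih (a + (N + 1) * (r / R)) b (by linarith) h2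
        exact ⟨k₁ + k₂, max n₁ n₂ + 1, l₁ + l₂, Wd.split (by linarith) (by linarith)
          (g₁.up (le_max_left _ _)) (g₂.up (le_max_right _ _))⟩
  obtain ⟨N, hN⟩ := exists_nat_gt ((b - a) / (r / R))
  refine key N a b hab ?_
  rw [div_lt_iff₀ (by positivity)] at hN
  have : 0 < r / R := by positivity
  linarith

theorem lensW_bdd (pot : ∀ z z' : ℂ, |GP c z - GP c z'| ≤ dist z z') (a b : ℝ) (y : ℂ) :
    BddBelow (lensW c a b y) :=
  ⟨0, by rintro _ ⟨n, l, h⟩; exact Wd_nonneg pot h⟩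

/-- The least weighted length of an interval tree is a verification function with a potential. -/
theorem verifW_of_top (h0 : 0 < c) (h1 : c < π / 2)
    (pot : ∀ z z' : ℂ, |GP c z - GP c z'| ≤ dist z z') {H : ℝ}
    (top : ∀ n m p y a b d l₁ l₂ l₃ k₁ k₂ k₃, Wd c n y a b l₁ k₁ → Wd c m y b d l₂ k₂ →
      Wd c p y d (a + 2 * π) l₃ k₃ → b < a + π → d < b + π → a + π < d → H ≤ k₁ + k₂ + k₃) :
    VerifU (1 / Real.sin c) (1 / Real.sin c - 1) H (GP c) fun a b y => sInf (lensW c a b y) where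
  pot := pot
  lip a b y y' hab _ hy hy' := by
    rw [← sub_le_iff_le_add]
    refine le_csInf (lensW_nonempty h0 h1 hab hy') ?_
    rintro k ⟨n, l, h⟩
    rw [sub_le_iff_le_add]
    exact csInf_le (lensW_bdd pot a b y) ⟨n + 1, _, h.ext hy⟩
  per a b y := by
    have : lensW c (a + 2 * π) (b + 2 * π) y = lensW c a b y := by
      ext x
      constructor
      · rintro ⟨n, l, h⟩
        have := Wd_unshift h
        rw [add_sub_cancel_right, add_sub_cancel_right] at this
        exact ⟨n, l, this⟩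
      · rintro ⟨n, l, h⟩
        exact ⟨n, l, Wd_shift h⟩
    simp only [this]
  leaf a b y hab _ hy hcov := csInf_le (lensW_bdd pot a b y) ⟨0, 0, Wd.leaf hab hy hcov⟩
  split a c' b y hac hcb _ hy := by
    have h1' : ∀ l ∈ lensW c a c' y, ∀ m ∈ lensW c c' b y, sInf (lensW c a b y) ≤ l + m := by
      rintro l ⟨n, x, g⟩ m ⟨k, x', g'⟩
      exact csInf_le (lensW_bdd pot a b y) ⟨max n k + 1, _, Wd.split hac hcb
        (g.up (le_max_left _ _)) (g'.up (le_max_right _ _))⟩
    have h2 : ∀ l ∈ lensW c a c' y, sInf (lensW c a b y) - l ≤ sInf (lensW c c' b y) :=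
      fun l hl => le_csInf (lensW_nonempty h0 h1 hcb hy) fun m hm => by linarith [h1' l hl m hm]
    have h3 : sInf (lensW c a b y) - sInf (lensW c c' b y) ≤ sInf (lensW c a c' y) :=
      le_csInf (lensW_nonempty h0 h1 hac hy) fun l hl => by linarith [h2 l hl]
    linarith
  top a b d y hab hbc hca h4 h5 h6 hy := by
    have h1' : ∀ l₁ ∈ lensW c a b y, ∀ l₂ ∈ lensW c b d y, ∀ l₃ ∈ lensW c d (a + 2 * π) y,
        H ≤ l₁ + l₂ + l₃ := by
      rintro l₁ ⟨n, x₁, g₁⟩ l₂ ⟨m, x₂, g₂⟩ l₃ ⟨k, x₃, g₃⟩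
      exact top n m k y a b d _ _ _ l₁ l₂ l₃ g₁ g₂ g₃ h4 h5 h6
    have h2 : ∀ l₁ ∈ lensW c a b y, ∀ l₂ ∈ lensW c b d y,
        H - l₁ - l₂ ≤ sInf (lensW c d (a + 2 * π) y) := fun l₁ hl₁ l₂ hl₂ =>
      le_csInf (lensW_nonempty h0 h1 hca hy) fun l₃ hl₃ => by linarith [h1' l₁ hl₁ l₂ hl₂ l₃ hl₃]
    have h3 : ∀ l₁ ∈ lensW c a b y,
        H - l₁ - sInf (lensW c d (a + 2 * π) y) ≤ sInf (lensW c b d y) := fun l₁ hl₁ =>
      le_csInf (lensW_nonempty h0 h1 hbc hy) fun l₂ hl₂ => by linarith [h2 l₁ hl₁ l₂ hl₂]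
    have h4 : H - sInf (lensW c b d y) - sInf (lensW c d (a + 2 * π) y) ≤
        sInf (lensW c a b y) :=
      le_csInf (lensW_nonempty h0 h1 hab hy) fun l₁ hl₁ => by linarith [h3 l₁ hl₁]
    linarith

/-- the scaled potential -/
noncomputable def potW (R z r : ℝ) : ℝ :=
  (R - r) * (((R - r) / R) ^ 3 / 100000 / 48 * max 0 (1 - (z / (R - r)) ^ 2) ^ 3)

theorem potW_eq {R r b : ℝ} (hD : 0 < R - r) (hs : Real.sin b = (R - r) / R) (z : ℂ) :
    (R - r) * GP b ((((R - r : ℝ) : ℂ))⁻¹ * z) = potW R ‖z‖ r := by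
  unfold GP kp potW
  rw [hs, norm_mul, norm_inv, Complex.norm_of_nonneg hD.le, inv_mul_eq_div]

theorem potW_continuousAt {R r : ℝ} (z : ℝ) (hD : 0 < R - r) :
    ContinuousAt (fun r => potW R z r) r := by
  unfold potW
  have h1 : ContinuousAt (fun r : ℝ => R - r) r := by fun_prop
  have h2 : ContinuousAt (fun r : ℝ => z / (R - r)) r := continuousAt_const.div h1 hD.ne'
  have h3 : ContinuousAt (fun r : ℝ => max 0 (1 - (z / (R - r)) ^ 2)) r :=
    continuousAt_const.max (continuousAt_const.sub (h2.pow 2))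
  exact h1.mul ((((h1.div_const R).pow 3).div_const 100000).div_const 48 |>.mul (h3.pow 3))

/-- **Quantitative lower bound for continua with a point `z₀` in the closed disc, for all
`0 < r < R`, from the inequality for three parts.** -/
theorem quant_of_top
    (pot : ∀ c : ℝ, 0 < c → c < π / 2 → ∀ z z' : ℂ, |GP c z - GP c z'| ≤ dist z z')
    (top : ∀ c : ℝ, 0 < c → c < π / 2 → ∀ n m p y a b d l₁ l₂ l₃ k₁ k₂ k₃,
      Wd c n y a b l₁ k₁ → Wd c m y b d l₂ k₂ → Wd c p y d (a + 2 * π) l₃ k₃ →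
      b < a + π → d < b + π → a + π < d → 2 * Lam c ≤ k₁ + k₂ + k₃)
    {R r : ℝ} (hr : 0 < r) (hR : r < R) {S : Set ℂ} (hc : IsCompact S)
    (hS : IsConnected S) (hcov : sphere 0 R ⊆ cthickening r S) {z₀ : ℂ} (hz₀ : z₀ ∈ S)
    (hz : ‖z₀‖ ≤ R) :
    ENNReal.ofReal (hlen R r +
      (R - r) * (((R - r) / R) ^ 3 / 100000 / 48 * max 0 (1 - (‖z₀‖ / (R - r)) ^ 2) ^ 3)) ≤
      μH[1] S := by
  have hR0 : 0 < R := hr.trans hR
  have hD0 : 0 < R - r := by linarith
  have hcov' : ∀ t : ℝ, ∃ s ∈ S, dist (pt R t) s ≤ r := by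
    intro t
    have h1 : pt R t ∈ sphere (0 : ℂ) R := by
      rw [mem_sphere_zero_iff_norm, norm_pt hR0.le]
    have h2 := hcov h1
    rw [hc.cthickening_eq_biUnion_closedBall hr.le] at h2
    obtain ⟨s, hs, hds⟩ := mem_iUnion₂.1 h2
    exact ⟨s, hs, hds⟩
  have h1 : ∀ᶠ r' in 𝓝[>] r, ENNReal.ofReal (hlen R r' + potW R ‖z₀‖ r') ≤ μH[1] S := by
    filter_upwards [Ioo_mem_nhdsGT hR] with r' hr'
    set D := R - r' with hD
    have hD' : 0 < D := by linarith [hr'.2]
    set b := Real.arcsin (D / R) with hb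
    have hx0 : 0 < D / R := div_pos hD' hR0
    have hx2 : D / R < 1 := by
      rw [div_lt_one hR0]; linarith [hr'.1]
    have hb0 : 0 < b := Real.arcsin_pos.2 hx0
    have hb1 : b < π / 2 := Real.arcsin_lt_pi_div_two.2 hx2
    have hs : Real.sin b = D / R := Real.sin_arcsin (by linarith) (by linarith)
    have e1 := (verifW_of_top hb0 hb1 (pot b hb0 hb1) (top b hb0 hb1)).scale hD'
    have e2 : D * (1 / Real.sin b) = R := by rw [hs]; field_simp
    have e3 : D * (1 / Real.sin b - 1) = r' := by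
      have : D * (1 / Real.sin b - 1) = D * (1 / Real.sin b) - D := by ring
      rw [this, e2]; simp only [hD]; ring
    have e4 : D * (2 * Lam b) = hlen R r' := by
      rw [two_Lam hb0 hb1, hlen_scale hD' (by linarith [hr'.1]) hb]
      congr 1; simp only [hD]; ring
    rw [e2, e3, e4] at e1
    have e5 := verif_boundU e1 hR0 (by
      intro z hz'
      have e6 : 1 ≤ ‖(D : ℂ)⁻¹ * z‖ := by
        rw [norm_mul, norm_inv, Complex.norm_of_nonneg hD'.le, inv_mul_eq_div, le_div_iff₀ hD']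
        linarith
      have e7 : max 0 (1 - ‖(D : ℂ)⁻¹ * z‖ ^ 2) = 0 := max_eq_left (by nlinarith)
      simp only [GP, e7]
      norm_num) hc hS hr'.1 hcov' hz₀ hz
    rw [← potW_eq (b := b) hD' hs z₀]
    exact e5
  have h3 : ContinuousAt (fun r' => hlen R r' + potW R ‖z₀‖ r') r :=
    (continuous_hlen R).continuousAt.add (potW_continuousAt _ hD0)
  have h4 : Tendsto (fun r' => ENNReal.ofReal (hlen R r' + potW R ‖z₀‖ r')) (𝓝[>] r)
      (𝓝 (ENNReal.ofReal (hlen R r + potW R ‖z₀‖ r))) :=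
    (ENNReal.continuous_ofReal.tendsto _).comp (h3.tendsto.mono_left nhdsWithin_le_nhds)
  exact le_of_tendsto h4 h1

/-- **Strict inequality for continua which meet the open disc, for all `0 < r < R`, from the
inequality for three parts.** -/
theorem strict_of_top
    (pot : ∀ c : ℝ, 0 < c → c < π / 2 → ∀ z z' : ℂ, |GP c z - GP c z'| ≤ dist z z')
    (top : ∀ c : ℝ, 0 < c → c < π / 2 → ∀ n m p y a b d l₁ l₂ l₃ k₁ k₂ k₃,
      Wd c n y a b l₁ k₁ → Wd c m y b d l₂ k₂ → Wd c p y d (a + 2 * π) l₃ k₃ →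
      b < a + π → d < b + π → a + π < d → 2 * Lam c ≤ k₁ + k₂ + k₃)
    {R r : ℝ} (hr : 0 < r) (hR : r < R) {S : Set ℂ} (hc : IsCompact S)
    (hS : IsConnected S) (hcov : sphere 0 R ⊆ cthickening r S) {z₀ : ℂ} (hz₀ : z₀ ∈ S)
    (hz : ‖z₀‖ < R - r) : ENNReal.ofReal (hlen R r) < μH[1] S := by
  have hR0 : 0 < R := hr.trans hR
  have hD0 : 0 < R - r := by linarith
  have h5 := quant_of_top pot top hr hR hc hS hcov hz₀ (by linarith)
  have h6 : 0 < (R - r) *
      (((R - r) / R) ^ 3 / 100000 / 48 * max 0 (1 - (‖z₀‖ / (R - r)) ^ 2) ^ 3) := by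
    have h7 : ‖z₀‖ / (R - r) < 1 := by rwa [div_lt_one hD0]
    have h8 : 0 ≤ ‖z₀‖ / (R - r) := by positivity
    have h9 : 0 < 1 - (‖z₀‖ / (R - r)) ^ 2 := by nlinarith
    have h10 : 0 < max 0 (1 - (‖z₀‖ / (R - r)) ^ 2) := lt_max_of_lt_right h9
    positivity
  refine lt_of_lt_of_le ?_ h5
  rw [ENNReal.ofReal_lt_ofReal_iff (by linarith [hlen_nonneg hr hR])]
  linarith

end Pool.Agent.W_8c5d11_v22
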