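import Pool.Agent.W_8c5d11_v22.TopC
import Pool.Agent.W_8c5d11_v22.I3

/-!
MP_8c5d11_gt: the fields `zero`, `bdd`, `norm`, `per`, `top` of `CertSys` for the certificates of
`W_8c5d11_h65.Def`.
-/

open Set Metric
open scoped Real

namespace Pool.Agent.W_8c5d11_v22

open Pool.Agent.W_8c5d11_h65 (cb hb hb_soft hb_le vF cb_le cb_gt_one)

theorem norm_C {b x y : ℝ} {w : ℂ} {v : ℝ} (h : W_8c5d11_h65.C b x y w v) : ‖w‖ ≤ 1 := by
  rcases h with ⟨rfl, _⟩ | ⟨s₁, s₂, w₁, w₂, _, _, _, _, _, h6, h7, _⟩ |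
    ⟨g, d, σ, _, _, _, _, _, _, h7, _⟩ | ⟨g, d, σ, _, _, _, _, _, _, h7, _⟩
  · simp
  · rw [h7]; exact h6
  · rw [h7, norm_pt zero_le_one]
  · rw [h7, norm_pt zero_le_one]

theorem vF_le {b m σ : ℝ} (hb0 : 0 < b) (hb1 : b ≤ π / 6) (h1 : σ ≤ π / 6)
    (_ : π / 2 - b - σ ≤ m) (h3 : m ≤ π - 2 * σ) (h0 : 0 ≤ σ) : vF b m σ ≤ 5 := by
  have hpi := Real.pi_pos
  have hpi4 := Real.pi_lt_d2
  have h4 := cb_le hb0 hb1
  have h5 := cb_gt_one hb0 hb1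
  have h6 := sqrt3_bd.2
  have h7 := Real.sin_le_one σ
  have h8 := Real.cos_le_one σ
  have h9 : 0 ≤ Real.cos σ := Real.cos_nonneg_of_mem_Icc ⟨by linarith, by linarith⟩
  unfold vF
  have h10 : (m - π / 2 + cb b) * Real.cos σ ≤ 4 * 1 := by
    refine mul_le_mul ?_ h8 h9 (by norm_num)
    norm_num at hpi4
    linarith
  linarith

theorem bdd_C {b x y : ℝ} {w : ℂ} {v : ℝ} (hb0 : 0 < b) (hb1 : b ≤ π / 6)
    (h : W_8c5d11_h65.C b x y w v) : v ≤ 5 := by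
  rcases h with ⟨_, h2⟩ | ⟨s₁, s₂, w₁, w₂, h1, h2, h3, h4, h5, h6, h7, h8⟩ |
    ⟨g, d, σ, h1, h2, h3, h4, h5, h6, h7, h8⟩ | ⟨g, d, σ, h1, h2, h3, h4, h5, h6, h7, h8⟩
  · linarith
  · have e1 := hb_le hb0 hb1 s₁ w₁
    have e2 := hb_le hb0 hb1 s₂ w₂
    linarith
  · exact h8.trans (vF_le hb0 hb1 h4 h5 h6 h3)
  · exact h8.trans (vF_le hb0 hb1 h4 h5 h6 h3)

/-- Only `leaf` and `split` are missing. -/
theorem certSys_C {b : ℝ} (hb0 : 0 < b) (hb1 : b ≤ π / 6)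
    (leaf : ∀ x y w v p, x < y → y < x + π → ‖p‖ ≤ 1 / Real.sin b →
      (∀ t ∈ Icc x y, dist (pt (1 / Real.sin b) t) p ≤ 1 / Real.sin b - 1) →
      W_8c5d11_h65.C b x y w v → v ≤ dt w p)
    (split : ∀ x z y w v, x < z → z < y → y < x + π → W_8c5d11_h65.C b x y w v →
      ∃ w' v' w'' v'', W_8c5d11_h65.C b x z w' v' ∧ W_8c5d11_h65.C b z y w'' v'' ∧ w' + w'' = w ∧
        v ≤ v' + v'') :
    CertSys (1 / Real.sin b) (1 / Real.sin b - 1) (π + 2 * (b + 1 - Real.tan (b / 2))) 5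
      (W_8c5d11_h65.C b) where
  zero := W_8c5d11_h65.C.zero b
  bdd _ _ _ _ h := bdd_C hb0 hb1 h
  norm _ _ _ _ h := norm_C h
  per := per_C b
  leaf := leaf
  split := split
  top := top_C hb0 (fT_nonneg (cb_le hb0 hb1))

end Pool.Agent.W_8c5d11_v22
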