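import Pool.Agent.W_8c5d11_v22.Top
import Pool.Agent.W_8c5d11_h65.Def

/-!
MP_8c5d11_gt: three parts, for the certificates of `W_8c5d11_h65.Def`.
-/

open Set Metric
open scoped Real

namespace Pool.Agent.W_8c5d11_v22

open Pool.Agent.W_8c5d11_h65 (cb hb hb_soft vF)

theorem ofReal_mul_pt (A s : ℝ) : (A : ℂ) * pt 1 s = pt A s := by
  simp only [pt, Complex.ofReal_one, one_mul]

theorem feats_C {b : ℝ} (hb0 : 0 < b) : Feats (cb b) (W_8c5d11_h65.C b) where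
  F g d s h0 h1 h2 h3 _ :=
    W_8c5d11_h65.C.main (b := b) (x := g) (y := d) le_rfl le_rfl h0 h1 (by linarith) h3
  F' g d s h0 h1 h2 h3 _ :=
    W_8c5d11_h65.C.mirr (b := b) (x := g) (y := d) le_rfl le_rfl h0 h1 (by linarith) h3
  T g d A B h0 _ h2 h3 h4 h5 h6 := by
    refine Or.inr (Or.inl ⟨g, d, pt A g, pt B d, le_rfl, h0.le, le_rfl, ?_, ?_, ?_, ?_, ?_⟩)
    · rwa [norm_pt h2]
    · rwa [norm_pt h4]
    · rwa [← ofReal_mul_pt, ← ofReal_mul_pt B]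
    · rw [ofReal_mul_pt, ofReal_mul_pt]
    · rw [hb_soft b g A h2, hb_soft b d B h4]

theorem pt_two_pi (R : ℝ) : pt R (2 * π) = R := by
  apply Complex.ext
  · rw [pt_re, Real.cos_two_pi, mul_one, Complex.ofReal_re]
  · rw [pt_im, Real.sin_two_pi, mul_zero, Complex.ofReal_im]

theorem pt_neg_two_pi (R : ℝ) : pt R (-(2 * π)) = R := by
  apply Complex.ext
  · rw [pt_re, Real.cos_neg, Real.cos_two_pi, mul_one, Complex.ofReal_re]
  · rw [pt_im, Real.sin_neg, Real.sin_two_pi, neg_zero, mul_zero, Complex.ofReal_im]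

theorem per_C (b x y : ℝ) (w : ℂ) (v : ℝ) :
    W_8c5d11_h65.C b (x + 2 * π) (y + 2 * π) w v ↔ W_8c5d11_h65.C b x y w v := by
  constructor
  · intro h
    have e1 := h.rot (-(2 * π))
    rw [pt_neg_two_pi, Complex.ofReal_one, one_mul] at e1
    convert e1 using 1 <;> ring
  · intro h
    have e1 := h.rot (2 * π)
    rwa [pt_two_pi, Complex.ofReal_one, one_mul] at e1

/-- the field `top` of `CertSys` -/
theorem top_C {b : ℝ} (hb0 : 0 < b)
    (hT : ∀ x y, 0 ≤ x → x ≤ π / 6 → 0 ≤ y → y ≤ π / 6 → 0 ≤ fT (cb b) x y) :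
    ∀ x y z, x < y → y < z → z < x + 2 * π → y < x + π → z < y + π → x + π < z →
      ∃ w₁ v₁ w₂ v₂ w₃ v₃, W_8c5d11_h65.C b x y w₁ v₁ ∧ W_8c5d11_h65.C b y z w₂ v₂ ∧
        W_8c5d11_h65.C b z (x + 2 * π) w₃ v₃ ∧ w₁ + w₂ + w₃ = 0 ∧
        π + 2 * (b + 1 - Real.tan (b / 2)) ≤ v₁ + v₂ + v₃ := by
  intro x y z h1 h2 h3 h4 h5 h6
  exact (feats_C hb0).top (fun a b' w v => per_C b a b' w v) hT x y z h1 h2 h3 h4 h5 h6

end Pool.Agent.W_8c5d11_v22
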