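import Pool.Agent.W_8c5d11_v22.Cert

/-!
MP_8c5d11_gt: rooted plane trees over intervals of directions, and trees which contain a given point.
-/

open Set Metric
open scoped Real

namespace Pool.Agent.W_8c5d11_v22

/-- `Tr R r y a b l`: there is a tree of length at most `l` with root `y` which covers the directions
`[a, b]` of the circle of radius `R` up to the distance `r`. -/
inductive Tr (R r : ℝ) : ℂ → ℝ → ℝ → ℝ → Prop
  | leaf {y : ℂ} {a b l : ℝ} : a < b → (∀ t ∈ Icc a b, dist (pt R t) y ≤ r) → 0 ≤ l → Tr R r y a b l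
  | ext {y z : ℂ} {a b l l' : ℝ} : Tr R r z a b l → l + dist y z ≤ l' → Tr R r y a b l'
  | split {y : ℂ} {a s b l m l' : ℝ} : a < s → s < b → Tr R r y a s l → Tr R r y s b m →
      l + m ≤ l' → Tr R r y a b l'

/-- `Md R r z y a b l`: the same for a tree which contains the point `z`. -/
inductive Md (R r : ℝ) (z : ℂ) : ℂ → ℝ → ℝ → ℝ → Prop
  | dangle {y : ℂ} {a b l l' : ℝ} : Tr R r y a b l → l + dist y z ≤ l' → Md R r z y a b l'
  | ext {y y' : ℂ} {a b l l' : ℝ} : Md R r z y' a b l → l + dist y y' ≤ l' → Md R r z y a b l'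
  | splitL {y : ℂ} {a s b l m l' : ℝ} : a < s → s < b → Md R r z y a s l → Tr R r y s b m →
      l + m ≤ l' → Md R r z y a b l'
  | splitR {y : ℂ} {a s b l m l' : ℝ} : a < s → s < b → Tr R r y a s l → Md R r z y s b m →
      l + m ≤ l' → Md R r z y a b l'

variable {R r : ℝ} {y z : ℂ} {a b l l' : ℝ}

theorem Tr.lt (h : Tr R r y a b l) : a < b := by
  induction h with
  | leaf h _ _ => exact h
  | ext _ _ ih => exact ih
  | split h1 h2 _ _ _ _ _ => exact h1.trans h2

theorem Tr.nonneg (h : Tr R r y a b l) : 0 ≤ l := by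
  induction h with
  | leaf _ _ h => exact h
  | @ext y z a b l l' _ h1 ih => linarith [dist_nonneg (x := y) (y := z)]
  | split _ _ _ _ h1 i1 i2 => linarith

theorem Tr.weak (h : Tr R r y a b l) (hl : l ≤ l') : Tr R r y a b l' := by
  cases h with
  | leaf h1 h2 h3 => exact Tr.leaf h1 h2 (h3.trans hl)
  | ext h1 h2 => exact Tr.ext h1 (h2.trans hl)
  | split h1 h2 h3 h4 h5 => exact Tr.split h1 h2 h3 h4 (h5.trans hl)

theorem Tr.mono_r {r' : ℝ} (h : Tr R r y a b l) (hr : r ≤ r') : Tr R r' y a b l := by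
  induction h with
  | leaf h1 h2 h3 => exact Tr.leaf h1 (fun t ht => (h2 t ht).trans hr) h3
  | ext _ h2 ih => exact Tr.ext ih h2
  | split h1 h2 _ _ h5 i1 i2 => exact Tr.split h1 h2 i1 i2 h5

theorem Md.lt (h : Md R r z y a b l) : a < b := by
  induction h with
  | dangle h _ => exact h.lt
  | ext _ _ ih => exact ih
  | splitL h1 h2 _ _ _ _ => exact h1.trans h2
  | splitR h1 h2 _ _ _ _ => exact h1.trans h2

theorem Md.weak (h : Md R r z y a b l) (hl : l ≤ l') : Md R r z y a b l' := by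
  cases h with
  | dangle h1 h2 => exact Md.dangle h1 (h2.trans hl)
  | ext h1 h2 => exact Md.ext h1 (h2.trans hl)
  | splitL h1 h2 h3 h4 h5 => exact Md.splitL h1 h2 h3 h4 (h5.trans hl)
  | splitR h1 h2 h3 h4 h5 => exact Md.splitR h1 h2 h3 h4 (h5.trans hl)

theorem Md.toTr (h : Md R r z y a b l) : Tr R r y a b l := by
  induction h with
  | @dangle y a b l l' h h1 => exact h.weak (by linarith [dist_nonneg (x := y) (y := z)])
  | ext _ h2 ih => exact Tr.ext ih h2
  | splitL h1 h2 _ h4 h5 ih => exact Tr.split h1 h2 ih h4 h5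
  | splitR h1 h2 h3 _ h5 ih => exact Tr.split h1 h2 h3 ih h5

theorem Md.dist_le (h : Md R r z y a b l) : dist y z ≤ l := by
  induction h with
  | dangle h h1 => linarith [h.nonneg]
  | @ext y y' a b l l' _ h2 ih => linarith [dist_triangle y y' z]
  | splitL h1 h2 _ h4 h5 ih => linarith [h4.nonneg]
  | splitR h1 h2 h3 _ h5 ih => linarith [h3.nonneg]

/-- moving the marked point -/
theorem Md.move {z' : ℂ} (h : Md R r z y a b l) (hl : l + dist z z' ≤ l') :
    Md R r z' y a b l' := by
  induction h generalizing l' with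
  | @dangle y a b l l₁ h h1 => exact Md.dangle h (by linarith [dist_triangle y z z'])
  | ext _ h2 ih => exact Md.ext (ih le_rfl) (by linarith)
  | splitL h1 h2 _ h4 h5 ih => exact Md.splitL h1 h2 (ih le_rfl) h4 (by linarith)
  | splitR h1 h2 h3 _ h5 ih => exact Md.splitR h1 h2 h3 (ih le_rfl) (by linarith)

/-- restriction to a smaller interval -/
theorem Tr.restrict (h : Tr R r y a b l) {a' b' : ℝ} (ha : a ≤ a') (hab : a' < b') (hb : b' ≤ b) :
    Tr R r y a' b' l := by
  induction h generalizing a' b' with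
  | leaf h1 h2 h3 => exact Tr.leaf hab (fun t ht => h2 t ⟨ha.trans ht.1, ht.2.trans hb⟩) h3
  | ext _ h2 ih => exact Tr.ext (ih ha hab hb) h2
  | @split y a s b l m l' h1 h2 h3 h4 h5 i1 i2 =>
    rcases le_or_gt b' s with hs | hs
    · exact (i1 ha hab hs).weak (by linarith [h4.nonneg])
    rcases le_or_gt s a' with hs' | hs'
    · exact (i2 hs' hab hb).weak (by linarith [h3.nonneg])
    · exact Tr.split hs' hs (i1 ha hs' le_rfl) (i2 le_rfl hs hb) h5

theorem Md.restrict (h : Md R r z y a b l) {a' b' : ℝ} (ha : a ≤ a') (hab : a' < b')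
    (hb : b' ≤ b) : Md R r z y a' b' l := by
  induction h generalizing a' b' with
  | dangle h h1 => exact Md.dangle (h.restrict ha hab hb) h1
  | ext _ h2 ih => exact Md.ext (ih ha hab hb) h2
  | @splitL y a s b l m l' h1 h2 h3 h4 h5 ih =>
    rcases le_or_gt b' s with hs | hs
    · exact (ih ha hab hs).weak (by linarith [h4.nonneg])
    rcases le_or_gt s a' with hs' | hs'
    · exact Md.dangle (h4.restrict hs' hab hb) (by linarith [h3.dist_le])
    · exact Md.splitL hs' hs (ih ha hs' le_rfl) (h4.restrict le_rfl hs hb) h5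
  | @splitR y a s b l m l' h1 h2 h3 h4 h5 ih =>
    rcases le_or_gt b' s with hs | hs
    · exact Md.dangle (h3.restrict ha hab hs) (by linarith [h4.dist_le])
    rcases le_or_gt s a' with hs' | hs'
    · exact (ih hs' hab hb).weak (by linarith [h3.nonneg])
    · exact Md.splitR hs' hs (h3.restrict ha hs' le_rfl) (ih le_rfl hs hb) h5

/-! ### symmetries -/

theorem norm_pt_one' (s : ℝ) : ‖pt 1 s‖ = 1 := norm_pt zero_le_one s

theorem pt_mul (θ κ s : ℝ) : pt 1 θ * pt κ s = pt κ (s + θ) := by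
  simp only [pt]
  push_cast
  rw [add_mul, Complex.exp_add]
  ring

theorem dist_mul_left' (θ : ℝ) (x y : ℂ) : dist (pt 1 θ * x) (pt 1 θ * y) = dist x y := by
  rw [dist_eq_norm, dist_eq_norm, ← mul_sub, norm_mul, norm_pt_one', one_mul]

theorem Tr.rot (θ : ℝ) (h : Tr R r y a b l) : Tr R r (pt 1 θ * y) (a + θ) (b + θ) l := by
  induction h with
  | leaf h1 h2 h3 =>
    refine Tr.leaf (by linarith) (fun t ht => ?_) h3
    have := h2 (t - θ) ⟨by linarith [ht.1], by linarith [ht.2]⟩
    have e : pt R t = pt 1 θ * pt R (t - θ) := by rw [pt_mul]; congr 1; ring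
    rw [e, dist_mul_left']
    exact this
  | ext _ h2 ih => exact Tr.ext ih (by rw [dist_mul_left']; exact h2)
  | split h1 h2 _ _ h5 i1 i2 => exact Tr.split (by linarith) (by linarith) i1 i2 h5

theorem Md.rot (θ : ℝ) (h : Md R r z y a b l) :
    Md R r (pt 1 θ * z) (pt 1 θ * y) (a + θ) (b + θ) l := by
  induction h with
  | dangle h h1 => exact Md.dangle (h.rot θ) (by rw [dist_mul_left']; exact h1)
  | ext _ h2 ih => exact Md.ext ih (by rw [dist_mul_left']; exact h2)
  | splitL h1 h2 _ h4 h5 ih => exact Md.splitL (by linarith) (by linarith) ih (h4.rot θ) h5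
  | splitR h1 h2 h3 _ h5 ih => exact Md.splitR (by linarith) (by linarith) (h3.rot θ) ih h5

theorem conj_pt' (κ s : ℝ) : (starRingEnd ℂ) (pt κ s) = pt κ (-s) := by
  apply Complex.ext
  · rw [Complex.conj_re, pt_re, pt_re, Real.cos_neg]
  · rw [Complex.conj_im, pt_im, pt_im, Real.sin_neg]; ring

theorem dist_conj' (x y : ℂ) : dist ((starRingEnd ℂ) x) ((starRingEnd ℂ) y) = dist x y := by
  rw [dist_eq_norm, dist_eq_norm, ← map_sub, Complex.norm_conj]

theorem Tr.conj (h : Tr R r y a b l) : Tr R r ((starRingEnd ℂ) y) (-b) (-a) l := by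
  induction h with
  | leaf h1 h2 h3 =>
    refine Tr.leaf (by linarith) (fun t ht => ?_) h3
    have := h2 (-t) ⟨by linarith [ht.2], by linarith [ht.1]⟩
    have e : pt R t = (starRingEnd ℂ) (pt R (-t)) := by rw [conj_pt', neg_neg]
    rw [e, dist_conj']
    exact this
  | ext _ h2 ih => exact Tr.ext ih (by rw [dist_conj']; exact h2)
  | split h1 h2 _ _ h5 i1 i2 => exact Tr.split (by linarith) (by linarith) i2 i1 (by linarith)

theorem Md.conj (h : Md R r z y a b l) :
    Md R r ((starRingEnd ℂ) z) ((starRingEnd ℂ) y) (-b) (-a) l := by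
  induction h with
  | dangle h h1 => exact Md.dangle h.conj (by rw [dist_conj']; exact h1)
  | ext _ h2 ih => exact Md.ext ih (by rw [dist_conj']; exact h2)
  | splitL h1 h2 _ h4 h5 ih => exact Md.splitR (by linarith) (by linarith) h4.conj ih (by linarith)
  | splitR h1 h2 h3 _ h5 ih => exact Md.splitL (by linarith) (by linarith) ih h3.conj (by linarith)

theorem pt_one_two_pi' : pt 1 (2 * π) = 1 := by
  apply Complex.ext
  · rw [pt_re, Real.cos_two_pi, mul_one, Complex.one_re]
  · rw [pt_im, Real.sin_two_pi, mul_zero, Complex.one_im]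

theorem Tr.shift (h : Tr R r y a b l) : Tr R r y (a + 2 * π) (b + 2 * π) l := by
  have := h.rot (2 * π)
  rwa [pt_one_two_pi', one_mul] at this

theorem Md.shift (h : Md R r z y a b l) : Md R r z y (a + 2 * π) (b + 2 * π) l := by
  have := h.rot (2 * π)
  rwa [pt_one_two_pi', one_mul, one_mul] at this

/-- scaling: from radii `D R`, `D r` to `R`, `r` -/
theorem Tr.scale {D : ℝ} (hD : 0 < D) (h : Tr (D * R) (D * r) y a b l) :
    Tr R r ((D : ℂ)⁻¹ * y) a b (l / D) := by
  have hD' : (D : ℂ) ≠ 0 := Complex.ofReal_ne_zero.2 hD.ne'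
  have hn : ‖(D : ℂ)⁻¹‖ = D⁻¹ := by rw [norm_inv, Complex.norm_of_nonneg hD.le]
  induction h with
  | leaf h1 h2 h3 =>
    refine Tr.leaf h1 (fun t ht => ?_) (by positivity)
    have h4 := h2 t ht
    have e : pt R t = (D : ℂ)⁻¹ * pt (D * R) t := by
      simp only [pt]; push_cast; field_simp
    rw [e, dist_eq_norm, ← mul_sub, norm_mul, hn, ← dist_eq_norm, inv_mul_le_iff₀ hD]
    exact h4
  | ext _ h2 ih =>
    refine Tr.ext ih ?_
    rw [dist_eq_norm, ← mul_sub, norm_mul, hn, ← dist_eq_norm]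
    have := div_le_div_of_nonneg_right h2 hD.le
    rw [add_div] at this
    rw [inv_mul_eq_div]
    exact this
  | split h1 h2 _ _ h5 i1 i2 =>
    refine Tr.split h1 h2 i1 i2 ?_
    have := div_le_div_of_nonneg_right h5 hD.le
    rwa [add_div] at this

theorem Md.scale {D : ℝ} (hD : 0 < D) (h : Md (D * R) (D * r) z y a b l) :
    Md R r ((D : ℂ)⁻¹ * z) ((D : ℂ)⁻¹ * y) a b (l / D) := by
  have hD' : (D : ℂ) ≠ 0 := Complex.ofReal_ne_zero.2 hD.ne'
  have hn : ‖(D : ℂ)⁻¹‖ = D⁻¹ := by rw [norm_inv, Complex.norm_of_nonneg hD.le]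
  induction h with
  | dangle h h1 =>
    refine Md.dangle (h.scale hD) ?_
    rw [dist_eq_norm, ← mul_sub, norm_mul, hn, ← dist_eq_norm, inv_mul_eq_div, ← add_div]
    exact div_le_div_of_nonneg_right h1 hD.le
  | ext _ h2 ih =>
    refine Md.ext ih ?_
    rw [dist_eq_norm, ← mul_sub, norm_mul, hn, ← dist_eq_norm, inv_mul_eq_div, ← add_div]
    exact div_le_div_of_nonneg_right h2 hD.le
  | splitL h1 h2 _ h4 h5 ih =>
    refine Md.splitL h1 h2 ih (h4.scale hD) ?_
    rw [← add_div]
    exact div_le_div_of_nonneg_right h5 hD.le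
  | splitR h1 h2 h3 _ h5 ih =>
    refine Md.splitR h1 h2 (h3.scale hD) ih ?_
    rw [← add_div]
    exact div_le_div_of_nonneg_right h5 hD.le

end Pool.Agent.W_8c5d11_v22
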